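import Pool.Agent.WarQ.Stmts
import Pool.Agent.War.C1

/-!
# Module SB: small q, the Horace step
-/

set_option autoImplicit false

open Module MvPolynomial
open Pool.Agent.War Pool.Agent.WarS

namespace Pool.Agent.WarQ

namespace SBaux

/-- trace: generically no nonzero tuple -/
theorem trace (hSG : S_SG) (ν d b u eH : ℕ) (hν : 1 ≤ ν) (h1 : GG ν d u)
    (h2 : NN ν d ≤ ν * u + (b * u + eH)) :
    Gen ℂ fun x : ((Fin b × Fin u) ⊕ Fin eH → Fin ν → ℂ) × (Fin b × Fin u → Fin b → ℂ) =>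
      TrC1 ν d x = ⊥ := by
  classical
  let P : Fin b → Finset ((Fin b × Fin u) ⊕ Fin eH) := fun j =>
    Finset.univ.map ⟨fun i : Fin u => Sum.inl (j, i), fun i i' h => by
      simpa using h⟩
  have hP : ∀ j, (P j).card = u := fun j => by simp [P]
  have hcard : Fintype.card ((Fin b × Fin u) ⊕ Fin eH) = b * u + eH := by simp
  obtain ⟨z0, hz0⟩ := (Gen.forall fun j : Fin b =>
    hSG ν d ((Fin b × Fin u) ⊕ Fin eH) (P j) hν (by rw [hP]; exact h1)).exists
  have hD : ∀ j, Dbl ν d (P j) z0 = ⊥ := fun j =>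
    Dbl_eq_botC1 (hz0 j) (by rw [hP, hcard]; omega)
  refine (PK_TrC1 ν d).gen_bot
    (x₀ := (z0, fun q => (Pi.single q.1 1 : Fin b → ℂ))) ?_
  rw [eq_bot_iff]
  intro f hf
  obtain ⟨k1, k2⟩ := mem_TrC1.1 hf
  rw [Submodule.mem_bot]
  funext j
  have : f j ∈ Dbl ν d (P j) z0 := by
    refine mem_Dbl.2 ⟨fun i => k1 i j, fun i hi k => ?_⟩
    obtain ⟨i', -, rfl⟩ := Finset.mem_map.1 hi
    have := k2 (j, i') k
    change eval (z0 (Sum.inl (j, i'))) (pderiv k (f j : MvPolynomial (Fin ν) ℂ)) = 0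
    simpa [Pi.single_apply] using this
  rw [hD, Submodule.mem_bot] at this
  rw [this]
  rfl

/-- the residual space has small dimension for general off points -/
theorem resid (n d b c e q : ℕ) (z : Fin (b + c) → Fin n → ℂ) (a : Fin (b + c) → Fin b → ℂ)
    (y : Fin (e + q) → Fin n → ℂ) (hK : Kill n d z a y) :
    Gen ℂ fun x : (Fin (b + c) ⊕ Fin e → Fin n → ℂ) × (Fin (b + c) → Fin b → ℂ) =>
      finrank ℂ (TrC1 n d x) ≤ b * q := by
  classical
  refine (PK_TrC1 n d).gen_finrank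
    (x₀ := (Sum.elim z fun i => y (Fin.castAdd q i), a)) ?_
  set x₀ : (Fin (b + c) ⊕ Fin e → Fin n → ℂ) × (Fin (b + c) → Fin b → ℂ) :=
    (Sum.elim z fun i => y (Fin.castAdd q i), a) with hx₀
  let L : (TrC1 n d x₀) →ₗ[ℂ] (Fin b × Fin q → ℂ) := LinearMap.pi fun p =>
    (ev n d (y (Fin.natAdd e p.2))).comp ((LinearMap.proj p.1).comp (Submodule.subtype _))
  have hL : Function.Injective L := by
    intro g g' hg
    obtain ⟨k1, k2⟩ := mem_TrC1.1 g.2
    obtain ⟨k1', k2'⟩ := mem_TrC1.1 g'.2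
    have h := hK (fun j => ((g : Fin b → Pol n d) j : MvPolynomial (Fin n) ℂ) -
        ((g' : Fin b → Pol n d) j : MvPolynomial (Fin n) ℂ))
      (fun j => mem_Pol.1 (Submodule.sub_mem _ ((g : Fin b → Pol n d) j).2
        ((g' : Fin b → Pol n d) j).2))
      (fun i j => by rw [map_sub]; exact sub_eq_zero.2 ((k1 (Sum.inl i) j).trans (k1' (Sum.inl i) j).symm))
      (fun i k => by
        simp only [map_sub, mul_sub, Finset.sum_sub_distrib]
        exact sub_eq_zero.2 ((k2 i k).trans (k2' i k).symm))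
      (fun i j => by
        rw [map_sub]
        refine Fin.addCases (fun i => ?_) (fun i => ?_) i
        · exact sub_eq_zero.2 ((k1 (Sum.inr i) j).trans (k1' (Sum.inr i) j).symm)
        · have := congrFun hg (j, i)
          exact sub_eq_zero.2 ((ev_apply _ _).symm.trans (this.trans (ev_apply _ _))))
    apply Subtype.ext
    funext j
    exact Subtype.ext (sub_eq_zero.1 (h j))
  have h1 := LinearMap.finrank_le_finrank_of_injective hL
  rw [Module.finrank_fintype_fun_eq_card] at h1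
  simpa using h1

theorem core (hSG : S_SG) (ν δ b c e q eH : ℕ) (hν : 1 ≤ ν)
    (hGG : GG ν (δ + 2) q) (h2 : NN ν (δ + 2) ≤ ν * q + (b * q + eH))
    (h3 : NN (ν + 1) δ ≤ b + c + e)
    (z₀ : Fin (b + c) → Fin (ν + 1) → ℂ) (a₀ : Fin (b + c) → Fin b → ℂ)
    (y₀ : Fin (e + q) → Fin (ν + 1) → ℂ) (hK : Kill (ν + 1) (δ + 1) z₀ a₀ y₀) :
    ∃ (z : (Fin b × Fin q) ⊕ Fin (b + c) → Fin (ν + 1) → ℂ)
      (a : (Fin b × Fin q) ⊕ Fin (b + c) → Fin b → ℂ)
      (y : Fin eH ⊕ Fin e → Fin (ν + 1) → ℂ), Kill (ν + 1) (δ + 2) z a y := by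
  classical
  -- the off points
  have gA := resid (ν + 1) (δ + 1) b c e q z₀ a₀ y₀ hK
  have hfst : Function.Surjective
      (LinearMap.fst ℂ (Fin (b + c) ⊕ Fin e → Fin (ν + 1) → ℂ) (Fin (b + c) → Fin b → ℂ)) :=
    LinearMap.fst_surjective
  have gB := (gen_off (n := ν) (I := Fin (b + c) ⊕ Fin e)).comp
    (LinearMap.fst ℂ (Fin (b + c) ⊕ Fin e → Fin (ν + 1) → ℂ) (Fin (b + c) → Fin b → ℂ)) hfst
  have gC := (hSG (ν + 1) δ (Fin (b + c) ⊕ Fin e) ∅ (by omega)
    (by rw [Finset.card_empty]; exact GG.zero _ _)).comp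
    (LinearMap.fst ℂ (Fin (b + c) ⊕ Fin e → Fin (ν + 1) → ℂ) (Fin (b + c) → Fin b → ℂ)) hfst
  obtain ⟨x', ⟨hV, hoff⟩, hC⟩ := ((gA.and gB).and gC).exists
  simp only [LinearMap.fst_apply] at hoff hC
  have hC' : Dbl (ν + 1) δ ∅ x'.1 = ⊥ := by
    refine Dbl_eq_botC1 hC ?_
    have hc : Fintype.card (Fin (b + c) ⊕ Fin e) = b + c + e := by simp
    rw [hc]
    simp only [Finset.card_empty, mul_zero, zero_add]
    omega
  set V : Submodule ℂ (Fin b → Pol (ν + 1) (δ + 1)) := TrC1 (ν + 1) (δ + 1) x' with hVdef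
  -- points with one condition on the hyperplane
  have hred : ∀ w ∈ V, w ∉ (⊥ : Submodule ℂ (Fin b → Pol (ν + 1) (δ + 1))) →
      ∃ y : (Fin ν → ℂ) × (Fin b → ℂ), OmC1 ν (δ + 1) y w ≠ 0 := by
    intro w hw hw0
    by_contra hcon
    push Not at hcon
    apply hw0
    rw [Submodule.mem_bot]
    funext j
    have e1 : ∀ p : Fin ν → ℂ, eval p (res ν (w j : MvPolynomial (Fin (ν + 1)) ℂ)) = 0 := by
      intro p
      have := hcon (p, Pi.single j 1)
      rw [OmC1_apply] at this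
      simpa [Pi.single_apply, eval_hp] using this
    have e2 : res ν (w j : MvPolynomial (Fin (ν + 1)) ℂ) = 0 :=
      MvPolynomial.funext fun p => by rw [e1, map_zero]
    obtain ⟨g, hg⟩ := exists_mulXC1 e2
    have e3 : g ∈ Dbl (ν + 1) δ ∅ x'.1 := by
      refine Dbl_of_mulXC1 hoff ?_
      rw [← hg]
      exact mem_Dbl.2 ⟨fun i => (mem_TrC1.1 hw).1 i j, fun i hi => absurd hi (Finset.notMem_empty i)⟩
    rw [hC', Submodule.mem_bot] at e3
    rw [hg, e3, map_zero]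
    rfl
  obtain ⟨yy, hyy⟩ := red (OmC1 ν (δ + 1)) V ⊥ hred (b * q)
  have hyy' : V ⊓ ⨅ i, LinearMap.ker (OmC1 ν (δ + 1) (yy i)) = ⊥ := by
    apply Submodule.finrank_eq_zero.1
    have : finrank ℂ (⊥ : Submodule ℂ (Fin b → Pol (ν + 1) (δ + 1))) = 0 := finrank_bot _ _
    rw [this] at hyy
    omega
  have hres : Gen ℂ fun x : ((Fin b × Fin q) ⊕ Fin eH → Fin ν → ℂ) × (Fin b × Fin q → Fin b → ℂ) =>
      (⨅ i : Fin b × Fin q, LinearMap.ker (OmC1 ν (δ + 1) (x.1 (Sum.inl i), x.2 i))).comap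
        V.subtype = ⊥ := by
    have hPK := PK_OmC1 ν (δ + 1) (α := Fin b × Fin q) (β := Fin eH) (γ := Fin b)
    refine (PK.comap (V' := V) hPK V.subtype).gen_bot
      (x₀ := (Sum.elim (fun q => (yy (finProdFinEquiv q)).1) (fun _ => 0),
        fun q => (yy (finProdFinEquiv q)).2)) ?_
    rw [eq_bot_iff]
    intro v hv
    rw [Submodule.mem_comap, Submodule.mem_iInf] at hv
    have : (v : Fin b → Pol (ν + 1) (δ + 1)) ∈
        V ⊓ ⨅ i, LinearMap.ker (OmC1 ν (δ + 1) (yy i)) := by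
      refine ⟨v.2, (Submodule.mem_iInf _).2 fun i => ?_⟩
      have := hv (finProdFinEquiv.symm i)
      simp only [Sum.elim_inl, Equiv.apply_symm_apply] at this
      exact this
    rw [hyy', Submodule.mem_bot] at this
    rw [Submodule.mem_bot]
    exact Subtype.ext this
  obtain ⟨x, hx1, hx2⟩ := ((trace hSG ν (δ + 2) b q eH hν hGG h2).and hres).exists
  refine ⟨Sum.elim (fun i => hp (x.1 (Sum.inl i))) (fun i => x'.1 (Sum.inl i)),
    Sum.elim x.2 x'.2,
    Sum.elim (fun i => hp (x.1 (Sum.inr i))) (fun i => x'.1 (Sum.inr i)), ?_⟩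
  intro f hf k1 k2 k3
  -- trace
  have t1 : (fun j => resL ν (δ + 2) ⟨f j, mem_Pol.2 (hf j)⟩) ∈ TrC1 ν (δ + 2) x := by
    refine mem_TrC1.2 ⟨?_, fun i k => ?_⟩
    · rintro (i | i) j
      · have := k1 (Sum.inl i) j
        rw [Sum.elim_inl, eval_hp] at this
        exact this
      · have := k3 (Sum.inl i) j
        rw [Sum.elim_inl, eval_hp] at this
        exact this
    · have := k2 (Sum.inl i) k.succ
      simp only [Sum.elim_inl, eval_hp_pderiv] at this
      exact this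
  rw [hx1, Submodule.mem_bot] at t1
  have t2 : ∀ j, ∃ g : Pol (ν + 1) (δ + 1), (⟨f j, mem_Pol.2 (hf j)⟩ : Pol (ν + 1) (δ + 2)) =
      mulX ν (δ + 1) g := fun j => by
    refine exists_mulXC1 ?_
    have := congrArg Subtype.val (congrFun t1 j)
    simpa using this
  choose g hg using t2
  have hg' : ∀ j, f j = X 0 * (g j : MvPolynomial (Fin (ν + 1)) ℂ) := fun j =>
    congrArg Subtype.val (hg j)
  have tz : ∀ i j, eval (x'.1 i) (g j : MvPolynomial (Fin (ν + 1)) ℂ) = 0 := by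
    intro i j
    have h : eval (x'.1 i) (f j) = 0 := by
      rcases i with i | i
      · exact k1 (Sum.inr i) j
      · exact k3 (Sum.inr i) j
    rw [hg', eval_X_mulC1] at h
    exact (mul_eq_zero.1 h).resolve_left (hoff i)
  have t3 : g ∈ V := by
    refine mem_TrC1.2 ⟨tz, fun i k => ?_⟩
    have h := k2 (Sum.inr i) k
    simp only [Sum.elim_inr, hg', eval_pderiv_X_mulC1, tz, mul_zero, add_zero] at h
    have h' : x'.1 (Sum.inl i) 0 * ∑ j, x'.2 i j *
        eval (x'.1 (Sum.inl i)) (pderiv k (g j : MvPolynomial (Fin (ν + 1)) ℂ)) = 0 := by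
      rw [Finset.mul_sum, ← h]
      exact Finset.sum_congr rfl fun j _ => by ring
    exact (mul_eq_zero.1 h').resolve_left (hoff (Sum.inl i))
  have t4 : (⟨g, t3⟩ : V) ∈
      (⨅ i : Fin b × Fin q, LinearMap.ker (OmC1 ν (δ + 1) (x.1 (Sum.inl i), x.2 i))).comap
        V.subtype := by
    rw [Submodule.mem_comap, Submodule.mem_iInf]
    intro i
    rw [LinearMap.mem_ker, Submodule.subtype_apply, OmC1_apply]
    have := k2 (Sum.inl i) 0
    simp only [Sum.elim_inl, hg', eval_pderiv_X_mulC1, hp_zero, zero_mul, zero_add,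
      if_true, one_mul] at this
    exact this
  rw [hx2, Submodule.mem_bot] at t4
  intro j
  have : g j = 0 := congrFun (congrArg Subtype.val t4) j
  rw [hg', this]
  simp

end SBaux

open SBaux in
theorem x_SB (hSG : S_SG) : S_SB := by
  intro ν d b c D q hν hd hb hGG h1 h2 h3 hQB
  obtain ⟨δ, rfl⟩ : ∃ δ, d = δ + 1 := ⟨d - 1, by omega⟩
  obtain ⟨z₀, a₀, y₀, hK⟩ := hQB
  have e1 : NN (ν + 1) (δ + 1) = NN ν (δ + 1) + NN (ν + 1) δ := NN_succ ν δ
  have e2 : NN (ν + 1) (δ + 1 + 1) = NN ν (δ + 2) + NN (ν + 1) (δ + 1) := NN_succ ν (δ + 1)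
  obtain ⟨e, he⟩ : ∃ e, NN (ν + 1) (δ + 1) = (ν + 1 + D + q) + (b + c) + e :=
    ⟨_, (Nat.add_sub_cancel' h2).symm⟩
  obtain ⟨eH, heH⟩ : ∃ eH, NN ν (δ + 2) = (ν + b) * q + eH := ⟨_, (Nat.add_sub_cancel' h1).symm⟩
  have hbq : (ν + b) * q = ν * q + b * q := add_mul _ _ _
  have hy : NN (ν + 1) (δ + 1) - (ν + 1 + D) - (b + c) = e + q := by omega
  have hK' : Kill (ν + 1) (δ + 1) z₀ a₀ (y₀ ∘ Fin.cast hy.symm) := by
    intro f hf k1 k2 k3
    refine hK f hf k1 k2 fun i j => ?_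
    have := k3 (Fin.cast hy i) j
    simpa using this
  obtain ⟨z, a, y, hKill⟩ := core hSG ν δ b c e q eH hν hGG (by omega) (by omega) z₀ a₀ _ hK'
  have m1 : b * (q + 1) = b * q + b := by ring
  have m2 : (ν + 1) * (q + 1) = ν * q + q + ν + 1 := by ring
  have hcα : Fintype.card ((Fin b × Fin q) ⊕ Fin (b + c)) = b * (q + 1) + c := by
    simp only [Fintype.card_sum, Fintype.card_prod, Fintype.card_fin]
    omega
  have hcβ : Fintype.card (Fin eH ⊕ Fin e) =
      NN (ν + 1) (δ + 1 + 1) - ((ν + 1) * (q + 1) + D) - (b * (q + 1) + c) := by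
    simp only [Fintype.card_sum, Fintype.card_fin]
    omega
  exact ⟨_, _, _, hKill.reindexC1 (Fintype.equivFinOfCardEq hcα).symm
    (Fintype.equivFinOfCardEq hcβ).symm⟩

end Pool.Agent.WarQ
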