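import Pool.Agent.WarQ.Stmts

/-!
# Module WQ_CA (MP_db021c_ag): combinatorics of case A   (helper84)
-/

set_option autoImplicit false

namespace Pool.Agent.WarQ

namespace CAaux

lemma cnt_div {m k c : ℕ} (κ : Fin m → Fin k) (hc : 0 < c) (h : ∀ i, (κ i).val = i.val / c)
    (v : Fin k) : cnt κ v ≤ c := by
  unfold cnt
  have hcard : (Finset.range c).card = c := Finset.card_range c
  rw [← hcard]
  refine Finset.card_le_card_of_injOn (fun i : Fin m => i.val % c) ?_ ?_
  · intro i _
    simp only [Finset.coe_range, Set.mem_Iio]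
    exact Nat.mod_lt _ hc
  · intro i hi j hj hij
    simp only [Finset.coe_filter, Finset.mem_univ, true_and] at hi hj
    have hi' : κ i = v := hi
    have hj' : κ j = v := hj
    have h1 : i.val / c = j.val / c := by rw [← h i, ← h j, hi', hj']
    have h2 : i.val % c = j.val % c := hij
    apply Fin.ext
    rw [← Nat.div_add_mod i.val c, ← Nat.div_add_mod j.val c, h1, h2]

lemma cnt_mod {m k c s : ℕ} (κ : Fin m → Fin k) (hm : m ≤ c * (s + 1))
    (h : ∀ i, (κ i).val = i.val % (s + 1)) (v : Fin k) : cnt κ v ≤ c := by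
  unfold cnt
  have hcard : (Finset.range c).card = c := Finset.card_range c
  rw [← hcard]
  refine Finset.card_le_card_of_injOn (fun i : Fin m => i.val / (s + 1)) ?_ ?_
  · intro i _
    simp only [Finset.coe_range, Set.mem_Iio]
    exact Nat.div_lt_of_lt_mul (by rw [mul_comm]; exact lt_of_lt_of_le i.isLt hm)
  · intro i hi j hj hij
    simp only [Finset.coe_filter, Finset.mem_univ, true_and] at hi hj
    have hi' : κ i = v := hi
    have hj' : κ j = v := hj
    have h1 : i.val % (s + 1) = j.val % (s + 1) := by rw [← h i, ← h j, hi', hj']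
    have h2 : i.val / (s + 1) = j.val / (s + 1) := hij
    apply Fin.ext
    rw [← Nat.div_add_mod i.val (s + 1), ← Nat.div_add_mod j.val (s + 1), h1, h2]

end CAaux

open CAaux in
theorem x_CA : S_CA := by
  intro n b c D hc hcb hD hD1 hcc hn
  obtain ⟨D', rfl⟩ : ∃ D', D = D' + 1 := ⟨D - 1, by omega⟩
  obtain ⟨s, hs⟩ : ∃ s, s = (b + c - 1) / c := ⟨_, rfl⟩
  rw [← hs] at hn
  have hs1 : b + c ≤ c * (s + 1) := by
    have := Nat.lt_mul_div_succ (b + c - 1) (show 0 < c by omega)
    rw [← hs] at this
    omega
  have hs2 : c ≤ s := by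
    rw [hs, Nat.le_div_iff_mul_le (by omega)]
    omega
  have hs3 : 2 ≤ s := by
    rw [hs, Nat.le_div_iff_mul_le (by omega)]
    omega
  have hn' : D' * s + s ≤ n := by
    rw [Nat.add_mul, one_mul] at hn
    exact hn
  obtain ⟨sz, hsz⟩ : ∃ sz : Fin (D' + 1) → ℕ, sz = fun g => if g = 0 then n - D' * s else s :=
    ⟨_, rfl⟩
  have hsz1 : ∀ g, s ≤ sz g := by
    intro g
    rw [hsz]
    dsimp only
    split_ifs
    · omega
    · exact le_rfl
  have hlt : ∀ i : Fin (b + c), i.val / c < s + 1 := by
    intro i
    exact Nat.div_lt_of_lt_mul (lt_of_lt_of_le i.isLt hs1)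
  refine ⟨sz, fun g i => if g = 0 then ⟨i.val / c, lt_of_lt_of_le (hlt i) (by
      have := hsz1 g; omega)⟩ else ⟨i.val % (s + 1), lt_of_lt_of_le (Nat.mod_lt _ (by omega)) (by
      have := hsz1 g; omega)⟩, ?_, ?_, ?_, ?_⟩
  · rw [hsz, Fin.sum_univ_succ]
    simp only [if_true, Fin.succ_ne_zero, if_false, Finset.sum_const, Finset.card_univ,
      Fintype.card_fin, smul_eq_mul]
    omega
  · intro g
    exact le_trans hs3 (hsz1 g)
  · intro g v
    by_cases hg : g = 0
    · exact cnt_div _ (by omega) (fun i => by simp only [if_pos hg]) v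
    · exact cnt_mod _ hs1 (fun i => by simp only [if_neg hg]) v
  · by_cases hD0 : D' = 0
    · have hc1 : c = 1 := hD1 (by omega)
      refine ⟨0, 0, ?_⟩
      intro i i' h _
      have h1 := congrArg Fin.val h
      simp only [if_true] at h1
      subst hc1
      rw [Nat.div_one, Nat.div_one] at h1
      exact Fin.ext h1
    · have h1D : 1 < D' + 1 := by omega
      have hne : (⟨1, h1D⟩ : Fin (D' + 1)) ≠ 0 := by
        intro h
        have := congrArg Fin.val h
        simp at this
      refine ⟨0, ⟨1, h1D⟩, ?_⟩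
      intro i i' h h'
      have h1 := congrArg Fin.val h
      have h2 := congrArg Fin.val h'
      simp only [if_true] at h1
      simp only [if_neg hne] at h2
      apply Fin.ext
      have e1 := Nat.div_add_mod i.val c
      have e2 := Nat.div_add_mod i'.val c
      have l1 := Nat.mod_lt i.val (show 0 < c by omega)
      have l2 := Nat.mod_lt i'.val (show 0 < c by omega)
      rw [h1] at e1
      have hmod : i.val ≡ i'.val [MOD (s + 1)] := h2
      rcases le_total i.val i'.val with hle | hle
      · have h3 := (Nat.modEq_iff_dvd' hle).1 hmod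
        have h4 : i'.val - i.val < s + 1 := by omega
        have h5 := Nat.eq_zero_of_dvd_of_lt h3 h4
        omega
      · have h3 := (Nat.modEq_iff_dvd' hle).1 hmod.symm
        have h4 : i.val - i'.val < s + 1 := by omega
        have h5 := Nat.eq_zero_of_dvd_of_lt h3 h4
        omega

end Pool.Agent.WarQ
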