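import Pool.Agent.WarQ.Stmts

/-!
# Combinatorics of case B (MP_db021c_ag)   (helper34)
-/

set_option autoImplicit false

namespace Pool.Agent.WarQ

namespace CBaux

theorem transfer {I : Type} [Fintype I] [DecidableEq I] (b c D : ℕ) (hI : Fintype.card I = b + c)
    (sz : Fin (D + 1) → ℕ) (lab : Fin (D + 1) → I → ℕ) (E : Fin D → Finset I)
    (hb : ∀ g x, lab g x ≤ sz g)
    (h1 : ∀ g v, v ≠ 0 → (Finset.univ.filter fun x => lab g x = v).card ≤ c)
    (h2 : ∀ j, ∀ x ∈ E j, lab 0 x ≠ 0 ∧ ∀ j', j' ≠ j → lab (Fin.succ j') x ≠ 0)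
    (h3 : ∀ j, (Finset.univ.filter fun x => lab (Fin.succ j) x = 0 ∧ x ∉ E j).card ≤ c)
    (h4 : ∃ g₁ g₂, ∀ x x', lab g₁ x = lab g₁ x' → lab g₂ x = lab g₂ x' → x = x') :
    ∃ (κ : ∀ g, Fin (b + c) → Fin (sz g + 1)) (E' : Fin D → Finset (Fin (b + c))),
      (∀ g v, v ≠ 0 → cnt (κ g) v ≤ c) ∧
      (∀ j, ∀ i ∈ E' j, κ 0 i ≠ 0 ∧ ∀ j', j' ≠ j → κ (Fin.succ j') i ≠ 0) ∧
      (∀ j, (Finset.univ.filter fun i => κ (Fin.succ j) i = 0 ∧ i ∉ E' j).card ≤ c) ∧
      ∃ g₁ g₂, ∀ i i', κ g₁ i = κ g₁ i' → κ g₂ i = κ g₂ i' → i = i' := by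
  let e : Fin (b + c) ≃ I := (Fintype.equivFinOfCardEq hI).symm
  refine ⟨fun g i => ⟨lab g (e i), Nat.lt_succ_of_le (hb g (e i))⟩,
    fun j => Finset.univ.filter fun i => e i ∈ E j, ?_, ?_, ?_, ?_⟩
  · intro g v hv
    refine le_trans ?_ (h1 g v.val fun h => hv (Fin.ext h))
    refine Finset.card_le_card_of_injOn e ?_ e.injective.injOn
    intro i hi
    simp only [Finset.coe_filter, Finset.mem_univ, true_and, Set.mem_ofPred_eq, Fin.ext_iff] at hi ⊢
    exact hi
  · intro j i hi
    have hi' : e i ∈ E j := by simpa using hi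
    obtain ⟨k1, k2⟩ := h2 j _ hi'
    refine ⟨fun h => k1 ?_, fun j' hj' h => k2 j' hj' ?_⟩
    · exact congrArg Fin.val h
    · exact congrArg Fin.val h
  · intro j
    refine le_trans ?_ (h3 j)
    refine Finset.card_le_card_of_injOn e ?_ e.injective.injOn
    intro i hi
    simp only [Finset.coe_filter, Finset.mem_univ, true_and, Set.mem_ofPred_eq, Finset.mem_filter]
      at hi ⊢
    exact ⟨congrArg Fin.val hi.1, hi.2⟩
  · obtain ⟨g₁, g₂, h⟩ := h4
    exact ⟨g₁, g₂, fun i i' k1 k2 => e.injective (h _ _ (congrArg Fin.val k1)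
      (congrArg Fin.val k2))⟩

/-- labels with classes of size `≤ c`, nonzero on a given set -/
theorem exists_lab {I : Type} [Fintype I] [DecidableEq I] (T : Finset I) (c k : ℕ)
    (hT : T.card ≤ k * c) : ∃ f : I → ℕ, (∀ x, f x ≤ k) ∧ (∀ x ∈ T, f x ≠ 0) ∧
      ∀ v, v ≠ 0 → (Finset.univ.filter fun x => f x = v).card ≤ c := by
  let e : T ≃ Fin T.card := T.equivFin
  refine ⟨fun x => if h : x ∈ T then (e ⟨x, h⟩).val / c + 1 else 0, ?_, ?_, ?_⟩
  · intro x
    dsimp only
    split_ifs with h
    · have h1 : (e ⟨x, h⟩).val < k * c := lt_of_lt_of_le (e ⟨x, h⟩).2 hT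
      have h2 : (e ⟨x, h⟩).val / c < k := by
        rw [Nat.div_lt_iff_lt_mul]
        · exact h1
        · rcases Nat.eq_zero_or_pos c with rfl | hc
          · simp at h1
          · exact hc
      omega
    · omega
  · intro x hx
    dsimp only
    rw [dif_pos hx]
    exact Nat.succ_ne_zero _
  · intro v hv
    have key : (Finset.univ.filter fun x => (if h : x ∈ T then (e ⟨x, h⟩).val / c + 1 else 0) = v).card
        ≤ (Finset.range c).card := by
      refine Finset.card_le_card_of_injOn
        (fun x => if h : x ∈ T then (e ⟨x, h⟩).val % c else 0) ?_ ?_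
      · intro x hx
        simp only [Finset.coe_filter, Finset.mem_univ, true_and, Set.mem_ofPred_eq,
          Finset.coe_range, Set.mem_Iio] at hx ⊢
        split_ifs at hx ⊢ with h
        · apply Nat.mod_lt
          by_contra hc
          have hc0 : c = 0 := by omega
          have := lt_of_lt_of_le (e ⟨x, h⟩).2 hT
          rw [hc0] at this
          simp at this
        · exact absurd hx.symm hv
      · intro x hx x' hx' hxx
        simp only [Finset.coe_filter, Finset.mem_univ, true_and, Set.mem_ofPred_eq] at hx hx' hxx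
        by_cases h : x ∈ T
        · by_cases h' : x' ∈ T
          · rw [dif_pos h] at hx hxx
            rw [dif_pos h'] at hx' hxx
            have h1 : (e ⟨x, h⟩).val / c = (e ⟨x', h'⟩).val / c := by omega
            have h2 := Nat.div_add_mod (e ⟨x, h⟩).val c
            have h3 := Nat.div_add_mod (e ⟨x', h'⟩).val c
            rw [h1, hxx] at h2
            have h4 : (e ⟨x, h⟩).val = (e ⟨x', h'⟩).val := h2.symm.trans h3
            have h5 := e.injective (Fin.ext h4)
            exact congrArg Subtype.val h5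
          · rw [dif_neg h'] at hx'
            exact absurd hx'.symm hv
        · rw [dif_neg h] at hx
          exact absurd hx.symm hv
    simpa using key

/-- the indices -/
abbrev II (β c ρ : ℕ) : Type := (Fin (β + 1) × Fin c) ⊕ Fin ρ

def L1 {β c ρ : ℕ} : II β c ρ → ℕ := Sum.elim (fun p => p.1.val) fun _ => 0

def L2 {β c ρ : ℕ} : II β c ρ → ℕ :=
  Sum.elim (fun p => if p.2.val + 1 = c ∧ 1 ≤ p.1.val ∧ p.1.val ≤ ρ then 0 else
    if p.1.val + p.2.val ≤ β then p.1.val + p.2.val else p.1.val + p.2.val - (β + 1))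
    fun e => c + e.val

def Lk {β c ρ : ℕ} (k : ℕ) : II β c ρ → ℕ :=
  Sum.elim (fun p => if p.1.val = k ∧ p.2.val < ρ then 0 else p.1.val) fun _ => k

def ff (c v : ℕ) : ℕ := if v ≤ c then v else if v = c + 1 then 0 else v - 1

/-- exceptional elements for group 2 -/
def X2 {β c ρ : ℕ} : II β c ρ → Prop :=
  Sum.elim (fun p => p.2.val + 1 = c ∧ 1 ≤ p.1.val ∧ p.1.val ≤ ρ) fun _ => False

def Xk {β c ρ : ℕ} (k : ℕ) : II β c ρ → Prop :=
  Sum.elim (fun p => p.1.val = k ∧ p.2.val < ρ) fun _ => False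

def X1 {β c ρ : ℕ} : II β c ρ → Prop := Sum.elim (fun _ => False) fun _ => True

theorem card_le {I : Type} [Fintype I] [DecidableEq I] (P : I → Prop) [DecidablePred P] (c : ℕ)
    (r : I → ℕ) (h1 : ∀ x, P x → r x < c) (h2 : ∀ x x', P x → P x' → r x = r x' → x = x') :
    (Finset.univ.filter P).card ≤ c := by
  have : (Finset.univ.filter P).card ≤ (Finset.range c).card := by
    refine Finset.card_le_card_of_injOn r ?_ ?_
    · intro x hx
      simp only [Finset.coe_filter, Finset.mem_univ, true_and, Set.mem_ofPred_eq] at hx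
      simpa using h1 x hx
    · intro x hx x' hx' h
      simp only [Finset.coe_filter, Finset.mem_univ, true_and, Set.mem_ofPred_eq] at hx hx'
      exact h2 x x' hx hx' h
  simpa using this

def r1 {β c ρ : ℕ} : II β c ρ → ℕ := Sum.elim (fun p => p.2.val) fun _ => 0

def r2 {β c ρ : ℕ} : II β c ρ → ℕ := Sum.elim (fun p => p.2.val) fun _ => c - 1

def rk {β c ρ : ℕ} : II β c ρ → ℕ := Sum.elim (fun p => p.2.val) fun e => e.val

theorem pair_ext {β c ρ : ℕ} {m m' : Fin (β + 1)} {o o' : Fin c} (h1 : m.val = m'.val)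
    (h2 : o.val = o'.val) : (Sum.inl (m, o) : II β c ρ) = Sum.inl (m', o') := by
  rw [Fin.ext h1, Fin.ext h2]

section cls

variable {β c ρ : ℕ}

open Classical in
theorem L1_cls (v : ℕ) (hv : v ≠ 0) :
    (Finset.univ.filter fun x : II β c ρ => L1 x = v).card ≤ c := by
  refine card_le _ c r1 ?_ ?_
  · rintro (⟨m, o⟩ | e) hx
    · exact o.2
    · simp only [L1, Sum.elim_inr] at hx
      omega
  · rintro (⟨m, o⟩ | e) (⟨m', o'⟩ | e') hx hx' h
    · simp only [L1, r1, Sum.elim_inl] at hx hx' h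
      exact pair_ext (by omega) h
    · simp only [L1, Sum.elim_inr] at hx'
      omega
    · simp only [L1, Sum.elim_inr] at hx
      omega
    · simp only [L1, Sum.elim_inr] at hx
      omega

open Classical in
theorem L1_zero : (Finset.univ.filter fun x : II β c ρ => L1 x = 0 ∧ ¬ X1 x).card ≤ c := by
  refine card_le _ c r1 ?_ ?_
  · rintro (⟨m, o⟩ | e) hx
    · exact o.2
    · simp only [X1, Sum.elim_inr, not_true_eq_false, and_false] at hx
  · rintro (⟨m, o⟩ | e) (⟨m', o'⟩ | e') hx hx' h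
    · simp only [L1, r1, Sum.elim_inl] at hx hx' h
      exact pair_ext (by omega) h
    · simp only [X1, Sum.elim_inr, not_true_eq_false, and_false] at hx'
    · simp only [X1, Sum.elim_inr, not_true_eq_false, and_false] at hx
    · simp only [X1, Sum.elim_inr, not_true_eq_false, and_false] at hx

open Classical in
theorem Lk_cls (hρ : ρ < c) (k : ℕ) (hk : 1 ≤ k) (v : ℕ) (hv : v ≠ 0) :
    (Finset.univ.filter fun x : II β c ρ => Lk k x = v).card ≤ c := by
  refine card_le _ c rk ?_ ?_
  · rintro (⟨m, o⟩ | e) hx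
    · exact o.2
    · simp only [rk, Sum.elim_inr]
      omega
  · rintro (⟨m, o⟩ | e) (⟨m', o'⟩ | e') hx hx' h
    · simp only [Lk, rk, Sum.elim_inl] at hx hx' h
      split_ifs at hx hx' with g1 g2 g2
      all_goals first
        | omega
        | exact pair_ext (by omega) h
    · simp only [Lk, rk, Sum.elim_inl, Sum.elim_inr] at hx hx' h
      have := e'.2
      split_ifs at hx with g1
      all_goals omega
    · simp only [Lk, rk, Sum.elim_inl, Sum.elim_inr] at hx hx' h
      have := e.2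
      split_ifs at hx' with g1
      all_goals omega
    · simp only [rk, Sum.elim_inr] at h
      rw [Fin.ext h]

open Classical in
theorem Lk_zero (k : ℕ) (hk : 1 ≤ k) :
    (Finset.univ.filter fun x : II β c ρ => Lk k x = 0 ∧ ¬ Xk k x).card ≤ c := by
  refine card_le _ c rk ?_ ?_
  · rintro (⟨m, o⟩ | e) hx
    · exact o.2
    · simp only [Lk, Sum.elim_inr] at hx
      omega
  · rintro (⟨m, o⟩ | e) (⟨m', o'⟩ | e') hx hx' h
    · simp only [Lk, Xk, rk, Sum.elim_inl] at hx hx' h
      have k1 := hx.2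
      have k2 := hx'.2
      have k3 := hx.1
      have k4 := hx'.1
      rw [if_neg k1] at k3
      rw [if_neg k2] at k4
      exact pair_ext (by omega) h
    · simp only [Lk, Sum.elim_inr] at hx'
      omega
    · simp only [Lk, Sum.elim_inr] at hx
      omega
    · simp only [Lk, Sum.elim_inr] at hx
      omega

open Classical in
theorem L2_cls (hρ : ρ < c) (hβ : 2 * c ≤ β) (v : ℕ) (hv : v ≠ 0) :
    (Finset.univ.filter fun x : II β c ρ => L2 x = v).card ≤ c := by
  refine card_le _ c r2 ?_ ?_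
  · rintro (⟨m, o⟩ | e) hx
    · exact o.2
    · simp only [r2, Sum.elim_inr]
      omega
  · rintro (⟨m, o⟩ | e) (⟨m', o'⟩ | e') hx hx' h
    · simp only [L2, r2, Sum.elim_inl] at hx hx' h
      have h1 := m.2
      have h2 := m'.2
      have h3 := o.2
      have h4 := o'.2
      refine pair_ext ?_ h
      split_ifs at hx hx' <;> omega
    · simp only [L2, r2, Sum.elim_inl, Sum.elim_inr] at hx hx' h
      have h1 := m.2
      have h3 := o.2
      have h4 := e'.2
      split_ifs at hx <;> omega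
    · simp only [L2, r2, Sum.elim_inl, Sum.elim_inr] at hx hx' h
      have h1 := m'.2
      have h3 := o'.2
      have h4 := e.2
      split_ifs at hx' <;> omega
    · simp only [L2, Sum.elim_inr] at hx hx'
      rw [Fin.ext (show e.val = e'.val by omega)]

open Classical in
theorem L2_zero (hρ : ρ < c) (hβ : 2 * c ≤ β) :
    (Finset.univ.filter fun x : II β c ρ => L2 x = 0 ∧ ¬ X2 x).card ≤ c := by
  refine card_le _ c r2 ?_ ?_
  · rintro (⟨m, o⟩ | e) hx
    · exact o.2
    · simp only [r2, Sum.elim_inr]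
      omega
  · rintro (⟨m, o⟩ | e) (⟨m', o'⟩ | e') hx hx' h
    · simp only [L2, X2, r2, Sum.elim_inl] at hx hx' h
      have h1 := m.2
      have h2 := m'.2
      have h3 := o.2
      have h4 := o'.2
      have k1 := hx.2
      have k2 := hx'.2
      have k3 := hx.1
      have k4 := hx'.1
      rw [if_neg k1] at k3
      rw [if_neg k2] at k4
      refine pair_ext ?_ h
      split_ifs at k3 k4 <;> omega
    · simp only [L2, Sum.elim_inr] at hx'
      omega
    · simp only [L2, Sum.elim_inr] at hx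
      omega
    · simp only [L2, Sum.elim_inr] at hx
      omega

theorem L2_le (hρ : ρ < c) (hβ : 2 * c ≤ β) (x : II β c ρ) : L2 x ≤ β := by
  rcases x with ⟨m, o⟩ | e
  · have h1 := m.2
    have h3 := o.2
    simp only [L2, Sum.elim_inl]
    split_ifs <;> omega
  · have := e.2
    simp only [L2, Sum.elim_inr]
    omega

theorem joint (hρ : ρ < c) (hβ : 2 * c ≤ β) (x x' : II β c ρ) (h1 : L1 x = L1 x')
    (h2 : L2 x = L2 x') : x = x' := by
  rcases x with ⟨m, o⟩ | e
  · rcases x' with ⟨m', o'⟩ | e'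
    · simp only [L1, L2, Sum.elim_inl] at h1 h2
      have k1 := m.2
      have k2 := m'.2
      have k3 := o.2
      have k4 := o'.2
      refine pair_ext h1 ?_
      split_ifs at h2 <;> omega
    · simp only [L1, L2, Sum.elim_inl, Sum.elim_inr] at h1 h2
      have k3 := o.2
      split_ifs at h2 <;> omega
  · rcases x' with ⟨m', o'⟩ | e'
    · simp only [L1, L2, Sum.elim_inl, Sum.elim_inr] at h1 h2
      have k3 := o'.2
      split_ifs at h2 <;> omega
    · simp only [L2, Sum.elim_inr] at h2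
      rw [Fin.ext (show e.val = e'.val by omega)]

theorem ff_eq {v v' : ℕ} (h : ff c v = ff c v') :
    v = v' ∨ (v = 0 ∧ v' = c + 1) ∨ (v = c + 1 ∧ v' = 0) := by
  unfold ff at h
  split_ifs at h <;> omega

theorem L2_special (hρ : ρ = 1) (hc : 2 ≤ c) (hβ : 2 * c ≤ β) (x : II β c ρ)
    (h : L2 x = c + 1) : ∃ (m : Fin (β + 1)) (o : Fin c), x = Sum.inl (m, o) ∧
      m.val + o.val = c + 1 := by
  rcases x with ⟨m, o⟩ | e
  · refine ⟨m, o, rfl, ?_⟩
    have k1 := m.2
    have k3 := o.2
    simp only [L2, Sum.elim_inl] at h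
    split_ifs at h <;> omega
  · simp only [L2, Sum.elim_inr] at h
    have := e.2
    omega

theorem joint2 (hρ : ρ = 1) (hc : 2 ≤ c) (hβ : 2 * c ≤ β) (x x' : II β c ρ) (h1 : L1 x = L1 x')
    (h2 : ff c (L2 x) = ff c (L2 x')) : x = x' := by
  have aux : ∀ x x' : II β c ρ, L1 x = L1 x' → L2 x = 0 → L2 x' = c + 1 → False := by
    intro x x' h1 h2 h3
    obtain ⟨m', o', rfl, hmo⟩ := L2_special hρ hc hβ x' h3
    rcases x with ⟨m, o⟩ | e
    · simp only [L1, L2, Sum.elim_inl] at h1 h2
      have k1 := m.2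
      have k3 := o.2
      have k4 := o'.2
      split_ifs at h2 <;> omega
    · simp only [L2, Sum.elim_inr] at h2
      omega
  rcases ff_eq h2 with h | ⟨h3, h4⟩ | ⟨h3, h4⟩
  · exact joint (by omega) hβ x x' h1 h
  · exact (aux x x' h1 h3 h4).elim
  · exact (aux x' x h1.symm h4 h3).elim

end cls

section asm

variable {β c ρ : ℕ}

def LL (t : ℕ) (x : II β c ρ) : ℕ := if t = 1 then ff c (L2 x) else L2 x

def XX (t : ℕ) (x : II β c ρ) : Prop := X2 x ∨ (t = 1 ∧ L2 x = c + 1)

open Classical in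
theorem LL_cls (t : ℕ) (hρ : ρ < c) (hβ : 2 * c ≤ β) (v : ℕ) (hv : v ≠ 0) :
    (Finset.univ.filter fun x : II β c ρ => LL t x = v).card ≤ c := by
  by_cases ht : t = 1
  · by_cases hvc : v ≤ c
    · refine (Finset.card_le_card ?_).trans (L2_cls hρ hβ v hv)
      intro x hx
      simp only [Finset.mem_filter, Finset.mem_univ, true_and, LL, if_pos ht, ff] at hx ⊢
      split_ifs at hx <;> omega
    · refine (Finset.card_le_card ?_).trans (L2_cls hρ hβ (v + 1) (Nat.succ_ne_zero v))
      intro x hx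
      simp only [Finset.mem_filter, Finset.mem_univ, true_and, LL, if_pos ht, ff] at hx ⊢
      split_ifs at hx <;> omega
  · refine (Finset.card_le_card ?_).trans (L2_cls hρ hβ v hv)
    intro x hx
    simp only [Finset.mem_filter, Finset.mem_univ, true_and, LL, if_neg ht] at hx ⊢
    exact hx

open Classical in
theorem LL_zero (t : ℕ) (hρ : ρ < c) (hβ : 2 * c ≤ β) :
    (Finset.univ.filter fun x : II β c ρ => LL t x = 0 ∧ ¬ XX t x).card ≤ c := by
  refine (Finset.card_le_card ?_).trans (L2_zero hρ hβ)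
  intro x hx
  simp only [Finset.mem_filter, Finset.mem_univ, true_and] at hx ⊢
  obtain ⟨h1, h2⟩ := hx
  unfold XX at h2
  push Not at h2
  refine ⟨?_, h2.1⟩
  unfold LL at h1
  by_cases ht : t = 1
  · rw [if_pos ht] at h1
    have := h2.2 ht
    unfold ff at h1
    split_ifs at h1 <;> omega
  · rw [if_neg ht] at h1
    exact h1

theorem LL_le (t : ℕ) (ht : t ≤ 1) (hρ : ρ < c) (hβ : 2 * c ≤ β) (x : II β c ρ) :
    LL t x ≤ β - t := by
  have h := L2_le hρ hβ x
  unfold LL
  split_ifs with h1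
  · unfold ff
    split_ifs <;> omega
  · omega

theorem LL_joint (t : ℕ) (ht : t = 1 → ρ = 1) (hρ1 : 1 ≤ ρ) (hρ : ρ < c) (hβ : 2 * c ≤ β)
    (x x' : II β c ρ) (h1 : L1 x = L1 x') (h2 : LL t x = LL t x') : x = x' := by
  unfold LL at h2
  by_cases h : t = 1
  · rw [if_pos h, if_pos h] at h2
    exact joint2 (ht h) (by omega) hβ x x' h1 h2
  · rw [if_neg h, if_neg h] at h2
    exact joint hρ hβ x x' h1 h2

def labs (t j : ℕ) (x : II β c ρ) : ℕ :=
  if j = 0 then L1 x else if j = 1 then LL t x else Lk (j - 1) x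

def XXs (t j : ℕ) (x : II β c ρ) : Prop :=
  if j = 0 then X1 x else if j = 1 then XX t x else Xk (j - 1) x

theorem L1_ne {t j D : ℕ} (hj : j ≠ 0) (hρ1 : 1 ≤ ρ) (hρ : ρ < c)
    (hβ : 2 * c ≤ β) (ht : t = 1 → ρ = 1) (x : II β c ρ) (h : XXs t j x) : L1 x ≠ 0 := by
  unfold XXs at h
  rw [if_neg hj] at h
  rcases x with ⟨m, o⟩ | e
  · have k1 := m.2
    have k3 := o.2
    simp only [L1, Sum.elim_inl]
    split_ifs at h with h1
    · rcases h with h | ⟨h3, h4⟩
      · simp only [X2, Sum.elim_inl] at h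
        omega
      · simp only [L2, Sum.elim_inl] at h4
        split_ifs at h4 <;> omega
    · simp only [Xk, Sum.elim_inl] at h
      omega
  · have k3 := e.2
    split_ifs at h with h1
    · rcases h with h | ⟨h3, h4⟩
      · simp only [X2, Sum.elim_inr] at h
      · simp only [L2, Sum.elim_inr] at h4
        have := ht h3
        omega
    · simp only [Xk, Sum.elim_inr] at h

theorem LL_ne {t j D : ℕ} (hj : j ≠ 1) (hjD : j < D) (hρ1 : 1 ≤ ρ) (hρ : ρ < c) (hcD : c ≤ D)
    (hβ : 2 * D ≤ β) (ht : t = 1 → ρ = 1 ∧ D = c) (x : II β c ρ) (h : XXs t j x) :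
    LL t x ≠ 0 := by
  unfold XXs at h
  rcases x with ⟨m, o⟩ | e
  · have k1 := m.2
    have k3 := o.2
    split_ifs at h with h1 h2
    · simp only [X1, Sum.elim_inl] at h
    · simp only [Xk, Sum.elim_inl] at h
      have h5 : L2 (Sum.inl (m, o) : II β c ρ) = m.val + o.val := by
        simp only [L2, Sum.elim_inl]
        rw [if_neg (by omega), if_pos (by omega)]
      unfold LL
      rw [h5]
      split_ifs with h6
      · obtain ⟨h7, h8⟩ := ht h6
        unfold ff
        split_ifs <;> omega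
      · omega
  · have k3 := e.2
    split_ifs at h with h1 h2
    · have h5 : L2 (Sum.inr e : II β c ρ) = c + e.val := by
        simp only [L2, Sum.elim_inr]
      unfold LL
      rw [h5]
      split_ifs with h6
      · obtain ⟨h7, h8⟩ := ht h6
        unfold ff
        split_ifs <;> omega
      · omega
    · simp only [Xk, Sum.elim_inr] at h

theorem Lk_ne {t j k D : ℕ} (hk : 1 ≤ k) (hkD : k + 1 < D) (hj : j ≠ k + 1) (hjD : j < D)
    (hρ1 : 1 ≤ ρ) (hρ : ρ < c)
    (hcD : c ≤ D) (hβ : 2 * D ≤ β) (ht : t = 1 → ρ = 1 ∧ D = c) (x : II β c ρ)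
    (h : XXs t j x) : Lk k x ≠ 0 := by
  unfold XXs at h
  rcases x with ⟨m, o⟩ | e
  · have k1 := m.2
    have k3 := o.2
    simp only [Lk, Sum.elim_inl]
    split_ifs at h with h1 h2
    · simp only [X1, Sum.elim_inl] at h
    · rcases h with h | ⟨h3, h4⟩
      · simp only [X2, Sum.elim_inl] at h
        rw [if_neg (by omega)]
        omega
      · obtain ⟨h7, h8⟩ := ht h3
        have h9 : m.val + o.val = c + 1 := by
          simp only [L2, Sum.elim_inl] at h4
          split_ifs at h4 <;> omega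
        rw [if_neg (by omega)]
        omega
    · simp only [Xk, Sum.elim_inl] at h
      rw [if_neg (by omega)]
      omega
  · simp only [Lk, Sum.elim_inr]
    omega

theorem labs_ne {t j j' D : ℕ} (hjj : j' ≠ j) (hjD : j < D) (hjD' : j' < D)
    (hρ1 : 1 ≤ ρ) (hρ : ρ < c)
    (hcD : c ≤ D) (hβ : 2 * D ≤ β) (ht : t = 1 → ρ = 1 ∧ D = c) (x : II β c ρ)
    (h : XXs t j x) : labs t j' x ≠ 0 := by
  unfold labs
  split_ifs with h1 h2
  · exact L1_ne (D := D) (by omega) hρ1 hρ (by omega) (fun h => (ht h).1) x h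
  · exact LL_ne (by omega) hjD hρ1 hρ hcD hβ ht x h
  · exact Lk_ne (k := j' - 1) (by omega) (by omega) (by omega) hjD hρ1 hρ hcD hβ ht x h

theorem labs_le {t j D : ℕ} (hjD : j < D) (ht1 : t ≤ 1) (hρ : ρ < c) (hcD : c ≤ D)
    (hβ : 2 * D ≤ β) (x : II β c ρ) : labs t j x ≤ if j = 1 then β - t else β := by
  unfold labs
  by_cases h0 : j = 0
  · rw [if_pos h0, if_neg (by omega)]
    rcases x with ⟨m, o⟩ | e
    · have := m.2
      simp only [L1, Sum.elim_inl]
      omega
    · simp only [L1, Sum.elim_inr]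
      omega
  · by_cases h1 : j = 1
    · rw [if_neg h0, if_pos h1, if_pos h1]
      exact LL_le t ht1 hρ (by omega) x
    · rw [if_neg h0, if_neg h1, if_neg h1]
      rcases x with ⟨m, o⟩ | e
      · have := m.2
        simp only [Lk, Sum.elim_inl]
        split_ifs <;> omega
      · simp only [Lk, Sum.elim_inr]
        omega

open Classical in
theorem labs_cls {t j : ℕ} (hρ : ρ < c) (hβ : 2 * c ≤ β) (v : ℕ) (hv : v ≠ 0) :
    (Finset.univ.filter fun x : II β c ρ => labs t j x = v).card ≤ c := by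
  unfold labs
  by_cases h0 : j = 0
  · simp only [if_pos h0]
    exact L1_cls v hv
  · by_cases h1 : j = 1
    · simp only [if_neg h0, if_pos h1]
      exact LL_cls t hρ hβ v hv
    · simp only [if_neg h0, if_neg h1]
      exact Lk_cls hρ (j - 1) (by omega) v hv

open Classical in
theorem labs_zero {t j : ℕ} (hρ : ρ < c) (hβ : 2 * c ≤ β) :
    (Finset.univ.filter fun x : II β c ρ => labs t j x = 0 ∧ ¬ XXs t j x).card ≤ c := by
  unfold labs XXs
  by_cases h0 : j = 0
  · simp only [if_pos h0]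
    exact L1_zero
  · by_cases h1 : j = 1
    · simp only [if_neg h0, if_pos h1]
      exact LL_zero t hρ hβ
    · simp only [if_neg h0, if_neg h1]
      exact Lk_zero (j - 1) (by omega)

open Classical in
theorem XXs_card {t j : ℕ} (ht1 : t ≤ 1) (hρ1 : 1 ≤ ρ) (hρ : ρ < c) (hβ : 2 * c ≤ β) :
    (Finset.univ.filter fun x : II β c ρ => XXs t j x).card ≤ ρ + if j = 1 then t * c else 0 := by
  unfold XXs
  by_cases h0 : j = 0
  · simp only [if_pos h0]
    refine (card_le _ ρ (Sum.elim (fun _ => 0) fun e => e.val) ?_ ?_).trans (Nat.le_add_right _ _)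
    · rintro (⟨m, o⟩ | e) hx
      · simp only [X1, Sum.elim_inl] at hx
      · exact e.2
    · rintro (⟨m, o⟩ | e) (⟨m', o'⟩ | e') hx hx' h
      · simp only [X1, Sum.elim_inl] at hx
      · simp only [X1, Sum.elim_inl] at hx
      · simp only [X1, Sum.elim_inl] at hx'
      · simp only [Sum.elim_inr] at h
        rw [Fin.ext h]
  · by_cases h1 : j = 1
    · simp only [if_neg h0, if_pos h1]
      have hA : (Finset.univ.filter fun x : II β c ρ => X2 x).card ≤ ρ := by
        refine card_le _ ρ (Sum.elim (fun p => p.1.val - 1) fun e => e.val) ?_ ?_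
        · rintro (⟨m, o⟩ | e) hx
          · simp only [X2, Sum.elim_inl] at hx ⊢
            omega
          · exact e.2
        · rintro (⟨m, o⟩ | e) (⟨m', o'⟩ | e') hx hx' h
          · simp only [X2, Sum.elim_inl] at hx hx' h
            exact pair_ext (by omega) (by omega)
          · simp only [X2, Sum.elim_inr] at hx'
          · simp only [X2, Sum.elim_inr] at hx
          · simp only [X2, Sum.elim_inr] at hx
      have hB : (Finset.univ.filter fun x : II β c ρ => t = 1 ∧ L2 x = c + 1).card ≤ t * c := by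
        by_cases ht : t = 1
        · simp only [ht, true_and, one_mul]
          exact L2_cls hρ hβ (c + 1) (Nat.succ_ne_zero c)
        · simp [ht]
      refine le_trans ?_ (Nat.add_le_add hA hB)
      refine le_trans (Finset.card_le_card ?_) (Finset.card_union_le _ _)
      intro x hx
      simp only [Finset.mem_filter, Finset.mem_univ, true_and, Finset.mem_union, XX] at hx ⊢
      exact hx
    · simp only [if_neg h0, if_neg h1]
      refine (card_le _ ρ (Sum.elim (fun p => p.2.val) fun e => e.val) ?_ ?_).trans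
        (Nat.le_add_right _ _)
      · rintro (⟨m, o⟩ | e) hx
        · simp only [Xk, Sum.elim_inl] at hx ⊢
          exact hx.2
        · exact e.2
      · rintro (⟨m, o⟩ | e) (⟨m', o'⟩ | e') hx hx' h
        · simp only [Xk, Sum.elim_inl] at hx hx' h
          exact pair_ext (by omega) h
        · simp only [Xk, Sum.elim_inr] at hx'
        · simp only [Xk, Sum.elim_inr] at hx
        · simp only [Xk, Sum.elim_inr] at hx

theorem sum_ite_one (D t : ℕ) (hD : 2 ≤ D) (x : ℕ) :
    (∑ j : Fin D, if j.val = 1 then x - t else x) + t = D * x + (t - (t ⊓ x)) := by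
  obtain ⟨D', rfl⟩ : ∃ D', D = D' + 2 := ⟨D - 2, by omega⟩
  rw [Fin.sum_univ_succ, Fin.sum_univ_succ]
  have h1 : ∀ i : Fin D', (if (i.succ.succ : Fin (D' + 2)).val = 1 then x - t else x) = x := by
    intro i
    rw [if_neg]
    simp
  rw [Finset.sum_congr rfl fun i _ => h1 i]
  have h2 : (if ((0 : Fin (D' + 2))).val = 1 then x - t else x) = x := if_neg (by simp)
  have h3 : (if ((0 : Fin (D' + 1)).succ : Fin (D' + 2)).val = 1 then x - t else x) = x - t :=
    if_pos (by simp)
  rw [h2, h3]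
  simp only [Finset.sum_const, Finset.card_univ, Fintype.card_fin, smul_eq_mul]
  have h4 : (D' + 2) * x = D' * x + x + x := by ring
  rw [h4]
  rcases le_total t x with h | h
  · rw [min_eq_left h]; omega
  · rw [min_eq_right h]; omega

theorem main (β c ρ D n b t ρ' : ℕ) (hb : b = β * c + ρ) (hn : n = D * β + ρ') (ht1 : t ≤ 1)
    (ht : t = 1 → ρ = 1 ∧ D = c) (hρ1 : 1 ≤ ρ) (hρ : ρ < c) (hcD : c ≤ D) (hβ : 2 * D ≤ β)
    (hρ' : 2 ≤ ρ' + t) (hDρ : D * ρ ≤ ρ' * c) :
    ∃ (sz : Fin (D + 1) → ℕ) (κ : ∀ g, Fin (b + c) → Fin (sz g + 1))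
      (E : Fin D → Finset (Fin (b + c))),
      ∑ g, sz g = n ∧ (∀ g, 2 ≤ sz g) ∧ (∀ g v, v ≠ 0 → cnt (κ g) v ≤ c) ∧
      (∀ j, ∀ i ∈ E j, κ 0 i ≠ 0 ∧ ∀ j', j' ≠ j → κ (Fin.succ j') i ≠ 0) ∧
      (∀ j, (Finset.univ.filter fun i => κ (Fin.succ j) i = 0 ∧ i ∉ E j).card ≤ c) ∧
      ∃ g₁ g₂, ∀ i i', κ g₁ i = κ g₁ i' → κ g₂ i = κ g₂ i' → i = i' := by
  classical
  have hD2 : 2 ≤ D := by omega
  have hβc : 2 * c ≤ β := by omega
  have hcard : Fintype.card (II β c ρ) = b + c := by
    simp only [Fintype.card_sum, Fintype.card_prod, Fintype.card_fin]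
    rw [hb]
    ring
  let E : Fin D → Finset (II β c ρ) := fun j => Finset.univ.filter fun x => XXs t j.val x
  have hE : ∀ j x, x ∈ E j ↔ XXs t j.val x := fun j x => by simp [E]
  let T : Finset (II β c ρ) := Finset.univ.biUnion E
  have hT : T.card ≤ (ρ' + t) * c := by
    refine Finset.card_biUnion_le.trans ?_
    refine (Finset.sum_le_sum fun j _ => XXs_card (j := j.val) ht1 hρ1 hρ hβc).trans ?_
    rw [Finset.sum_add_distrib]
    have h1 : (∑ j : Fin D, if j.val = 1 then t * c else 0) = t * c := by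
      rw [Finset.sum_eq_single (⟨1, by omega⟩ : Fin D)]
      · simp
      · intro j _ hj
        rw [if_neg]
        intro h
        exact hj (Fin.ext h)
      · simp
    rw [h1]
    simp only [Finset.sum_const, Finset.card_univ, Fintype.card_fin, smul_eq_mul]
    rw [add_mul]
    omega
  obtain ⟨f, hf1, hf2, hf3⟩ := exists_lab T c (ρ' + t) hT
  let sz : Fin (D + 1) → ℕ := Fin.cons (ρ' + t) fun j => if j.val = 1 then β - t else β
  let lab : Fin (D + 1) → II β c ρ → ℕ := Fin.cons f fun j => labs t j.val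
  obtain ⟨κ, E', h1, h2, h3, h4⟩ := transfer b c D hcard sz lab E
    (by
      intro g x
      refine Fin.cases ?_ (fun j => ?_) g
      · simpa [lab, sz] using hf1 x
      · simp only [lab, sz, Fin.cons_succ]
        exact labs_le j.2 ht1 hρ hcD hβ x)
    (by
      intro g
      refine Fin.cases ?_ (fun j => ?_) g
      · intro v hv
        simp only [lab, Fin.cons_zero]
        convert hf3 v hv
      · intro v hv
        simp only [lab, Fin.cons_succ]
        convert labs_cls hρ hβc v hv)
    (by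
      intro j x hx
      refine ⟨?_, fun j' hj' => ?_⟩
      · simp only [lab, Fin.cons_zero]
        exact hf2 x (Finset.mem_biUnion.2 ⟨j, Finset.mem_univ _, hx⟩)
      · simp only [lab, Fin.cons_succ]
        exact labs_ne (fun h => hj' (Fin.ext h)) j.2 j'.2 hρ1 hρ hcD hβ ht x ((hE j x).1 hx))
    (by
      intro j
      simp only [lab, Fin.cons_succ, hE]
      convert labs_zero hρ hβc)
    (by
      refine ⟨Fin.succ ⟨0, by omega⟩, Fin.succ ⟨1, by omega⟩, fun x x' k1 k2 => ?_⟩
      simp only [lab, Fin.cons_succ] at k1 k2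
      exact LL_joint t (fun h => (ht h).1) hρ1 hρ hβc x x' (by simpa [labs] using k1)
        (by simpa [labs] using k2))
  refine ⟨sz, κ, E', ?_, ?_, h1, h2, h3, h4⟩
  · rw [Fin.sum_univ_succ]
    simp only [sz, Fin.cons_zero, Fin.cons_succ]
    have h5 := sum_ite_one D t hD2 β
    rw [min_eq_left (by omega : t ≤ β)] at h5
    rw [hn]
    omega
  · intro g
    refine Fin.cases ?_ (fun j => ?_) g
    · simpa [sz] using hρ'
    · simp only [sz, Fin.cons_succ]
      split_ifs <;> omega

end asm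

end CBaux

theorem x_CB : S_CB := by
  intro n b c D hc1 hcb hbn h1 h2 h3 h4
  have hb := Nat.div_add_mod b c
  have hρ : b % c < c := Nat.mod_lt _ hc1
  have hceil : (b + c - 1) / c = b / c + if b % c = 0 then 0 else 1 := by
    split_ifs with h
    · rw [add_zero]
      apply le_antisymm
      · rw [← Nat.lt_succ_iff, Nat.div_lt_iff_lt_mul hc1]
        have : (b / c + 1) * c = c * (b / c) + c := by ring
        rw [Nat.succ_eq_add_one]
        omega
      · exact Nat.div_le_div_right (by omega)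
    · apply le_antisymm
      · rw [← Nat.lt_succ_iff, Nat.div_lt_iff_lt_mul hc1]
        have : (b / c + 1 + 1) * c = c * (b / c) + c + c := by ring
        rw [Nat.succ_eq_add_one]
        omega
      · rw [Nat.le_div_iff_mul_le hc1]
        have : (b / c + 1) * c = c * (b / c) + c := by ring
        omega
  have hD1 : 1 ≤ D := by
    by_contra h
    have : D = 0 := by omega
    subst this
    simp at h4
  have hcD : c ≤ D := by
    have h5 : n * c < n * (D + 1) := lt_of_lt_of_le h2 (Nat.mul_le_mul_right _ hbn)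
    have := lt_of_mul_lt_mul_left h5 (Nat.zero_le n)
    omega
  rw [hceil] at h4
  generalize b / c = β at *
  generalize b % c = ρ at *
  have hρ1 : 1 ≤ ρ := by
    by_contra h
    have h0 : ρ = 0 := by omega
    subst h0
    rw [if_pos rfl, add_zero] at h4
    have h5 : c * (D * β) ≤ c * n := by
      calc c * (D * β) = (c * β + 0) * D := by ring
        _ = b * D := by rw [hb]
        _ ≤ n * c := h1
        _ = c * n := Nat.mul_comm _ _
    have := Nat.le_of_mul_le_mul_left h5 hc1
    omega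
  rw [if_neg (by omega)] at h4
  have h5 : c * (D * β) + D * ρ ≤ c * n := by
    calc c * (D * β) + D * ρ = (c * β + ρ) * D := by ring
      _ = b * D := by rw [hb]
      _ ≤ n * c := h1
      _ = c * n := Nat.mul_comm _ _
  have h6 : D * β ≤ n := by
    refine Nat.le_of_mul_le_mul_left (le_trans (Nat.le_add_right _ _) h5) hc1
  obtain ⟨ρ', rfl⟩ : ∃ ρ', n = D * β + ρ' := ⟨n - D * β, by omega⟩
  have h7 : D * ρ ≤ ρ' * c := by
    have : c * (D * β + ρ') = c * (D * β) + ρ' * c := by ring
    omega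
  have hβ : 2 * D ≤ β := by
    by_contra h
    have h8 : β + 1 ≤ 2 * D := by omega
    have h9 : c * (β + 1) ≤ D * (2 * D) := Nat.mul_le_mul hcD h8
    have h10 : c * (β + 1) = c * β + c := by ring
    have h11 : D * (2 * D) = 2 * D * D := by ring
    omega
  have h8 : 1 ≤ ρ' := by
    by_contra h
    have h0 : ρ' = 0 := by omega
    rw [h0, zero_mul] at h7
    have : 1 * 1 ≤ D * ρ := Nat.mul_le_mul hD1 hρ1
    omega
  by_cases h9 : ρ' = 1
  · subst h9
    rw [one_mul] at h7
    have h10 : ρ = 1 := by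
      by_contra h
      have h11 : 2 ≤ ρ := by omega
      have h12 : D * 2 ≤ D * ρ := Nat.mul_le_mul_left _ h11
      omega
    subst h10
    exact CBaux.main β c 1 D _ b 1 1 (by rw [← hb]; ring) rfl le_rfl (fun _ => ⟨rfl, by omega⟩)
      le_rfl hρ hcD hβ le_rfl (by omega)
  · exact CBaux.main β c ρ D _ b 0 ρ' (by rw [← hb]; ring) rfl (Nat.zero_le 1)
      (fun h => absurd h (by norm_num)) hρ1 hρ hcD hβ (by omega) h7

end Pool.Agent.WarQ
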