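import Pool.Agent.WarQ.Stmts

set_option autoImplicit false

namespace Pool.Agent.WarQ

theorem x_CYC : S_CYC := by
  intro n b c D hD hb
  rcases Nat.eq_zero_or_pos n with rfl | hn
  · refine ⟨fun _ => ∅, fun _ => ?_, fun r => r.elim0⟩
    rw [Finset.card_empty]
    omega
  refine ⟨fun i => (Finset.range D).image
    (fun t => (⟨(i.val * D + t) % n, Nat.mod_lt _ hn⟩ : Fin n)), fun i => ?_, fun r => ?_⟩
  · rw [Finset.card_image_of_injOn, Finset.card_range]
    intro t ht t' ht' h
    have h1 : (i.val * D + t) % n = (i.val * D + t') % n := congrArg Fin.val h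
    have h2 : t ≡ t' [MOD n] := Nat.ModEq.add_left_cancel' (i.val * D) h1
    have ht1 : t < D := Finset.mem_range.1 ht
    have ht2 : t' < D := Finset.mem_range.1 ht'
    exact Nat.ModEq.eq_of_lt_of_lt h2 (by omega) (by omega)
  · have key : ∀ i : Fin b, ∃ x : ℕ, r ∈ (Finset.range D).image
        (fun t => (⟨(i.val * D + t) % n, Nat.mod_lt _ hn⟩ : Fin n)) →
        i.val * D ≤ x ∧ x < i.val * D + D ∧ x % n = r.val := by
      intro i
      by_cases h : r ∈ (Finset.range D).image
        (fun t => (⟨(i.val * D + t) % n, Nat.mod_lt _ hn⟩ : Fin n))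
      · obtain ⟨t, ht, hr⟩ := Finset.mem_image.1 h
        have ht1 : t < D := Finset.mem_range.1 ht
        exact ⟨i.val * D + t, fun _ => ⟨by omega, by omega, congrArg Fin.val hr⟩⟩
      · exact ⟨0, fun h' => absurd h' h⟩
    choose x hx using key
    have hc : c = (Finset.range c).card := (Finset.card_range c).symm
    rw [hc]
    refine Finset.card_le_card_of_injOn (fun i => x i / n) ?_ ?_
    · intro i hi
      obtain ⟨-, h2, -⟩ := hx i (Finset.mem_filter.1 hi).2
      have h3 : i.val * D + D ≤ b * D := by
        have := Nat.mul_le_mul_right D i.isLt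
        calc i.val * D + D = (i.val + 1) * D := by ring
          _ ≤ b * D := this
      exact Finset.mem_coe.2 (Finset.mem_range.2 (Nat.div_lt_of_lt_mul (by omega)))
    · intro i hi j hj hij
      obtain ⟨h1, h2, h3⟩ := hx i (Finset.mem_filter.1 hi).2
      obtain ⟨g1, g2, g3⟩ := hx j (Finset.mem_filter.1 hj).2
      have hxe : x i = x j := by
        rw [← Nat.div_add_mod (x i) n, ← Nat.div_add_mod (x j) n, h3, g3]
        have h5 : x i / n = x j / n := hij
        rw [h5]
      have hDp : 0 < D := by omega
      have e1 : x i / D = i.val := by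
        refine Nat.div_eq_of_lt_le ?_ ?_
        · linarith
        · linarith [h2]
      have e2 : x j / D = j.val := by
        refine Nat.div_eq_of_lt_le ?_ ?_
        · linarith
        · linarith [g2]
      refine Fin.ext ?_
      rw [← e1, ← e2, hxe]

end Pool.Agent.WarQ
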