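import Pool.Agent.WarQ.Stmts

/-!
# Simultaneous Waring decompositions (MP_db021c_ag), small q: easy facts on the cubics `uu`
-/

set_option autoImplicit false

open Module MvPolynomial
open Pool.Agent.War Pool.Agent.WarS

namespace Pool.Agent.WarQ

namespace D0aux

lemma bar_zero (n : ℕ) : bar n 0 = 1 - ∑ i, X i := by
  simp [bar]

lemma bar_succ (n : ℕ) (i : Fin n) : bar n i.succ = X i := by
  simp [bar]

lemma deg_bar (n : ℕ) (l : Fin (n + 1)) : (bar n l).totalDegree ≤ 1 := by
  refine Fin.cases ?_ (fun i => ?_) l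
  · rw [bar_zero]
    refine (totalDegree_sub _ _).trans (max_le (by simp) ?_)
    refine (totalDegree_finsetSum _ _).trans ?_
    exact Finset.sup_le fun i _ => by rw [totalDegree_X]
  · rw [bar_succ, totalDegree_X]

lemma deg_uu (n : ℕ) (l : Fin (n + 1)) : (uu n l).totalDegree ≤ 3 := by
  unfold uu
  refine (totalDegree_mul _ _).trans ?_
  have h1 := deg_bar n l
  have h2 : (∑ j : Fin (n + 1), C ((l.val : ℂ) - (j.val : ℂ)) * bar n j ^ 2).totalDegree ≤ 2 := by
    refine (totalDegree_finsetSum _ _).trans (Finset.sup_le fun j _ => ?_)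
    refine (totalDegree_mul _ _).trans ?_
    rw [totalDegree_C]
    have h3 := totalDegree_pow (bar n j) 2
    have h4 := deg_bar n j
    omega
  omega

lemma eval_bar_zero (n : ℕ) (y : Fin n → ℂ) : eval y (bar n 0) = 1 - ∑ i, y i := by
  rw [bar_zero]
  simp

lemma eval_bar_succ (n : ℕ) (y : Fin n → ℂ) (i : Fin n) : eval y (bar n i.succ) = y i := by
  rw [bar_succ]
  simp

lemma eval_bar_ww (n : ℕ) (l m : Fin (n + 1)) :
    eval (ww n m) (bar n l) = if l = m then 1 else 0 := by
  refine Fin.cases ?_ (fun i => ?_) l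
  · rw [eval_bar_zero]
    refine Fin.cases ?_ (fun j => ?_) m
    · simp [ww, Fin.succ_ne_zero]
    · have h : (0 : Fin (n + 1)) ≠ j.succ := (Fin.succ_ne_zero j).symm
      simp [ww, h]
  · rw [eval_bar_succ]
    rfl

/-- derivatives of the barycentric coordinates -/
lemma pderiv_bar_zero (n : ℕ) (k : Fin n) : pderiv k (bar n 0) = -1 := by
  rw [bar_zero, map_sub, map_sum]
  have h : ∀ i : Fin n, pderiv k (X i : MvPolynomial (Fin n) ℂ) = if i = k then 1 else 0 := by
    intro i
    by_cases hi : i = k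
    · subst hi; simp
    · simp [pderiv_X_of_ne hi, hi]
  simp only [h, Finset.sum_ite_eq', Finset.mem_univ, if_true]
  simp

lemma pderiv_bar_succ (n : ℕ) (k i : Fin n) :
    pderiv k (bar n i.succ) = if i = k then 1 else 0 := by
  rw [bar_succ]
  by_cases hi : i = k
  · subst hi; simp
  · simp [pderiv_X_of_ne hi, hi]

lemma eval_sum_ww (n : ℕ) (l m : Fin (n + 1)) :
    eval (ww n m) (∑ j : Fin (n + 1), C ((l.val : ℂ) - (j.val : ℂ)) * bar n j ^ 2) =
      (l.val : ℂ) - (m.val : ℂ) := by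
  rw [map_sum]
  simp only [map_mul, map_pow, eval_C, eval_bar_ww]
  simp

lemma eval_uu_ww (n : ℕ) (l m : Fin (n + 1)) : eval (ww n m) (uu n l) = 0 := by
  unfold uu
  rw [map_mul, eval_sum_ww, eval_bar_ww]
  split_ifs with h
  · rw [h]; ring
  · ring

lemma eval_grad (n : ℕ) (l m : Fin (n + 1)) (k : Fin n) :
    eval (ww n m) (pderiv k (uu n l)) =
      ((l.val : ℂ) - (m.val : ℂ)) * eval (ww n m) (pderiv k (bar n l)) := by
  unfold uu
  rw [Derivation.leibniz, smul_eq_mul, smul_eq_mul, map_add, map_mul, map_mul, eval_sum_ww,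
    eval_bar_ww]
  have h : eval (ww n m) (pderiv k (∑ j : Fin (n + 1),
      C ((l.val : ℂ) - (j.val : ℂ)) * bar n j ^ 2)) =
      ((l.val : ℂ) - (m.val : ℂ)) * (2 * eval (ww n m) (pderiv k (bar n m))) := by
    rw [map_sum, map_sum]
    have h1 : ∀ j : Fin (n + 1), eval (ww n m) (pderiv k (C ((l.val : ℂ) - (j.val : ℂ)) *
        bar n j ^ 2)) = if j = m then
          ((l.val : ℂ) - (m.val : ℂ)) * (2 * eval (ww n m) (pderiv k (bar n m))) else 0 := by
      intro j
      rw [Derivation.leibniz, pderiv_C, smul_zero, add_zero, smul_eq_mul, Derivation.leibniz_pow,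
        map_mul, eval_C]
      simp only [Nat.add_one_sub_one, pow_one, smul_eq_mul, map_mul, nsmul_eq_mul,
        eval_bar_ww]
      split_ifs with hj
      · subst hj
        push_cast
        rw [map_ofNat]
        ring
      · simp
    simp only [h1, Finset.sum_ite_eq', Finset.mem_univ, if_true]
  rw [h]
  split_ifs with hl
  · rw [hl]; ring
  · ring

lemma indep (n : ℕ) (m : Fin (n + 1)) (γ : Fin (n + 1) → ℂ)
    (h : ∀ k : Fin n, ∑ l, γ l * eval (ww n m) (pderiv k (uu n l)) = 0) (l : Fin (n + 1))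
    (hl : l ≠ m) : γ l = 0 := by
  set δ : Fin (n + 1) → ℂ := fun l => γ l * ((l.val : ℂ) - (m.val : ℂ)) with hδ
  have h1 : ∀ k : Fin n, δ k.succ = δ 0 := by
    intro k
    have h2 := h k
    rw [Fin.sum_univ_succ] at h2
    simp only [eval_grad, pderiv_bar_zero, pderiv_bar_succ] at h2
    have h3 : ∀ i : Fin n, γ i.succ * (((i.succ.val : ℂ) - (m.val : ℂ)) *
        eval (ww n m) (if i = k then 1 else 0 : MvPolynomial (Fin n) ℂ)) =
        if i = k then δ k.succ else 0 := by
      intro i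
      split_ifs with hi
      · subst hi
        simp [hδ]
      · simp
    simp only [h3, Finset.sum_ite_eq', Finset.mem_univ, if_true, map_neg, map_one] at h2
    have h4 : γ 0 * ((((0 : Fin (n + 1)).val : ℂ) - (m.val : ℂ)) * -1) = -δ 0 := by
      simp only [hδ]
      ring
    rw [h4] at h2
    linear_combination h2
  have h2 : ∀ l, δ l = δ 0 := fun l => Fin.cases rfl h1 l
  have h3 : δ m = 0 := by simp [hδ]
  have h4 : δ l = 0 := by rw [h2 l, ← h2 m, h3]
  have h5 : (l.val : ℂ) - (m.val : ℂ) ≠ 0 := by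
    rw [sub_ne_zero]
    intro h6
    exact hl (Fin.ext (by exact_mod_cast h6))
  simp only [hδ] at h4
  exact (mul_eq_zero.1 h4).resolve_right h5

lemma nonzero (n : ℕ) (hn : 1 ≤ n) : ∃ y : Fin n → ℂ, eval y (uu n 0) ≠ 0 := by
  obtain ⟨n, rfl⟩ := Nat.exists_eq_add_of_le' hn
  refine ⟨fun i => if i = 0 then 1 / 2 else 0, ?_⟩
  unfold uu
  rw [map_mul, eval_bar_zero, map_sum, Fin.sum_univ_succ, Fin.sum_univ_succ]
  simp only [map_mul, map_pow, eval_C, eval_bar_zero, eval_bar_succ]
  have h : ∀ j : Fin n, (if j.succ = 0 then (1 / 2 : ℂ) else 0) = 0 := by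
    intro j
    rw [if_neg (Fin.succ_ne_zero j)]
  simp only [h, Finset.sum_ite_eq', Finset.mem_univ, if_true]
  norm_num

end D0aux

open D0aux in
theorem x_D0 : S_D0 := by
  intro n
  exact ⟨deg_uu n, deg_bar n, eval_bar_ww n, fun m l => eval_uu_ww n l m,
    fun m γ h l hl => indep n m γ h l hl, nonzero n⟩

end Pool.Agent.WarQ
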