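import Pool.Agent.WarQ.Stmts

/-!
# Simultaneous Waring decompositions (MP_db021c_ag): cubics through the base points   (helper63)

Statement `S_D1`: no quadric contains `BL n`, and the cubics through `BL n` are the combinations of
the `uu n l`.
-/

set_option autoImplicit false

open Module MvPolynomial
open Pool.Agent.War Pool.Agent.WarS

namespace Pool.Agent.WarQ

namespace D1aux

variable {n : ℕ}

theorem sum_bar (n : ℕ) : ∑ a, bar n a = 1 := by
  rw [Fin.sum_univ_succ]
  simp [bar]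

/-- the span of the barycentric coordinates -/
noncomputable def Lsp (n : ℕ) : Submodule ℂ (MvPolynomial (Fin n) ℂ) :=
  Submodule.span ℂ (Set.range (bar n))

theorem one_mem_L : (1 : MvPolynomial (Fin n) ℂ) ∈ Lsp n := by
  rw [← sum_bar n]
  exact Submodule.sum_mem _ fun a _ => Submodule.subset_span ⟨a, rfl⟩

theorem X_mem_L (i : Fin n) : (X i : MvPolynomial (Fin n) ℂ) ∈ Lsp n :=
  Submodule.subset_span ⟨i.succ, by simp [bar]⟩

theorem monomial_mem (m : Fin n →₀ ℕ) : (monomial m (1 : ℂ)) ∈ Lsp n ^ m.degree := by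
  induction m using Finsupp.induction_linear with
  | zero => simpa using ⟨(1 : ℂ), by simp⟩
  | add f g hf hg =>
    have h := Submodule.mul_mem_mul hf hg
    rw [← pow_add, monomial_mul, one_mul] at h
    rwa [map_add]
  | single i k =>
    rw [Finsupp.degree_single]
    have h := Submodule.pow_mem_pow (Lsp n) (X_mem_L i) k
    rwa [X_pow_eq_monomial] at h

theorem mem_pow {f : MvPolynomial (Fin n) ℂ} {d : ℕ} (hf : f.totalDegree ≤ d) :
    f ∈ Lsp n ^ d := by
  rw [f.as_sum]
  refine Submodule.sum_mem _ fun m hm => ?_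
  have h1 : monomial m (coeff m f) = (coeff m f) • monomial m (1 : ℂ) := by
    rw [smul_monomial, smul_eq_mul, mul_one]
  rw [h1]
  refine Submodule.smul_mem _ _ ?_
  have h2 : m.degree ≤ d := (le_totalDegree hm).trans hf
  exact pow_le_pow_right' (Submodule.one_le.2 one_mem_L) h2 (monomial_mem m)

theorem swap12 {ι R : Type*} [Fintype ι] [CommRing R] (g : ι → ι → ι → R) (y : ι → R) :
    ∑ a, ∑ b, ∑ c, g b a c * (y a * y b * y c) = ∑ a, ∑ b, ∑ c, g a b c * (y a * y b * y c) := by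
  rw [Finset.sum_comm]
  refine Finset.sum_congr rfl fun a _ => Finset.sum_congr rfl fun b _ =>
    Finset.sum_congr rfl fun c _ => ?_
  ring

theorem swap23 {ι R : Type*} [Fintype ι] [CommRing R] (g : ι → ι → ι → R) (y : ι → R) :
    ∑ a, ∑ b, ∑ c, g a c b * (y a * y b * y c) = ∑ a, ∑ b, ∑ c, g a b c * (y a * y b * y c) := by
  refine Finset.sum_congr rfl fun a _ => ?_
  rw [Finset.sum_comm]
  refine Finset.sum_congr rfl fun b _ => Finset.sum_congr rfl fun c _ => ?_
  ring

/-- symmetrisation -/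
noncomputable def sym3 {ι : Type*} (A : ι → ι → ι → ℂ) (a b c : ι) : ℂ :=
  (A a b c + A a c b + A b a c + A b c a + A c a b + A c b a) / 6

theorem sym3_12 {ι : Type*} (A : ι → ι → ι → ℂ) (a b c : ι) : sym3 A b a c = sym3 A a b c := by
  unfold sym3
  ring

theorem sym3_23 {ι : Type*} (A : ι → ι → ι → ℂ) (a b c : ι) : sym3 A a c b = sym3 A a b c := by
  unfold sym3
  ring

theorem sum_sym3 {ι σ : Type*} [Fintype ι] (A : ι → ι → ι → ℂ) (y : ι → MvPolynomial σ ℂ) :
    ∑ a, ∑ b, ∑ c, C (sym3 A a b c) * (y a * y b * y c) =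
    ∑ a, ∑ b, ∑ c, C (A a b c) * (y a * y b * y c) := by
  set S := ∑ a, ∑ b, ∑ c, C (A a b c) * (y a * y b * y c) with hS
  have e1 : ∑ a, ∑ b, ∑ c, C (A a c b) * (y a * y b * y c) = S :=
    swap23 (fun a b c => C (A a b c)) y
  have e2 : ∑ a, ∑ b, ∑ c, C (A b a c) * (y a * y b * y c) = S :=
    swap12 (fun a b c => C (A a b c)) y
  have e3 : ∑ a, ∑ b, ∑ c, C (A b c a) * (y a * y b * y c) = S :=
    (swap12 (fun a b c => C (A a c b)) y).trans e1
  have e4 : ∑ a, ∑ b, ∑ c, C (A c a b) * (y a * y b * y c) = S :=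
    (swap23 (fun a b c => C (A b a c)) y).trans e2
  have e5 : ∑ a, ∑ b, ∑ c, C (A c b a) * (y a * y b * y c) = S :=
    (swap12 (fun a b c => C (A c a b)) y).trans e4
  have h6 : (C (1 / 6 : ℂ) : MvPolynomial σ ℂ) * 6 = 1 := by
    have h : (6 : MvPolynomial σ ℂ) = C (6 : ℂ) := (map_ofNat C 6).symm
    rw [h, ← C_mul]
    norm_num
  have hb : ∀ a b c, C (sym3 A a b c) * (y a * y b * y c) = C (1 / 6 : ℂ) *
      (C (A a b c) * (y a * y b * y c) + C (A a c b) * (y a * y b * y c) +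
        C (A b a c) * (y a * y b * y c) + C (A b c a) * (y a * y b * y c) +
        C (A c a b) * (y a * y b * y c) + C (A c b a) * (y a * y b * y c)) := by
    intro a b c
    have : sym3 A a b c = 1 / 6 * (A a b c + A a c b + A b a c + A b c a + A c a b + A c b a) := by
      unfold sym3
      ring
    rw [this]
    simp only [C_mul, C_add]
    ring
  simp only [hb, ← Finset.mul_sum, Finset.sum_add_distrib, e1, e2, e3, e4, e5]
  rw [← hS]
  linear_combination S * h6

/-- tensors of order three -/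
theorem exists_B3 {f : MvPolynomial (Fin n) ℂ} (hf : f.totalDegree ≤ 3) :
    ∃ B : Fin (n + 1) → Fin (n + 1) → Fin (n + 1) → ℂ, (∀ a b c, B b a c = B a b c) ∧
      (∀ a b c, B a c b = B a b c) ∧
      f = ∑ a, ∑ b, ∑ c, C (B a b c) * (bar n a * bar n b * bar n c) := by
  have h := mem_pow hf
  rw [pow_three', Lsp, Submodule.span_mul_span, Submodule.span_mul_span] at h
  have h2 : f ∈ Submodule.span ℂ (Set.range fun t : Fin (n + 1) × Fin (n + 1) × Fin (n + 1) =>
      bar n t.1 * bar n t.2.1 * bar n t.2.2) := by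
    refine Submodule.span_mono ?_ h
    rintro _ ⟨_, ⟨_, ⟨a, rfl⟩, _, ⟨b, rfl⟩, rfl⟩, _, ⟨c, rfl⟩, rfl⟩
    exact ⟨(a, b, c), rfl⟩
  rw [Submodule.mem_span_range_iff_exists_fun] at h2
  obtain ⟨A, hA⟩ := h2
  refine ⟨sym3 fun a b c => A (a, b, c), sym3_12 _, sym3_23 _, ?_⟩
  rw [sum_sym3, ← hA]
  simp only [Fintype.sum_prod_type, smul_eq_C_mul]

/-- tensors of order two -/
theorem exists_B2 {f : MvPolynomial (Fin n) ℂ} (hf : f.totalDegree ≤ 2) :
    ∃ B : Fin (n + 1) → Fin (n + 1) → ℂ, (∀ a b, B b a = B a b) ∧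
      f = ∑ a, ∑ b, C (B a b) * (bar n a * bar n b) := by
  have h := mem_pow hf
  rw [pow_two, Lsp, Submodule.span_mul_span] at h
  have h2 : f ∈ Submodule.span ℂ (Set.range fun t : Fin (n + 1) × Fin (n + 1) =>
      bar n t.1 * bar n t.2) := by
    refine Submodule.span_mono ?_ h
    rintro _ ⟨_, ⟨a, rfl⟩, _, ⟨b, rfl⟩, rfl⟩
    exact ⟨(a, b), rfl⟩
  rw [Submodule.mem_span_range_iff_exists_fun] at h2
  obtain ⟨A, hA⟩ := h2
  refine ⟨fun a b => (A (a, b) + A (b, a)) / 2, fun a b => by ring, ?_⟩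
  have h6 : (C (1 / 2 : ℂ) : MvPolynomial (Fin n) ℂ) * 2 = 1 := by
    have h : (2 : MvPolynomial (Fin n) ℂ) = C (2 : ℂ) := (map_ofNat C 2).symm
    rw [h, ← C_mul]
    norm_num
  have e0 : ∑ a, ∑ b, C (A (a, b)) * (bar n a * bar n b) = f := by
    rw [← hA]
    simp only [Fintype.sum_prod_type, smul_eq_C_mul]
  have e1 : ∑ a, ∑ b, C (A (b, a)) * (bar n a * bar n b) = f := by
    rw [← e0, Finset.sum_comm]
    refine Finset.sum_congr rfl fun a _ => Finset.sum_congr rfl fun b _ => ?_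
    ring
  have hb : ∀ a b, C ((A (a, b) + A (b, a)) / 2) * (bar n a * bar n b) = C (1 / 2 : ℂ) *
      (C (A (a, b)) * (bar n a * bar n b) + C (A (b, a)) * (bar n a * bar n b)) := by
    intro a b
    have : (A (a, b) + A (b, a)) / 2 = 1 / 2 * (A (a, b) + A (b, a)) := by ring
    rw [this]
    simp only [C_mul, C_add]
    ring
  simp only [hb, ← Finset.mul_sum, Finset.sum_add_distrib, e0, e1]
  linear_combination -f * h6

/-! ### points -/

theorem eval_bar (x : Fin (n + 1) → ℂ) {s : ℂ} (hs : s ≠ 0) (hx : ∑ a, x a = s)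
    (a : Fin (n + 1)) : eval (fun i : Fin n => x i.succ / s) (bar n a) = x a / s := by
  refine Fin.cases ?_ (fun i => by simp [bar]) a
  rw [Fin.sum_univ_succ] at hx
  simp only [bar, Fin.cons_zero, map_sub, map_one, map_sum, eval_X, ← Finset.sum_div]
  field_simp
  linear_combination -hx

/-- the vectors which give points of `BL` -/
def Good (x : Fin (n + 1) → ℂ) : Prop :=
  ∑ a, x a ≠ 0 ∧ ∀ l : Fin (n + 1), x l * ∑ j : Fin (n + 1), ((l.val : ℂ) - j.val) * x j ^ 2 = 0

theorem Good.mem {x : Fin (n + 1) → ℂ} (h : Good x) :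
    (fun i : Fin n => x i.succ / ∑ a, x a) ∈ BL n := by
  intro l
  have h1 : ∀ j : Fin (n + 1), ((l.val : ℂ) - j.val) * (x j / ∑ a, x a) ^ 2 =
      (((l.val : ℂ) - j.val) * x j ^ 2) * (1 / (∑ a, x a) ^ 2) := fun j => by
    rw [div_pow]
    ring
  simp only [uu, map_mul, map_sum, map_pow, eval_C, eval_bar x h.1 rfl, h1, ← Finset.sum_mul]
  have h2 := h.2 l
  have : x l / (∑ a, x a) * ((∑ j : Fin (n + 1), ((l.val : ℂ) - j.val) * x j ^ 2) *
      (1 / (∑ a, x a) ^ 2)) = (x l * ∑ j : Fin (n + 1), ((l.val : ℂ) - j.val) * x j ^ 2) *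
      (1 / (∑ a, x a) * (1 / (∑ a, x a) ^ 2)) := by ring
  rw [this, h2, zero_mul]

theorem Good.tensor3 {x : Fin (n + 1) → ℂ} (h : Good x) {f : MvPolynomial (Fin n) ℂ}
    (hf : ∀ x ∈ BL n, eval x f = 0) {B : Fin (n + 1) → Fin (n + 1) → Fin (n + 1) → ℂ}
    (hB : f = ∑ a, ∑ b, ∑ c, C (B a b c) * (bar n a * bar n b * bar n c)) :
    ∑ a, x a * ∑ b, x b * ∑ c, x c * B a b c = 0 := by
  have h1 := hf _ h.mem
  rw [hB] at h1
  simp only [map_sum, map_mul, eval_C, eval_bar x h.1 rfl] at h1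
  have h2 : ∑ a, x a * ∑ b, x b * ∑ c, x c * B a b c = (∑ a, x a) ^ 3 *
      ∑ a, ∑ b, ∑ c, B a b c * (x a / (∑ i, x i) * (x b / (∑ i, x i)) * (x c / (∑ i, x i))) := by
    simp only [Finset.mul_sum]
    refine Finset.sum_congr rfl fun a _ => Finset.sum_congr rfl fun b _ =>
      Finset.sum_congr rfl fun c _ => ?_
    have := h.1
    field_simp
  rw [h2, h1, mul_zero]

theorem Good.tensor2 {x : Fin (n + 1) → ℂ} (h : Good x) {f : MvPolynomial (Fin n) ℂ}
    (hf : ∀ x ∈ BL n, eval x f = 0) {B : Fin (n + 1) → Fin (n + 1) → ℂ}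
    (hB : f = ∑ a, ∑ b, C (B a b) * (bar n a * bar n b)) :
    ∑ a, x a * ∑ b, x b * B a b = 0 := by
  have h1 := hf _ h.mem
  rw [hB] at h1
  simp only [map_sum, map_mul, eval_C, eval_bar x h.1 rfl] at h1
  have h2 : ∑ a, x a * ∑ b, x b * B a b = (∑ a, x a) ^ 2 *
      ∑ a, ∑ b, B a b * (x a / (∑ i, x i) * (x b / (∑ i, x i))) := by
    simp only [Finset.mul_sum]
    refine Finset.sum_congr rfl fun a _ => Finset.sum_congr rfl fun b _ => ?_
    have := h.1
    field_simp
  rw [h2, h1, mul_zero]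

/-- vertices -/
theorem good_single (a : Fin (n + 1)) : Good (Pi.single a (1 : ℂ)) := by
  refine ⟨by simp, fun l => ?_⟩
  by_cases h : l = a
  · subst h
    rw [Finset.sum_eq_zero, mul_zero]
    intro j _
    by_cases h2 : j = l
    · subst h2
      simp
    · simp [h2]
  · simp [h]

/-- vectors with three nonzero coordinates -/
def pt3 (i j k : Fin (n + 1)) (p q r : ℂ) : Fin (n + 1) → ℂ :=
  Pi.single i p + Pi.single j q + Pi.single k r

theorem sum_pt3 (i j k : Fin (n + 1)) (p q r : ℂ) (G : Fin (n + 1) → ℂ) :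
    ∑ a, pt3 i j k p q r a * G a = p * G i + q * G j + r * G k := by
  simp [pt3, add_mul, Finset.sum_add_distrib, Pi.single_apply]

theorem pt3_1 {i j k : Fin (n + 1)} (hij : i ≠ j) (hik : i ≠ k) (p q r : ℂ) :
    pt3 i j k p q r i = p := by simp [pt3, hij, hik]

theorem pt3_2 {i j k : Fin (n + 1)} (hij : i ≠ j) (hjk : j ≠ k) (p q r : ℂ) :
    pt3 i j k p q r j = q := by simp [pt3, hij.symm, hjk]

theorem pt3_3 {i j k : Fin (n + 1)} (hik : i ≠ k) (hjk : j ≠ k) (p q r : ℂ) :
    pt3 i j k p q r k = r := by simp [pt3, hik.symm, hjk.symm]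

/-- the three numbers -/
def Tri (i j k : ℕ) (p q r : ℂ) : Prop :=
  p ^ 2 = (j : ℂ) - k ∧ q ^ 2 = (k : ℂ) - i ∧ r ^ 2 = (i : ℂ) - j

theorem Tri.sum_ne {i j k : ℕ} {p q r : ℂ} (h : Tri i j k p q r) (hij : i ≠ j) :
    p + q + r ≠ 0 := by
  obtain ⟨h1, h2, h3⟩ := h
  intro h0
  have h4 : p * q = r ^ 2 := by
    have hr : r = -(p + q) := by linear_combination h0
    have h5 : p ^ 2 + q ^ 2 + r ^ 2 = 0 := by rw [h1, h2, h3]; ring
    have h6 : 2 * (p * q) = 2 * r ^ 2 := by
      linear_combination (-1 : ℂ) * h5 + (p + q - r) * h0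
    linear_combination h6 / 2
  have h7 : p ^ 2 * q ^ 2 = (r ^ 2) ^ 2 := by rw [← h4]; ring
  rw [h1, h2, h3] at h7
  have h8 : (((j : ℤ) - k) * ((k : ℤ) - i) : ℤ) = ((i : ℤ) - j) ^ 2 := by
    exact_mod_cast h7
  have h9 : (i : ℤ) ≠ j := by exact_mod_cast hij
  have h10 : 0 < ((i : ℤ) - j) ^ 2 := by
    have : (i : ℤ) - j ≠ 0 := sub_ne_zero.2 h9
    positivity
  nlinarith [sq_nonneg ((j : ℤ) - k - (k - i)), sq_nonneg ((j : ℤ) - k + (k - i))]

theorem exists_tri (i j k : ℕ) : ∃ p q r : ℂ, Tri i j k p q r := by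
  obtain ⟨p, hp⟩ := IsAlgClosed.exists_pow_nat_eq ((j : ℂ) - k) (n := 2) (by norm_num)
  obtain ⟨q, hq⟩ := IsAlgClosed.exists_pow_nat_eq ((k : ℂ) - i) (n := 2) (by norm_num)
  obtain ⟨r, hr⟩ := IsAlgClosed.exists_pow_nat_eq ((i : ℂ) - j) (n := 2) (by norm_num)
  exact ⟨p, q, r, hp, hq, hr⟩

theorem good_pt3 {i j k : Fin (n + 1)} (hij : i ≠ j) (hik : i ≠ k) (hjk : j ≠ k) {p q r : ℂ}
    (h : Tri i.val j.val k.val p q r) : Good (pt3 i j k p q r) := by
  constructor
  · have h1 := sum_pt3 i j k p q r fun _ => 1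
    simp only [mul_one] at h1
    rw [h1]
    exact h.sum_ne fun h => hij (Fin.ext h)
  · intro l
    have h1 : ∑ a : Fin (n + 1), ((l.val : ℂ) - a.val) * pt3 i j k p q r a ^ 2 =
        ∑ a, pt3 i j k p q r a * (pt3 i j k p q r a * ((l.val : ℂ) - a.val)) := by
      refine Finset.sum_congr rfl fun a _ => ?_
      ring
    rw [h1, sum_pt3, pt3_1 hij hik, pt3_2 hij hjk, pt3_3 hik hjk]
    obtain ⟨h2, h3, h4⟩ := h
    have : p * (p * ((l.val : ℂ) - i.val)) + q * (q * ((l.val : ℂ) - j.val)) +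
        r * (r * ((l.val : ℂ) - k.val)) = 0 := by
      linear_combination ((l.val : ℂ) - i.val) * h2 + ((l.val : ℂ) - j.val) * h3 +
        ((l.val : ℂ) - k.val) * h4
    rw [this, mul_zero]

theorem Tri.neg2 {i j k : ℕ} {p q r : ℂ} (h : Tri i j k p q r) : Tri i j k p (-q) r :=
  ⟨h.1, by rw [neg_sq]; exact h.2.1, h.2.2⟩

theorem Tri.neg3 {i j k : ℕ} {p q r : ℂ} (h : Tri i j k p q r) : Tri i j k p q (-r) :=
  ⟨h.1, h.2.1, by rw [neg_sq]; exact h.2.2⟩

theorem Tri.ne1 {i j k : ℕ} {p q r : ℂ} (h : Tri i j k p q r) (hjk : j ≠ k) : p ≠ 0 := by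
  rintro rfl
  have h1 := h.1
  rw [zero_pow two_ne_zero] at h1
  exact hjk (by exact_mod_cast (sub_eq_zero.1 h1.symm))

theorem Tri.ne2 {i j k : ℕ} {p q r : ℂ} (h : Tri i j k p q r) (hik : i ≠ k) : q ≠ 0 := by
  rintro rfl
  have h1 := h.2.1
  rw [zero_pow two_ne_zero] at h1
  exact hik (by exact_mod_cast (sub_eq_zero.1 h1.symm).symm)

theorem Tri.ne3 {i j k : ℕ} {p q r : ℂ} (h : Tri i j k p q r) (hij : i ≠ j) : r ≠ 0 := by
  rintro rfl
  have h1 := h.2.2
  rw [zero_pow two_ne_zero] at h1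
  exact hij (by exact_mod_cast (sub_eq_zero.1 h1.symm))

theorem expand3 {B : Fin (n + 1) → Fin (n + 1) → Fin (n + 1) → ℂ}
    (h12 : ∀ a b c, B b a c = B a b c) (h23 : ∀ a b c, B a c b = B a b c)
    (i j k : Fin (n + 1)) (p q r : ℂ) :
    ∑ a, pt3 i j k p q r a * ∑ b, pt3 i j k p q r b * ∑ c, pt3 i j k p q r c * B a b c =
    p ^ 3 * B i i i + q ^ 3 * B j j j + r ^ 3 * B k k k + 3 * p ^ 2 * q * B i i j +
      3 * p ^ 2 * r * B i i k + 3 * q ^ 2 * p * B j j i + 3 * q ^ 2 * r * B j j k +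
      3 * r ^ 2 * p * B k k i + 3 * r ^ 2 * q * B k k j + 6 * p * q * r * B i j k := by
  have e1 : B i j i = B i i j := h23 i i j
  have e2 : B j i i = B i i j := (h12 i j i).trans e1
  have e3 : B i k i = B i i k := h23 i i k
  have e4 : B k i i = B i i k := (h12 i k i).trans e3
  have e5 : B j i j = B j j i := h23 j j i
  have e6 : B i j j = B j j i := (h12 j i j).trans e5
  have e7 : B j k j = B j j k := h23 j j k
  have e8 : B k j j = B j j k := (h12 j k j).trans e7
  have e9 : B k i k = B k k i := h23 k k i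
  have e10 : B i k k = B k k i := (h12 k i k).trans e9
  have e11 : B k j k = B k k j := h23 k k j
  have e12 : B j k k = B k k j := (h12 k j k).trans e11
  have f1 : B i k j = B i j k := h23 i j k
  have f2 : B j i k = B i j k := h12 i j k
  have f3 : B j k i = B i j k := (h23 j i k).trans f2
  have f4 : B k i j = B i j k := (h12 i k j).trans f1
  have f5 : B k j i = B i j k := (h23 k i j).trans f4
  simp only [sum_pt3]
  rw [e1, e2, e3, e4, e5, e6, e7, e8, e9, e10, e11, e12, f1, f2, f3, f4, f5]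
  ring

theorem exists_third (hn : 2 ≤ n) (i j : Fin (n + 1)) : ∃ k, i ≠ k ∧ j ≠ k := by
  by_contra h
  push Not at h
  have h1 : (Finset.univ : Finset (Fin (n + 1))) ⊆ {i, j} := by
    intro k _
    rw [Finset.mem_insert, Finset.mem_singleton]
    by_cases h2 : i = k
    · exact Or.inl h2.symm
    · exact Or.inr (h k h2).symm
  have h2 := Finset.card_le_card h1
  rw [Finset.card_univ, Fintype.card_fin] at h2
  have h3 : ({i, j} : Finset (Fin (n + 1))).card ≤ 2 := Finset.card_le_two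
  omega

theorem sum_single {x : Fin (n + 1)} (G : Fin (n + 1) → ℂ) :
    ∑ a, (Pi.single x (1 : ℂ) : Fin (n + 1) → ℂ) a * G a = G x := by
  simp [Pi.single_apply]

/-- no quadric contains the base points -/
theorem quadric (hn : 2 ≤ n) (f : MvPolynomial (Fin n) ℂ) (hd : f.totalDegree ≤ 2)
    (hf : ∀ x ∈ BL n, eval x f = 0) : f = 0 := by
  obtain ⟨B, hs, hB⟩ := exists_B2 hd
  have h1 : ∀ a, B a a = 0 := by
    intro a
    have h := (good_single a).tensor2 hf hB
    rwa [sum_single, sum_single] at h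
  have h2 : ∀ i j, i ≠ j → B i j = 0 := by
    intro i j hij
    obtain ⟨k, hik, hjk⟩ := exists_third hn i j
    obtain ⟨p, q, r, ht⟩ := exists_tri i.val j.val k.val
    have hE : ∀ p q r : ℂ, Tri i.val j.val k.val p q r →
        2 * (p * q) * B i j + 2 * (p * r) * B i k + 2 * (q * r) * B j k = 0 := by
      intro p q r ht
      have h := (good_pt3 hij hik hjk ht).tensor2 hf hB
      simp only [sum_pt3] at h
      rw [h1 i, h1 j, h1 k, hs i j, hs i k, hs j k] at h
      linear_combination h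
    have a1 := hE _ _ _ ht
    have a2 := hE _ _ _ ht.neg2
    have a3 := hE _ _ _ ht.neg3
    have a4 := hE _ _ _ ht.neg2.neg3
    have hp : p ≠ 0 := ht.ne1 fun h => hjk (Fin.ext h)
    have hq : q ≠ 0 := ht.ne2 fun h => hik (Fin.ext h)
    have h3 : p * q * B i j = 0 := by
      linear_combination (a1 - a2 + a3 - a4) / 8
    exact (mul_eq_zero.1 h3).resolve_left (mul_ne_zero hp hq)
  rw [hB]
  refine Finset.sum_eq_zero fun a _ => Finset.sum_eq_zero fun b _ => ?_
  have : B a b = 0 := by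
    by_cases h : a = b
    · rw [h, h1]
    · exact h2 a b h
  rw [this, C_0, zero_mul]

theorem collapse {B : Fin (n + 1) → Fin (n + 1) → Fin (n + 1) → ℂ}
    (h12 : ∀ a b c, B b a c = B a b c) (h23 : ∀ a b c, B a c b = B a b c)
    (h0 : ∀ a, B a a a = 0) (h1 : ∀ a b c, a ≠ b → a ≠ c → b ≠ c → B a b c = 0)
    (y : Fin (n + 1) → MvPolynomial (Fin n) ℂ) :
    ∑ a, ∑ b, ∑ c, C (B a b c) * (y a * y b * y c) =
      ∑ l, ∑ j, C (3 * B j j l) * (y l * y j ^ 2) := by
  have key : ∀ a b c, B a b c = (if a = b then B a a c else 0) + (if b = c then B b b a else 0) +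
      (if a = c then B a a b else 0) := by
    intro a b c
    by_cases hab : a = b
    · subst hab
      by_cases hac : a = c
      · subst hac
        simp [h0]
      · simp [hac]
    · by_cases hbc : b = c
      · subst hbc
        simp only [if_neg hab, if_true, add_zero, zero_add]
        exact ((h23 b b a).symm.trans (h12 a b b)).symm
      · by_cases hac : a = c
        · subst hac
          simp only [if_neg hab, if_neg hbc, if_true, zero_add]
          exact h23 a a b
        · simp [hab, hbc, hac, h1 a b c hab hac hbc]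
  have s1 : ∑ a, ∑ b, ∑ c, C (if a = b then B a a c else 0) * (y a * y b * y c) =
      ∑ j, ∑ l, C (B j j l) * (y l * y j ^ 2) := by
    refine Finset.sum_congr rfl fun a _ => ?_
    rw [Finset.sum_eq_single a]
    · refine Finset.sum_congr rfl fun c _ => ?_
      rw [if_pos rfl]
      ring
    · intro b _ hb
      refine Finset.sum_eq_zero fun c _ => ?_
      rw [if_neg (Ne.symm hb), C_0, zero_mul]
    · intro h
      exact absurd (Finset.mem_univ a) h
  have s2 : ∑ a, ∑ b, ∑ c, C (if b = c then B b b a else 0) * (y a * y b * y c) =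
      ∑ j, ∑ l, C (B j j l) * (y l * y j ^ 2) := by
    rw [Finset.sum_comm]
    refine Finset.sum_congr rfl fun b _ => Finset.sum_congr rfl fun a _ => ?_
    rw [Finset.sum_eq_single b]
    · rw [if_pos rfl]
      ring
    · intro c _ hc
      rw [if_neg (Ne.symm hc), C_0, zero_mul]
    · intro h
      exact absurd (Finset.mem_univ b) h
  have s3 : ∑ a, ∑ b, ∑ c, C (if a = c then B a a b else 0) * (y a * y b * y c) =
      ∑ j, ∑ l, C (B j j l) * (y l * y j ^ 2) := by
    refine Finset.sum_congr rfl fun a _ => Finset.sum_congr rfl fun b _ => ?_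
    rw [Finset.sum_eq_single a]
    · rw [if_pos rfl]
      ring
    · intro c _ hc
      rw [if_neg (Ne.symm hc), C_0, zero_mul]
    · intro h
      exact absurd (Finset.mem_univ a) h
  have s0 : ∑ a, ∑ b, ∑ c, C (B a b c) * (y a * y b * y c) =
      ∑ a, ∑ b, ∑ c, C (if a = b then B a a c else 0) * (y a * y b * y c) +
      ∑ a, ∑ b, ∑ c, C (if b = c then B b b a else 0) * (y a * y b * y c) +
      ∑ a, ∑ b, ∑ c, C (if a = c then B a a b else 0) * (y a * y b * y c) := by
    simp only [← Finset.sum_add_distrib]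
    refine Finset.sum_congr rfl fun a _ => Finset.sum_congr rfl fun b _ =>
      Finset.sum_congr rfl fun c _ => ?_
    rw [← add_mul, ← add_mul, ← C_add, ← C_add, ← key]
  rw [s0, s1, s2, s3, Finset.sum_comm]
  simp only [← Finset.sum_add_distrib]
  refine Finset.sum_congr rfl fun l _ => Finset.sum_congr rfl fun j _ => ?_
  have : C (3 * B j j l) = C (B j j l) + C (B j j l) + (C (B j j l) : MvPolynomial (Fin n) ℂ) := by
    rw [← C_add, ← C_add]
    congr 1
    ring
  rw [this]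
  ring

/-- the cubics through the base points -/
theorem cubic (hn : 2 ≤ n) (f : MvPolynomial (Fin n) ℂ) (hd : f.totalDegree ≤ 3)
    (hf : ∀ x ∈ BL n, eval x f = 0) : ∃ γ : Fin (n + 1) → ℂ, f = ∑ l, C (γ l) * uu n l := by
  obtain ⟨B, h12, h23, hB⟩ := exists_B3 hd
  have h1 : ∀ a, B a a a = 0 := by
    intro a
    have h := (good_single a).tensor3 hf hB
    rwa [sum_single, sum_single, sum_single] at h
  have hE : ∀ i j k, i ≠ j → i ≠ k → j ≠ k → B i j k = 0 ∧
      ((k.val : ℂ) - i.val) * B j j i + ((i.val : ℂ) - j.val) * B k k i = 0 := by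
    intro i j k hij hik hjk
    obtain ⟨p, q, r, ht⟩ := exists_tri i.val j.val k.val
    have hE : ∀ p q r : ℂ, Tri i.val j.val k.val p q r →
        3 * p ^ 2 * q * B i i j +
      3 * p ^ 2 * r * B i i k + 3 * q ^ 2 * p * B j j i + 3 * q ^ 2 * r * B j j k +
      3 * r ^ 2 * p * B k k i + 3 * r ^ 2 * q * B k k j + 6 * p * q * r * B i j k = 0 := by
      intro p q r ht
      have h := (good_pt3 hij hik hjk ht).tensor3 hf hB
      rw [expand3 h12 h23, h1 i, h1 j, h1 k] at h
      linear_combination h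
    have a1 := hE _ _ _ ht
    have a2 := hE _ _ _ ht.neg2
    have a3 := hE _ _ _ ht.neg3
    have a4 := hE _ _ _ ht.neg2.neg3
    have hp : p ≠ 0 := ht.ne1 fun h => hjk (Fin.ext h)
    have hq : q ≠ 0 := ht.ne2 fun h => hik (Fin.ext h)
    have hr : r ≠ 0 := ht.ne3 fun h => hij (Fin.ext h)
    constructor
    · have h3 : p * q * r * B i j k = 0 := by
        linear_combination (a1 - a2 - a3 + a4) / 24
      exact (mul_eq_zero.1 h3).resolve_left (mul_ne_zero (mul_ne_zero hp hq) hr)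
    · have h3 : p * (q ^ 2 * B j j i + r ^ 2 * B k k i) = 0 := by
        linear_combination (a1 + a2 + a3 + a4) / 12
      have h4 := (mul_eq_zero.1 h3).resolve_left hp
      rw [ht.2.1, ht.2.2] at h4
      exact h4
  have hsub : ∀ a b : Fin (n + 1), a ≠ b → (a.val : ℂ) - b.val ≠ 0 := by
    intro a b hab h
    exact hab (Fin.ext (by exact_mod_cast sub_eq_zero.1 h))
  have hγ : ∀ i : Fin (n + 1), ∃ g : ℂ, ∀ j, 3 * B j j i = g * ((i.val : ℂ) - j.val) := by
    intro i
    obtain ⟨k, hik, -⟩ := exists_third hn i i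
    refine ⟨3 * B k k i / ((i.val : ℂ) - k.val), fun j => ?_⟩
    have hk := hsub i k hik
    by_cases hji : i = j
    · subst hji
      simp [h1]
    · by_cases hjk : j = k
      · subst hjk
        field_simp
      · have h := (hE i j k hji hik hjk).2
        field_simp
        linear_combination -h
  choose g hg using hγ
  refine ⟨g, ?_⟩
  rw [hB, collapse h12 h23 h1 (fun a b c hab hac hbc => (hE a b c hab hac hbc).1)]
  refine Finset.sum_congr rfl fun l _ => ?_
  rw [uu, Finset.mul_sum, Finset.mul_sum]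
  refine Finset.sum_congr rfl fun j _ => ?_
  rw [hg, C_mul]
  ring

end D1aux

theorem x_D1 : S_D1 := fun _ hn => ⟨D1aux.quadric hn, D1aux.cubic hn⟩

end Pool.Agent.WarQ
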