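import Pool.Agent.WarQ.Stmts

/-!
# Points and independence in the group model
-/

set_option autoImplicit false

open Module MvPolynomial
open Pool.Agent.War Pool.Agent.WarS

namespace Pool.Agent.WarQ

namespace GIaux

variable {n K : ℕ} {sz : Fin K → ℕ}

/-- the point with given components -/
def pt (e : ((g : Fin K) × Fin (sz g)) ≃ Fin n) (y : ∀ g, Fin (sz g) → ℂ) : Fin n → ℂ :=
  fun v => y (e.symm v).1 (e.symm v).2

theorem pt_apply (e : ((g : Fin K) × Fin (sz g)) ≃ Fin n) (y : ∀ g, Fin (sz g) → ℂ) (g : Fin K)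
    (i : Fin (sz g)) : pt e y (e ⟨g, i⟩) = y g i :=
  congrArg (fun v : (g : Fin K) × Fin (sz g) => y v.1 v.2) (e.symm_apply_apply ⟨g, i⟩)

theorem pt_comp (e : ((g : Fin K) × Fin (sz g)) ≃ Fin n) (y : ∀ g, Fin (sz g) → ℂ) (g : Fin K) :
    (fun i => pt e y (e ⟨g, i⟩)) = y g := by
  funext i
  exact pt_apply e y g i

theorem eval_pt (e : ((g : Fin K) × Fin (sz g)) ≃ Fin n) (y : ∀ g, Fin (sz g) → ℂ) (g : Fin K)
    (f : MvPolynomial (Fin (sz g)) ℂ) :
    eval (pt e y) (rename (fun i => e ⟨g, i⟩) f) = eval (y g) f := by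
  rw [eval_rename]
  have : (pt e y ∘ fun i => e ⟨g, i⟩) = y g := pt_comp e y g
  rw [this]

theorem zz_eq {m : ℕ} (e : ((g : Fin K) × Fin (sz g)) ≃ Fin n)
    (κ : ∀ g, Fin m → Fin (sz g + 1)) (i : Fin m) :
    zz e κ i = pt e (fun g => ww (sz g) (κ g i)) := rfl

theorem inj (e : ((g : Fin K) × Fin (sz g)) ≃ Fin n) (g : Fin K) :
    Function.Injective (fun i => e ⟨g, i⟩ : Fin (sz g) → Fin n) := by
  intro i i' h
  have h1 : (⟨g, i⟩ : (g : Fin K) × Fin (sz g)) = ⟨g, i'⟩ := e.injective h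
  exact eq_of_heq (Sigma.mk.inj h1).2

theorem pd_self (e : ((g : Fin K) × Fin (sz g)) ≃ Fin n) (g : Fin K) (w : Fin (sz g + 1))
    (k : Fin (sz g)) (y : ∀ g, Fin (sz g) → ℂ) :
    eval (pt e y) (pderiv (e ⟨g, k⟩) (ug e g w)) = eval (y g) (pderiv k (uu (sz g) w)) := by
  unfold ug
  have h := pderiv_rename (R := ℂ) (inj e g) k (uu (sz g) w)
  rw [h, eval_pt]

theorem pd_ne (e : ((g : Fin K) × Fin (sz g)) ≃ Fin n) {g g' : Fin K} (h : g' ≠ g)
    (w : Fin (sz g' + 1)) (k : Fin (sz g)) : pderiv (e ⟨g, k⟩) (ug e g' w) = 0 := by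
  classical
  apply pderiv_eq_zero_of_notMem_vars
  intro hm
  have h1 := vars_rename (fun i => e ⟨g', i⟩) (uu (sz g') w) hm
  obtain ⟨i, _, hi⟩ := Finset.mem_image.1 h1
  have h2 : (⟨g', i⟩ : (g : Fin K) × Fin (sz g)) = ⟨g, k⟩ := e.injective hi
  exact h (Sigma.mk.inj h2).1

end GIaux

open GIaux in
theorem x_GI (h0 : S_D0) : S_GI := by
  classical
  intro n K m sz e κ hsz
  refine ⟨?_, ?_, ?_, ?_, ?_⟩
  · intro i g
    rw [zz_eq, pt_comp]
    exact (h0 (sz g)).2.2.2.1 _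
  · intro g w
    refine ⟨(totalDegree_rename_le _ _).trans ((h0 (sz g)).1 w), fun p hp => ?_⟩
    unfold ug
    rw [eval_rename]
    exact hp g w
  · rw [Fintype.linearIndependent_iff]
    rintro γ hγ ⟨g, w⟩
    have hE := (h0 (sz g)).2.2.2.2.1
    have h2 := hsz g
    obtain ⟨m', hm'⟩ : ∃ m' : Fin (sz g + 1), m' ≠ w := by
      by_cases hw : w = 0
      · exact ⟨1, by rw [hw]; intro h; have := congrArg Fin.val h; simp at this; omega⟩
      · exact ⟨0, Ne.symm hw⟩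
    refine hE m' (fun w => γ ⟨g, w⟩) ?_ w (Ne.symm hm')
    intro k
    let c : ∀ g, Fin (sz g) → ℂ := Function.update (fun g => ww (sz g) 0) g (ww (sz g) m')
    have h3 := congrArg (fun f => eval (pt e c) (pderiv (e ⟨g, k⟩) f)) hγ
    simp only [map_sum, map_zero] at h3
    rw [Fintype.sum_sigma] at h3
    rw [Finset.sum_eq_single g] at h3
    · rw [← h3]
      refine Finset.sum_congr rfl fun w _ => ?_
      rw [Derivation.map_smul, smul_eval, pd_self]
      have : c g = ww (sz g) m' := Function.update_self _ _ _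
      rw [this]
    · intro g' _ hg'
      refine Finset.sum_eq_zero fun w _ => ?_
      rw [Derivation.map_smul, pd_ne e hg', smul_zero, map_zero]
    · intro h
      exact absurd (Finset.mem_univ g) h
  · intro g₁ g₂ hκ i
    refine ⟨rename (fun i => e ⟨g₁, i⟩) (bar (sz g₁) (κ g₁ i)) *
      rename (fun i => e ⟨g₂, i⟩) (bar (sz g₂) (κ g₂ i)), ?_, ?_, ?_⟩
    · have h1 := (totalDegree_rename_le (fun i => e ⟨g₁, i⟩) (bar (sz g₁) (κ g₁ i))).trans
        ((h0 (sz g₁)).2.1 _)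
      have h2 := (totalDegree_rename_le (fun i => e ⟨g₂, i⟩) (bar (sz g₂) (κ g₂ i))).trans
        ((h0 (sz g₂)).2.1 _)
      have h3 := totalDegree_mul (rename (fun i => e ⟨g₁, i⟩) (bar (sz g₁) (κ g₁ i)))
        (rename (fun i => e ⟨g₂, i⟩) (bar (sz g₂) (κ g₂ i)))
      omega
    · rw [map_mul, zz_eq, eval_pt, eval_pt, (h0 (sz g₁)).2.2.1, (h0 (sz g₂)).2.2.1, if_pos rfl,
        if_pos rfl, one_mul]
      exact one_ne_zero
    · intro i' hi'
      rw [map_mul, zz_eq, eval_pt, eval_pt, (h0 (sz g₁)).2.2.1, (h0 (sz g₂)).2.2.1]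
      by_cases h1 : κ g₁ i = κ g₁ i'
      · by_cases h2 : κ g₂ i = κ g₂ i'
        · exact absurd (hκ i i' h1 h2).symm hi'
        · rw [if_neg h2, mul_zero]
      · rw [if_neg h1, zero_mul]
  · have h1 : ∀ g, ∃ y : Fin (sz g) → ℂ, eval y (uu (sz g) 0) ≠ 0 := fun g =>
      (h0 (sz g)).2.2.2.2.2 (by have := hsz g; omega)
    choose y hy using h1
    refine ⟨pt e y, fun g => ?_⟩
    unfold ug
    rw [eval_pt]
    exact hy g

end Pool.Agent.WarQ
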