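import Pool.Agent.WarQ.Stmts

/-!
# Kernel of the full conditions in the group model
-/

set_option autoImplicit false

open Module MvPolynomial
open Pool.Agent.War Pool.Agent.WarS

namespace Pool.Agent.WarQ

namespace GRaux

variable {n K : ℕ} {sz : Fin K → ℕ}

theorem inj (e : ((g : Fin K) × Fin (sz g)) ≃ Fin n) (g : Fin K) :
    Function.Injective (fun i : Fin (sz g) => e ⟨g, i⟩) := by
  intro i i' h
  have h1 : (⟨g, i⟩ : (g : Fin K) × Fin (sz g)) = ⟨g, i'⟩ := e.injective h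
  simpa using h1

theorem pderiv_other (e : ((g : Fin K) × Fin (sz g)) ≃ Fin n) {g g' : Fin K} (h : g' ≠ g)
    (k : Fin (sz g)) (w : Fin (sz g' + 1)) : pderiv (e ⟨g, k⟩) (ug e g' w) = 0 := by
  classical
  apply pderiv_eq_zero_of_notMem_vars
  intro hm
  have h1 := vars_rename (fun i : Fin (sz g') => e ⟨g', i⟩) (uu (sz g') w) hm
  rw [Finset.mem_image] at h1
  obtain ⟨i, -, hi⟩ := h1
  have h2 : (⟨g', i⟩ : (g : Fin K) × Fin (sz g)) = ⟨g, k⟩ := e.injective hi
  exact h (congrArg Sigma.fst h2)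

theorem zz_comp {m : ℕ} (e : ((g : Fin K) × Fin (sz g)) ≃ Fin n)
    (κ : ∀ g, Fin m → Fin (sz g + 1)) (i : Fin m) (g : Fin K) :
    (zz e κ i) ∘ (fun i' : Fin (sz g) => e ⟨g, i'⟩) = ww (sz g) (κ g i) := by
  funext i'
  let F : ((g : Fin K) × Fin (sz g)) → ℂ := fun x => ww (sz x.1) (κ x.1 i) x.2
  change F (e.symm (e ⟨g, i'⟩)) = F ⟨g, i'⟩
  rw [Equiv.symm_apply_apply]

theorem pderiv_same {m : ℕ} (e : ((g : Fin K) × Fin (sz g)) ≃ Fin n)
    (κ : ∀ g, Fin m → Fin (sz g + 1)) (i : Fin m) (g : Fin K) (k : Fin (sz g))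
    (w : Fin (sz g + 1)) :
    eval (zz e κ i) (pderiv (e ⟨g, k⟩) (ug e g w)) =
      eval (ww (sz g) (κ g i)) (pderiv k (uu (sz g) w)) := by
  unfold ug
  rw [pderiv_rename (inj e g) k, eval_rename, zz_comp]

end GRaux

open GRaux

theorem x_GR (h0 : S_D0) (h1 : S_D1) (hP : S_PROD) : S_GR := by
  intro n K m b sz e κ a f hsz hdeg hv hfull
  have key : ∀ j, ∃ γ : ∀ g, Fin (sz g + 1) → ℂ,
      f j = ∑ g, ∑ w, C (γ g w) * ug e g w := by
    intro j
    obtain ⟨G, hG1, hG2⟩ := hP (Fin K) sz (fun g => BL (sz g)) (fun g => (h1 (sz g) (hsz g)).1)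
      (rename e.symm (f j)) ((totalDegree_rename_le _ _).trans (hdeg j)) (by
        intro p hp
        rw [eval_rename]
        apply hv j
        intro g
        have : (fun i => ((fun v : (g : Fin K) × Fin (sz g) => p v.1 v.2) ∘ e.symm) (e ⟨g, i⟩)) =
            p g := by
          funext i
          let F : ((g : Fin K) × Fin (sz g)) → ℂ := fun v => p v.1 v.2
          change F (e.symm (e ⟨g, i⟩)) = F ⟨g, i⟩
          rw [Equiv.symm_apply_apply]
        rw [this]
        exact hp g)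
    have hex : ∀ g, ∃ γ : Fin (sz g + 1) → ℂ, G g = ∑ l, C (γ l) * uu (sz g) l := fun g =>
      (h1 (sz g) (hsz g)).2 (G g) (hG1 g).1 (hG1 g).2
    choose γ hγ using hex
    refine ⟨γ, ?_⟩
    have h2 : f j = rename e (rename e.symm (f j)) := by
      rw [rename_rename]
      simp
    rw [h2, hG2, map_sum]
    refine Finset.sum_congr rfl fun g _ => ?_
    rw [hγ g, rename_rename, map_sum]
    refine Finset.sum_congr rfl fun w _ => ?_
    rw [map_mul, rename_C]
    rfl
  choose γ' hγ' using key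
  refine ⟨fun g w j => γ' j g w, hγ', ?_⟩
  intro g w i hne
  refine (h0 (sz g)).2.2.2.2.1 (κ g i) (fun l => ∑ j, a i j * γ' j g l) ?_ w (fun h => hne h.symm)
  intro k
  have h3 := hfull i (e ⟨g, k⟩)
  rw [← h3]
  have h4 : ∀ j, eval (zz e κ i) (pderiv (e ⟨g, k⟩) (f j)) =
      ∑ l, γ' j g l * eval (ww (sz g) (κ g i)) (pderiv k (uu (sz g) l)) := by
    intro j
    rw [hγ' j, map_sum, map_sum, Finset.sum_eq_single g]
    · rw [map_sum, map_sum]
      refine Finset.sum_congr rfl fun l _ => ?_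
      rw [pderiv_C_mul, map_mul, eval_C, pderiv_same]
    · intro g' _ hg'
      rw [map_sum, map_sum]
      refine Finset.sum_eq_zero fun l _ => ?_
      rw [pderiv_C_mul, pderiv_other e hg', mul_zero, map_zero]
    · intro h
      exact absurd (Finset.mem_univ _) h
  have h5 : ∑ j, a i j * eval (zz e κ i) (pderiv (e ⟨g, k⟩) (f j)) =
      ∑ j, ∑ l, a i j * (γ' j g l * eval (ww (sz g) (κ g i)) (pderiv k (uu (sz g) l))) := by
    refine Finset.sum_congr rfl fun j _ => ?_
    rw [h4 j, Finset.mul_sum]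
  rw [h5, Finset.sum_comm]
  refine Finset.sum_congr rfl fun l _ => ?_
  rw [Finset.sum_mul]
  refine Finset.sum_congr rfl fun j _ => ?_
  ring

end Pool.Agent.WarQ
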