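import Pool.Agent.WarQ.Stmts

/-!
# Second model: assembly of the statement `S_L`   (helper52)
-/

set_option autoImplicit false

open Module MvPolynomial
open Pool.Agent.War Pool.Agent.WarS

namespace Pool.Agent.WarQ

namespace Laux

/-- restriction to the linear space `y = 0` -/
noncomputable def rl (D k : ℕ) : MvPolynomial (Fin D ⊕ Fin k) ℂ →ₐ[ℂ] MvPolynomial (Fin D) ℂ :=
  aeval (Sum.elim X 0)

theorem rl_C {D k : ℕ} (c : ℂ) : rl D k (C c) = C c := by simp [rl]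

theorem rl_inl {D k : ℕ} (i : Fin D) : rl D k (X (Sum.inl i)) = X i := by simp [rl]

theorem rl_inr {D k : ℕ} (i : Fin k) : rl D k (X (Sum.inr i)) = 0 := by simp [rl]

theorem eval_rl {D k : ℕ} (x : Fin D → ℂ) (f : MvPolynomial (Fin D ⊕ Fin k) ℂ) :
    eval x (rl D k f) = eval (Sum.elim x 0) f := by
  induction f using MvPolynomial.induction_on with
  | C a => simp
  | add p q hp hq => simp [hp, hq]
  | mul_X p v hp =>
    rcases v with i | i
    · simp [rl_inl, hp]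
    · simp [rl_inr]

theorem rl_pderiv {D k : ℕ} (i : Fin D) (f : MvPolynomial (Fin D ⊕ Fin k) ℂ) :
    rl D k (pderiv (Sum.inl i) f) = pderiv i (rl D k f) := by
  induction f using MvPolynomial.induction_on with
  | C a => simp
  | add p q hp hq => simp [hp, hq]
  | mul_X p v hp =>
    rcases v with j | j
    · by_cases hij : j = i
      · subst hij
        simp [rl_inl, Derivation.leibniz, hp]
      · have h1 : (Sum.inl j : Fin D ⊕ Fin k) ≠ Sum.inl i := fun h => hij (Sum.inl_injective h)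
        simp [rl_inl, Derivation.leibniz, hp, pderiv_X_of_ne hij, pderiv_X_of_ne h1]
    · have h1 : (Sum.inr j : Fin D ⊕ Fin k) ≠ Sum.inl i := Sum.inr_ne_inl
      simp [rl_inr, Derivation.leibniz, hp, pderiv_X_of_ne h1]

theorem eval_rl_pderiv {D k : ℕ} (x : Fin D → ℂ) (i : Fin D)
    (f : MvPolynomial (Fin D ⊕ Fin k) ℂ) :
    eval x (pderiv i (rl D k f)) = eval (Sum.elim x 0) (pderiv (Sum.inl i) f) := by
  rw [← rl_pderiv, eval_rl]

theorem rl_degree {D k : ℕ} (f : MvPolynomial (Fin D ⊕ Fin k) ℂ) :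
    (rl D k f).totalDegree ≤ f.totalDegree := by
  have h0 : rl D k f = ∑ m ∈ f.support, C (f.coeff m) *
      ∏ v ∈ m.support, (Sum.elim X 0 : Fin D ⊕ Fin k → MvPolynomial (Fin D) ℂ) v ^ m v := by
    conv_lhs => rw [f.as_sum]
    rw [map_sum]
    refine Finset.sum_congr rfl fun m _ => ?_
    rw [rl, aeval_monomial]
    rfl
  rw [h0]
  refine totalDegree_finsetSum_le fun m hm => ?_
  refine (totalDegree_mul _ _).trans ?_
  rw [totalDegree_C, zero_add]
  refine (totalDegree_finsetProd _ _).trans ?_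
  refine le_trans (Finset.sum_le_sum fun v _ => ?_) (le_totalDegree hm)
  refine (totalDegree_pow _ _).trans ?_
  rcases v with i | i
  · simp
  · simp

/-- numbers: `b + D ≤ N(D,3)` -/
theorem arA {b δ : ℕ} (h : b < 2 * (δ + 1) * (δ + 1)) : b + (δ + 1) ≤ NN (δ + 1) 3 := by
  have h6 : 6 * NN (δ + 1) 3 = (δ + 4) * (δ + 3) * (δ + 2) := by
    have e : NN (δ + 1) 3 = (δ + 4).choose 3 := by
      unfold NN
      rw [show δ + 1 + 3 = δ + 4 by ring, ← Nat.choose_symm (show 3 ≤ δ + 4 by omega)]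
      congr 1
    rw [e]
    have := Nat.choose_mul_factorial_mul_factorial (show 3 ≤ δ + 4 by omega)
    rw [show δ + 4 - 3 = δ + 1 by omega] at this
    have e2 : (δ + 4).factorial = (δ + 4) * ((δ + 3) * ((δ + 2) * (δ + 1).factorial)) := by
      rw [Nat.factorial_succ (δ + 3), Nat.factorial_succ (δ + 2), Nat.factorial_succ (δ + 1)]
    rw [e2, show Nat.factorial 3 = 6 from rfl] at this
    have hp : 0 < (δ + 1).factorial := Nat.factorial_pos _
    refine Nat.eq_of_mul_eq_mul_right hp ?_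
    rw [← Nat.cast_inj (R := ℤ)] at this ⊢
    push_cast at this ⊢
    linarith
  have key : 6 * (2 * (δ + 1) * (δ + 1)) + 6 * (δ + 1) ≤ (δ + 4) * (δ + 3) * (δ + 2) + 6 := by
    rcases Nat.lt_or_ge δ 4 with h4 | h4
    · interval_cases δ <;> norm_num
    · obtain ⟨t, rfl⟩ : ∃ t, δ = t + 4 := ⟨δ - 4, by omega⟩
      ring_nf
      nlinarith [Nat.zero_le t, Nat.zero_le (t ^ 2), Nat.zero_le (t ^ 3)]
  omega

theorem two_NN (n : ℕ) : 2 * NN n 2 = (n + 2) * (n + 1) := by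
  have e : NN n 2 = (n + 2).choose 2 := by
    unfold NN
    rw [← Nat.choose_symm (show 2 ≤ n + 2 by omega)]
    congr 1
  rw [e, Nat.choose_two_right, show n + 2 - 1 = n + 1 by omega]
  exact Nat.mul_div_cancel' (Nat.even_mul_pred_self (n + 2)).two_dvd

theorem two_eo (D k : ℕ) : 2 * eo D k = 2 * D * (k + 1) + (k + 3) * (k + 2) := by
  unfold eo
  have : 2 * (k + 3).choose 2 = (k + 3) * (k + 2) := by
    rw [Nat.choose_two_right, show k + 3 - 1 = k + 2 by omega]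
    exact Nat.mul_div_cancel' (Nat.even_mul_pred_self (k + 3)).two_dvd
  rw [mul_add, this]
  ring

/-- numbers: the sum -/
theorem arB {b c δ k : ℕ} (hc : c ≤ δ + 1) (hb : b + (δ + 1) ≤ NN (δ + 1) 3) :
    (NN (δ + 1) 3 - (δ + 1) - b) + (NN (δ + (k + 2)) 3 - NN δ 3) + (eo (δ + 1) k - c) =
      NN (δ + 1 + (k + 2)) 3 - (δ + 1 + (k + 2) + (δ + 1)) - (b + c) := by
  have h1 : NN (δ + 1) 3 = NN δ 3 + NN (δ + 1) 2 := NN_succ δ 2
  have h2 : NN (δ + 1 + (k + 2)) 3 = NN (δ + (k + 2)) 3 + NN (δ + 1 + (k + 2)) 2 := by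
    have := NN_succ (δ + (k + 2)) 2
    rw [show δ + (k + 2) + 1 = δ + 1 + (k + 2) by ring] at this
    exact this
  have h3 := two_NN (δ + 1)
  have h4 := two_NN (δ + 1 + (k + 2))
  have h5 := two_eo (δ + 1) k
  have h6 : 2 * NN (δ + 1 + (k + 2)) 2 = 2 * NN (δ + 1) 2 + 2 * eo (δ + 1) k +
      2 * (δ + 1 + (k + 2)) := by
    rw [h3, h4, h5]; ring
  have h7 : NN δ 3 ≤ NN (δ + (k + 2)) 3 := by
    unfold NN
    rw [← Nat.choose_symm (show δ ≤ δ + 3 by omega),
      ← Nat.choose_symm (show δ + (k + 2) ≤ δ + (k + 2) + 3 by omega),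
      show δ + 3 - δ = 3 by omega, show δ + (k + 2) + 3 - (δ + (k + 2)) = 3 by omega]
    exact Nat.choose_le_choose 3 (by omega)
  have h8 : δ + 1 ≤ eo (δ + 1) k := by
    unfold eo
    have : (δ + 1) * 1 ≤ (δ + 1) * (k + 1) := Nat.mul_le_mul_left _ (by omega)
    omega
  omega

end Laux

open Laux

theorem x_L (hT : S_LT) (hH : S_LH) (hS : S_LS) (hX : S_LX) (hR : S_TRP) : S_L := by
  intro n b c D hc1 hcD hcb hbD hb2 hDn
  obtain ⟨k, rfl⟩ : ∃ k, n = D + (k + 2) := ⟨n - D - 2, by omega⟩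
  obtain ⟨δ, rfl⟩ : ∃ δ, D = δ + 1 := ⟨D - 1, by omega⟩
  have hbN := arA hb2
  -- generic choice
  have gT := hT (δ + 1) b (by omega) hbN
  have gS := hS (δ + 1) k b c (by omega) hcD hcb.le hbD
  let XS := (Fin b → Fin (δ + 1) → ℂ) × (Fin b ⊕ Fin c → Fin b → ℂ) ×
      (Fin c → Fin (δ + 1) ⊕ Fin (k + 2) → ℂ) ×
      (Fin (eo (δ + 1) k - c) → Fin (δ + 1) ⊕ Fin (k + 2) → ℂ)
  let Y1 := Fin (NN (δ + 1) 3 - (δ + 1) - b) → Fin (δ + 1) → ℂ
  let LS : XS × Y1 →ₗ[ℂ] XS := LinearMap.fst ℂ XS Y1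
  have hLS : Function.Surjective LS := fun q => ⟨(q, 0), rfl⟩
  let LT : XS × Y1 →ₗ[ℂ] (Fin b → Fin (δ + 1) → ℂ) × (Fin b → Fin b → ℂ) × Y1 :=
    { toFun := fun q => (q.1.1, fun i => q.1.2.1 (Sum.inl i), q.2)
      map_add' := fun _ _ => rfl
      map_smul' := fun _ _ => rfl }
  have hLT : Function.Surjective LT := fun q =>
    ⟨((q.1, Sum.elim q.2.1 0, 0, 0), q.2.2), rfl⟩
  have g1 := gS.comp LS hLS
  have g2 := gT.comp LT hLT
  have g3 : Gen ℂ fun q : XS × Y1 => ∀ i, q.1.1 i 0 ≠ 0 := by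
    refine Gen.forall fun i => ?_
    let φ : XS × Y1 →ₗ[ℂ] ℂ :=
      { toFun := fun q => q.1.1 i 0
        map_add' := fun _ _ => rfl
        map_smul' := fun _ _ => rfl }
    exact Gen.ne (F := fun q : XS × Y1 => q.1.1 i 0) (LP.linear φ)
      ((fun _ _ => 1, 0, 0, 0), 0) one_ne_zero
  have g4 : Gen ℂ fun q : XS × Y1 => ∀ i, q.1.2.2.1 i (Sum.inl 0) ≠ 0 := by
    refine Gen.forall fun i => ?_
    let φ : XS × Y1 →ₗ[ℂ] ℂ :=
      { toFun := fun q => q.1.2.2.1 i (Sum.inl 0)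
        map_add' := fun _ _ => rfl
        map_smul' := fun _ _ => rfl }
    exact Gen.ne (F := fun q : XS × Y1 => q.1.2.2.1 i (Sum.inl 0)) (LP.linear φ)
      ((0, 0, fun _ _ => 1, 0), 0) one_ne_zero
  have g5 : Gen ℂ fun q : XS × Y1 => ∀ i, q.1.2.2.2 i (Sum.inl 0) ≠ 0 := by
    refine Gen.forall fun i => ?_
    let φ : XS × Y1 →ₗ[ℂ] ℂ :=
      { toFun := fun q => q.1.2.2.2 i (Sum.inl 0)
        map_add' := fun _ _ => rfl
        map_smul' := fun _ _ => rfl }
    exact Gen.ne (F := fun q : XS × Y1 => q.1.2.2.2 i (Sum.inl 0)) (LP.linear φ)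
      ((0, 0, 0, fun _ _ => 1), 0) one_ne_zero
  obtain ⟨⟨⟨x, a, w, p⟩, y1⟩, ⟨⟨⟨hq1, hq2⟩, hq3⟩, hq4⟩, hq5⟩ :=
    ((((g1.and g2).and g3).and g4).and g5).exists
  replace hq1 : ∀ g : Fin b → MvPolynomial (Fin (δ + 1) ⊕ Fin (k + 2)) ℂ,
    (∀ j, (g j).totalDegree ≤ 2) → RC x a w p g → ∀ j, g j = 0 := hq1
  replace hq2 : ∀ f : Fin b → MvPolynomial (Fin (δ + 1)) ℂ, (∀ j, (f j).totalDegree ≤ 3) →
      (∀ i j, eval (x i) (f j) = 0) →
      (∀ i v, ∑ j, a (Sum.inl i) j * eval (x i) (pderiv v (f j)) = 0) →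
      (∀ t j, eval (y1 t) (f j) = 0) → ∀ j, f j = 0 := hq2
  replace hq3 : ∀ i, x i 0 ≠ 0 := hq3
  replace hq4 : ∀ i, w i (Sum.inl 0) ≠ 0 := hq4
  replace hq5 : ∀ i, p i (Sum.inl 0) ≠ 0 := hq5
  obtain ⟨yH, hyH⟩ := hH δ (k + 2)
  obtain ⟨hX1, hX2, hX3⟩ := hX δ (k + 2)
  -- transport
  refine hR (Fin (δ + 1) ⊕ Fin (k + 2)) (Fin b ⊕ Fin c)
    ((Fin (NN (δ + 1) 3 - (δ + 1) - b) ⊕ Fin (NN (δ + (k + 2)) 3 - NN δ 3)) ⊕
      Fin (eo (δ + 1) k - c)) _ 3 b _ _ (by simp) (by simp)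
    (by
      simp only [Fintype.card_sum, Fintype.card_fin]
      exact arB hcD hbN)
    (Sum.elim (fun i => Sum.elim (x i) 0) w) a
    (Sum.elim (Sum.elim (fun t => Sum.elim (y1 t) 0)
      (fun t => Sum.elim (Fin.cons 0 fun i => yH t (Sum.inl i)) fun i => yH t (Sum.inr i))) p) ?_
  intro f hf k1 k2 k3
  -- trace on the linear space
  have t1 : ∀ j, rl (δ + 1) (k + 2) (f j) = 0 := by
    refine hq2 (fun j => rl (δ + 1) (k + 2) (f j)) (fun j => (rl_degree _).trans (hf j))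
      (fun i j => ?_) (fun i v => ?_) (fun t j => ?_)
    · rw [eval_rl]
      exact k1 (Sum.inl i) j
    · have := k2 (Sum.inl i) (Sum.inl v)
      simp only [eval_rl_pderiv]
      exact this
    · rw [eval_rl]
      exact k3 (Sum.inl (Sum.inl t)) j
  have t2 : ∀ j (z : Fin (δ + 1) → ℂ), eval (Sum.elim z 0) (f j) = 0 := fun j z => by
    rw [← eval_rl, t1, map_zero]
  -- the hyperplane
  have t3 : ∀ j (z : Fin (δ + 1) ⊕ Fin (k + 2) → ℂ), z (Sum.inl 0) = 0 → eval z (f j) = 0 := by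
    intro j z hz
    obtain ⟨h, hd, he⟩ := hX1 (f j)
    have h0 : h = 0 := by
      refine hyH h (hd.trans (hf j)) (fun s => ?_) (fun t => ?_)
      · rw [he, t2]
      · have e1 : yH t = Sum.elim (fun i => yH t (Sum.inl i)) fun i => yH t (Sum.inr i) := by
          funext v
          rcases v with v | v <;> rfl
        rw [e1, he]
        exact k3 (Sum.inl (Sum.inr t)) j
    have e2 : z = Sum.elim (Fin.cons 0 fun i : Fin δ => z (Sum.inl i.succ))
        fun i => z (Sum.inr i) := by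
      funext v
      rcases v with v | v
      · refine Fin.cases ?_ (fun i => ?_) v
        · exact hz
        · rfl
      · rfl
    rw [e2, ← he, h0, map_zero]
  have t4 := fun j => hX2 2 (f j) (hf j) (t3 j)
  choose g hg hfg using t4
  have t5 : RC x a w p g := by
    refine ⟨fun j z => ?_, fun i t => ?_, fun l j => ?_, fun l v => ?_, fun t j => ?_⟩
    · have e1 : rl (δ + 1) (k + 2) (g j) = 0 := by
        have := t1 j
        rw [hfg, map_mul, rl_inl] at this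
        exact (mul_eq_zero.1 this).resolve_left (X_ne_zero 0)
      rw [← eval_rl, e1, map_zero]
    · have e1 := k2 (Sum.inl i) (Sum.inr t)
      have e2 : ∀ j, eval (Sum.elim (x i) 0) (pderiv (Sum.inr t) (f j)) =
          x i 0 * eval (Sum.elim (x i) 0) (pderiv (Sum.inr t) (g j)) := by
        intro j
        have e3 := k1 (Sum.inl i) j
        rw [hfg] at e3 ⊢
        exact (hX3 (g j) (Sum.elim (x i) 0) (hq3 i) e3).2 (Sum.inr t)
      simp only [Sum.elim_inl, e2] at e1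
      have e4 : ∀ j, a (Sum.inl i) j * (x i 0 * eval (Sum.elim (x i) 0)
          (pderiv (Sum.inr t) (g j))) = x i 0 * (a (Sum.inl i) j * eval (Sum.elim (x i) 0)
          (pderiv (Sum.inr t) (g j))) := fun j => by ring
      simp only [e4, ← Finset.mul_sum] at e1
      exact (mul_eq_zero.1 e1).resolve_left (hq3 i)
    · have e3 := k1 (Sum.inr l) j
      rw [hfg] at e3
      exact (hX3 (g j) (w l) (hq4 l) e3).1
    · have e1 := k2 (Sum.inr l) v
      have e2 : ∀ j, eval (w l) (pderiv v (f j)) =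
          w l (Sum.inl 0) * eval (w l) (pderiv v (g j)) := by
        intro j
        have e3 := k1 (Sum.inr l) j
        rw [hfg] at e3 ⊢
        exact (hX3 (g j) (w l) (hq4 l) e3).2 v
      simp only [Sum.elim_inr, e2] at e1
      have e4 : ∀ j, a (Sum.inr l) j * (w l (Sum.inl 0) * eval (w l) (pderiv v (g j))) =
          w l (Sum.inl 0) * (a (Sum.inr l) j * eval (w l) (pderiv v (g j))) := fun j => by ring
      simp only [e4, ← Finset.mul_sum] at e1
      exact (mul_eq_zero.1 e1).resolve_left (hq4 l)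
    · have e3 := k3 (Sum.inr t) j
      rw [hfg] at e3
      exact (hX3 (g j) (p t) (hq5 t) e3).1
  intro j
  rw [hfg, hq1 g hg t5 j, mul_zero]

end Pool.Agent.WarQ
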