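import Pool.Agent.WarQ.Stmts

/-!
# Computations with the explicit quadrics (module LG)
-/

set_option autoImplicit false

open Module MvPolynomial
open Pool.Agent.War Pool.Agent.WarS

namespace Pool.Agent.WarQ

namespace LGaux

variable {D k : ℕ}

theorem eval_qq (γ₁ : Fin k → ℂ) (γ₂ : Fin D → ℂ) (p : Fin D ⊕ Fin k → ℂ) :
    eval p (qq γ₁ γ₂) = (∑ i : Fin k, γ₁ i * (p (Sum.inr i) *
      (1 - ∑ j : Fin D, hh i j * p (Sum.inl j) - p (Sum.inr i)))) +
      ∑ j : Fin D, γ₂ j * (p (Sum.inl j) * ∑ i : Fin k, hh i j * p (Sum.inr i)) := by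
  unfold qq
  simp only [map_add, map_sum, map_mul, map_sub, map_one, eval_C, eval_X]

theorem eval_inr (γ₁ : Fin k → ℂ) (γ₂ : Fin D → ℂ) (p : Fin D ⊕ Fin k → ℂ) (t : Fin k) :
    eval p (pderiv (Sum.inr t) (qq γ₁ γ₂)) =
      γ₁ t * (1 - (∑ j : Fin D, hh t j * p (Sum.inl j)) - 2 * p (Sum.inr t)) +
      ∑ j : Fin D, γ₂ j * (p (Sum.inl j) * hh t j) := by
  unfold qq
  simp only [map_add, map_sum, Derivation.leibniz, map_sub, pderiv_C, pderiv_X, map_one,
    Derivation.map_one_eq_zero, smul_eq_mul, map_mul, eval_C, eval_X, map_zero, mul_zero,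
    add_zero, Pi.single_apply, apply_ite (eval p), Sum.inl.injEq, Sum.inr.injEq, reduceCtorEq,
    if_false, Finset.sum_const_zero, mul_ite, mul_one, Finset.sum_ite_eq', Finset.mem_univ, if_true]
  congr 1
  rw [Finset.sum_eq_single t]
  · rw [if_pos rfl, if_pos rfl]
    ring
  · intro x _ hx
    rw [if_neg hx, if_neg hx]
    ring
  · intro h
    exact absurd (Finset.mem_univ t) h

theorem eval_inl (γ₁ : Fin k → ℂ) (γ₂ : Fin D → ℂ) (p : Fin D ⊕ Fin k → ℂ) (t : Fin D) :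
    eval p (pderiv (Sum.inl t) (qq γ₁ γ₂)) =
      (- ∑ i : Fin k, γ₁ i * (p (Sum.inr i) * hh i t)) +
      γ₂ t * ∑ i : Fin k, hh i t * p (Sum.inr i) := by
  unfold qq
  simp only [map_add, map_sum, Derivation.leibniz, map_sub, pderiv_C, pderiv_X, map_one,
    Derivation.map_one_eq_zero, smul_eq_mul, map_mul, eval_C, eval_X, map_zero, mul_zero,
    add_zero, Pi.single_apply, apply_ite (eval p), Sum.inl.injEq, Sum.inr.injEq, reduceCtorEq,
    if_false, Finset.sum_const_zero, mul_ite, mul_one, Finset.sum_ite_eq', Finset.mem_univ, if_true]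
  congr 1
  · rw [← Finset.sum_neg_distrib]
    refine Finset.sum_congr rfl fun i _ => ?_
    ring
  · rw [Finset.sum_eq_single t]
    · rw [if_pos rfl]
      ring
    · intro x _ hx
      rw [if_neg hx]
      ring
    · intro h
      exact absurd (Finset.mem_univ t) h

/-! ### numbers -/

theorem hh_cast (i j : ℕ) : hh i j = (((i : ℝ) + (j : ℝ) + 1)⁻¹ : ℝ) := by
  unfold hh
  push_cast
  rfl

theorem hh_ne (i j : ℕ) : hh i j ≠ 0 := by
  rw [hh_cast]
  have : (((i : ℝ) + (j : ℝ) + 1)⁻¹ : ℝ) ≠ 0 := by positivity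
  exact_mod_cast this

theorem sq_ne (i i' j : ℕ) : hh i j ^ 2 + hh i' j ^ 2 ≠ 0 := by
  rw [hh_cast, hh_cast]
  have : ((((i : ℝ) + (j : ℝ) + 1)⁻¹ : ℝ)) ^ 2 + ((((i' : ℝ) + (j : ℝ) + 1)⁻¹ : ℝ)) ^ 2 ≠ 0 := by
    positivity
  exact_mod_cast this

/-- the number `ξ` -/
noncomputable def xi (i j : ℕ) : ℂ :=
  (hh 0 j + hh (i + 1) j) / (hh 0 j ^ 2 + hh (i + 1) j ^ 2)

theorem xi_mul (i j : ℕ) :
    xi i j * (hh 0 j ^ 2 + hh (i + 1) j ^ 2) = hh 0 j + hh (i + 1) j :=
  div_mul_cancel₀ _ (sq_ne 0 (i + 1) j)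

theorem sum_ne (i j : ℕ) : hh 0 j + hh (i + 1) j ≠ 0 := by
  rw [hh_cast, hh_cast]
  have : ((((0 : ℕ) : ℝ) + (j : ℝ) + 1)⁻¹ : ℝ) + (((((i + 1 : ℕ) : ℝ)) + (j : ℝ) + 1)⁻¹ : ℝ) ≠ 0 := by
    positivity
  exact_mod_cast this

theorem xi_ne (i j : ℕ) : xi i j ≠ 0 := div_ne_zero (sum_ne i j) (sq_ne 0 (i + 1) j)

theorem inv_hh (i j : ℕ) : hh i j * ((i : ℂ) + (j : ℂ) + 1) = 1 := by
  unfold hh
  apply inv_mul_cancel₀
  have : ((i : ℝ) + (j : ℝ) + 1 : ℝ) ≠ 0 := by positivity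
  exact_mod_cast this

/-- `hh 1 j ≠ hh 0 j` -/
theorem ab_ne (j : ℕ) : hh 1 j - hh 0 j ≠ 0 := by
  intro h
  have h0 := inv_hh 0 j
  have h1 := inv_hh 1 j
  have h2 : hh 1 j = 0 := by
    push_cast at h0 h1
    linear_combination h1 - h0 - ((0 : ℂ) + j + 1) * h
  exact hh_ne 1 j h2

/-- `y_0` at the point `pb j 0` -/
theorem y0 (j : ℕ) : (1 - xi 0 j * hh 0 j) * (hh 0 j ^ 2 + hh 1 j ^ 2) =
    hh 1 j * (hh 1 j - hh 0 j) := by
  have h := xi_mul 0 j
  rw [zero_add] at h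
  linear_combination (- hh 0 j) * h

theorem y1 (j : ℕ) : (1 - xi 0 j * hh 1 j) * (hh 0 j ^ 2 + hh 1 j ^ 2) =
    hh 0 j * (hh 0 j - hh 1 j) := by
  have h := xi_mul 0 j
  rw [zero_add] at h
  linear_combination (- hh 1 j) * h

theorem y0_ne (j : ℕ) : 1 - xi 0 j * hh 0 j ≠ 0 := by
  intro h
  have h1 := y0 j
  rw [h, zero_mul] at h1
  exact mul_ne_zero (hh_ne 1 j) (ab_ne j) h1.symm

theorem y1_ne (j : ℕ) : 1 - xi 0 j * hh 1 j ≠ 0 := by
  intro h
  have h1 := y1 j
  rw [h, zero_mul] at h1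
  refine mul_ne_zero (hh_ne 0 j) ?_ h1.symm
  intro h2
  apply ab_ne j
  linear_combination -h2

/-- the bracket in direction `x_l`, `l ≠ j` -/
theorem br_ne (l j : ℕ) (hlj : l ≠ j) :
    hh 0 l * (1 - xi 0 j * hh 0 j) + hh 1 l * (1 - xi 0 j * hh 1 j) ≠ 0 := by
  intro h
  have h1 := y0 j
  have h2 := y1 j
  have h3 : (hh 1 j - hh 0 j) * (hh 0 l * hh 1 j - hh 1 l * hh 0 j) = 0 := by
    linear_combination (hh 0 j ^ 2 + hh 1 j ^ 2) * h - hh 0 l * h1 - hh 1 l * h2
  have h4 := (mul_eq_zero.mp h3).resolve_left (ab_ne j)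
  have a1 := inv_hh 0 l
  have a2 := inv_hh 1 l
  have a3 := inv_hh 0 j
  have a4 := inv_hh 1 j
  push_cast at a1 a2 a3 a4
  have h5 : (j : ℂ) - l = 0 := by
    have e : (hh 0 l * ((0 : ℂ) + l + 1)) * (hh 1 j * (1 + j + 1)) * ((1 + l + 1) * (0 + j + 1)) -
        (hh 1 l * ((1 : ℂ) + l + 1)) * (hh 0 j * (0 + j + 1)) * ((0 + l + 1) * (1 + j + 1)) = 0 := by
      linear_combination (((0 : ℂ) + l + 1) * (1 + j + 1) * ((1 + l + 1) * (0 + j + 1))) * h4
    rw [a1, a2, a3, a4] at e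
    linear_combination e
  apply hlj
  have h6 : (j : ℂ) = (l : ℂ) := sub_eq_zero.mp h5
  exact (Nat.cast_injective h6).symm

/-- `1 - ξ hh t j ≠ 0` for `t ≥ 2` -/
theorem yt_ne (t j : ℕ) (ht : 2 ≤ t) : 1 - xi 0 j * hh t j ≠ 0 := by
  intro h
  have a1 := inv_hh 0 j
  have a2 := inv_hh 1 j
  have a3 := inv_hh t j
  have h1 := xi_mul 0 j
  rw [zero_add] at h1
  push_cast at a1 a2
  -- `a² + b² = (a + b) h`
  have h2 : hh 0 j ^ 2 + hh 1 j ^ 2 = (hh 0 j + hh 1 j) * hh t j := by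
    linear_combination (hh 0 j ^ 2 + hh 1 j ^ 2) * h + hh t j * h1
  have e : (hh 0 j * ((0 : ℂ) + j + 1)) ^ 2 * ((1 : ℂ) + j + 1) ^ 2 * ((t : ℂ) + j + 1) +
      (hh 1 j * ((1 : ℂ) + j + 1)) ^ 2 * ((0 : ℂ) + j + 1) ^ 2 * ((t : ℂ) + j + 1) -
      ((hh 0 j * ((0 : ℂ) + j + 1)) * (1 + j + 1) + (hh 1 j * ((1 : ℂ) + j + 1)) * (0 + j + 1)) *
        ((0 : ℂ) + j + 1) * (1 + j + 1) * (hh t j * ((t : ℂ) + j + 1)) = 0 := by
    linear_combination (((0 : ℂ) + j + 1) ^ 2 * (1 + j + 1) ^ 2 * ((t : ℂ) + j + 1)) * h2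
  rw [a1, a2, a3] at e
  have e2 : ((t * (2 * (j + 1) ^ 2 + 2 * (j + 1) + 1) : ℕ) : ℂ) = (((j + 1) ^ 2 : ℕ) : ℂ) := by
    push_cast
    linear_combination e
  have e3 : t * (2 * (j + 1) ^ 2 + 2 * (j + 1) + 1) = (j + 1) ^ 2 := Nat.cast_injective e2
  nlinarith [Nat.zero_le j, Nat.zero_le ((j + 1) ^ 2)]

/-! ### the points -/

theorem pb_inl {D k : ℕ} (j : Fin D) (i : Fin (k + 1)) (l : Fin D) :
    pb j i (Sum.inl l) = if l = j then xi i j else 0 := rfl

theorem pb_inr {D k : ℕ} (j : Fin D) (i : Fin (k + 1)) (t : Fin (k + 2)) :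
    pb j i (Sum.inr t) = if t = 0 then 1 - xi i j * hh 0 j
      else if t.val = i.val + 1 then 1 - xi i j * hh (i.val + 1) j else 0 := rfl

theorem sum_pb {D k : ℕ} (j : Fin D) (i : Fin (k + 1)) (f : Fin D → ℂ) :
    ∑ l : Fin D, f l * pb j i (Sum.inl l) = f j * xi i j := by
  rw [Finset.sum_eq_single j]
  · rw [pb_inl, if_pos rfl]
  · intro l _ hl
    rw [pb_inl, if_neg hl, mul_zero]
  · intro h
    exact absurd (Finset.mem_univ j) h

theorem sum_pb' {D k : ℕ} (j : Fin D) (i : Fin (k + 1)) (f : Fin (k + 2) → ℂ) :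
    ∑ t : Fin (k + 2), f t * pb j i (Sum.inr t) =
      f 0 * (1 - xi i j * hh 0 j) + f i.succ * (1 - xi i j * hh (i.val + 1) j) := by
  rw [Fin.sum_univ_succ, Finset.sum_eq_single i]
  · rw [pb_inr, if_pos rfl, pb_inr, if_neg (Fin.succ_ne_zero i), if_pos (Fin.val_succ i)]
  · intro t _ ht
    have h1 : (t.succ).val ≠ i.val + 1 := by
      rw [Fin.val_succ]
      intro e
      exact ht (Fin.ext (by omega))
    rw [pb_inr, if_neg (Fin.succ_ne_zero t), if_neg h1, mul_zero]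
  · intro h
    exact absurd (Finset.mem_univ i) h

end LGaux

open LGaux

theorem x_LG : S_LG := by
  intro D k γ₁ γ₂
  refine ⟨⟨?_, ?_, ?_⟩, ?_, ?_⟩
  · intro i l
    rw [eval_qq]
    have h1 : ∀ j : Fin D, pa (D := D) i l (Sum.inl j) = 0 := fun j => rfl
    have h2 : ∀ t, pa (D := D) i l (Sum.inr t) = if t = i ∨ t = l then 1 else 0 := fun t => rfl
    simp only [h1, h2, mul_zero, zero_mul, Finset.sum_const_zero, sub_zero, add_zero]
    refine Finset.sum_eq_zero fun t _ => ?_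
    by_cases h : t = i ∨ t = l
    · rw [if_pos h]
      ring
    · rw [if_neg h]
      ring
  · intro j i
    rw [eval_qq]
    have hA : ∀ t : Fin (k + 2), (pb j i (Sum.inr t) * (1 - ∑ l : Fin D, hh t l *
        pb j i (Sum.inl l) - pb j i (Sum.inr t))) = 0 := by
      intro t
      rw [sum_pb j i (fun l => hh t l), pb_inr]
      by_cases h0 : t = 0
      · rw [if_pos h0, h0]
        have : ((0 : Fin (k + 2)) : ℕ) = 0 := rfl
        rw [this]
        ring
      · rw [if_neg h0]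
        by_cases h1 : t.val = i.val + 1
        · rw [if_pos h1, h1]
          ring
        · rw [if_neg h1]
          ring
    have hB : ∀ l : Fin D, pb j i (Sum.inl l) * ∑ t : Fin (k + 2), hh t l *
        pb j i (Sum.inr t) = 0 := by
      intro l
      rw [pb_inl]
      by_cases h : l = j
      · rw [if_pos h, h, sum_pb' j i (fun t => hh t j)]
        have h1 := xi_mul i j
        have h2 : ((0 : Fin (k + 2)) : ℕ) = 0 := rfl
        have h3 : ((i.succ : Fin (k + 2)) : ℕ) = i.val + 1 := rfl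
        simp only [h2, h3]
        linear_combination (- xi i j) * h1
      · rw [if_neg h, zero_mul]
    simp only [hA, hB, mul_zero, Finset.sum_const_zero, add_zero]
  · intro x
    rw [eval_qq]
    simp
  · intro x i
    rw [eval_inr]
    simp only [Sum.elim_inl, Sum.elim_inr, Pi.zero_apply, mul_zero, sub_zero]
    congr 1
    refine Finset.sum_congr rfl fun j _ => ?_
    ring
  · intro j hv
    have hr : ∀ t : Fin (k + 2), γ₁ t * (1 - hh t j * xi 0 j - 2 * pb j (0 : Fin (k + 1))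
        (Sum.inr t)) + γ₂ j * (hh t j * xi 0 j) = 0 := by
      intro t
      have h := hv (Sum.inr t)
      rw [eval_inr, sum_pb j 0 (fun l => hh t l)] at h
      have h2 : ∑ l : Fin D, γ₂ l * (pb j (0 : Fin (k + 1)) (Sum.inl l) * hh t l) =
          γ₂ j * (hh t j * xi 0 j) := by
        have := sum_pb j (0 : Fin (k + 1)) (fun l => γ₂ l * hh t l)
        refine (Finset.sum_congr rfl fun l _ => ?_).trans (this.trans (mul_assoc _ _ _))
        ring
      rw [h2] at h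
      exact h
    have hl : ∀ l : Fin D, - (γ₁ 0 * hh 0 l * (1 - xi 0 j * hh 0 j) +
        γ₁ 1 * hh 1 l * (1 - xi 0 j * hh 1 j)) +
        γ₂ l * (hh 0 l * (1 - xi 0 j * hh 0 j) + hh 1 l * (1 - xi 0 j * hh 1 j)) = 0 := by
      intro l
      have h := hv (Sum.inl l)
      rw [eval_inl, sum_pb' j 0 (fun t => hh t l)] at h
      have h2 : ∑ t : Fin (k + 2), γ₁ t * (pb j (0 : Fin (k + 1)) (Sum.inr t) * hh t l) =
          γ₁ 0 * hh 0 l * (1 - xi 0 j * hh 0 j) + γ₁ 1 * hh 1 l * (1 - xi 0 j * hh 1 j) := by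
        have := sum_pb' j (0 : Fin (k + 1)) (fun t => γ₁ t * hh t l)
        exact (Finset.sum_congr rfl fun t _ => by ring).trans this
      rw [h2] at h
      exact h
    have hj := hl j
    have h0 := hr 0
    have h1 := hr 1
    have v0 : pb j (0 : Fin (k + 1)) (Sum.inr (0 : Fin (k + 2))) = 1 - xi 0 j * hh 0 j := rfl
    have v1 : pb j (0 : Fin (k + 1)) (Sum.inr (1 : Fin (k + 2))) = 1 - xi 0 j * hh 1 j := rfl
    have w0 : ((0 : Fin (k + 2)) : ℕ) = 0 := rfl
    have w1 : ((1 : Fin (k + 2)) : ℕ) = 1 := rfl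
    rw [v0, w0] at h0
    rw [v1, w1] at h1
    have hx := xi_mul 0 j
    rw [zero_add] at hx
    have hg : γ₂ j * (hh 0 j + hh 1 j) = 0 := by
      linear_combination (-1) * hj + hh 0 j * h0 + hh 1 j * h1 - 2 * γ₂ j * hx
    have hsum := sum_ne 0 j
    rw [zero_add] at hsum
    have hγj : γ₂ j = 0 := (mul_eq_zero.mp hg).resolve_right hsum
    rw [hγj] at h0 h1
    have hγ0 : γ₁ 0 = 0 := by
      have : γ₁ 0 * (1 - xi 0 j * hh 0 j) = 0 := by linear_combination (-1) * h0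
      exact (mul_eq_zero.mp this).resolve_right (y0_ne j)
    have hγ1 : γ₁ 1 = 0 := by
      have : γ₁ 1 * (1 - xi 0 j * hh 1 j) = 0 := by linear_combination (-1) * h1
      exact (mul_eq_zero.mp this).resolve_right (y1_ne j)
    constructor
    · funext t
      rw [Pi.zero_apply]
      by_cases ht : 2 ≤ t.val
      · have h := hr t
        have vt : pb j (0 : Fin (k + 1)) (Sum.inr t) = 0 := by
          rw [pb_inr, if_neg, if_neg]
          · show ¬ t.val = 0 + 1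
            omega
          · intro e
            rw [e] at ht
            exact absurd ht (by show ¬ 2 ≤ 0; omega)
        rw [vt, hγj] at h
        have h' : γ₁ t * (1 - xi 0 j * hh t j) = 0 := by linear_combination h
        exact (mul_eq_zero.mp h').resolve_right (yt_ne t j ht)
      · have ht' : t = 0 ∨ t = 1 := by
          have h3 : t.val = 0 ∨ t.val = 1 := by omega
          rcases h3 with h3 | h3
          · left
            exact Fin.ext h3
          · right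
            exact Fin.ext h3
        rcases ht' with rfl | rfl
        · exact hγ0
        · exact hγ1
    · funext l
      rw [Pi.zero_apply]
      by_cases h : l = j
      · rw [h]
        exact hγj
      · have h2 := hl l
        rw [hγ0, hγ1] at h2
        have h' : γ₂ l * (hh 0 l * (1 - xi 0 j * hh 0 j) +
            hh 1 l * (1 - xi 0 j * hh 1 j)) = 0 := by
          linear_combination h2
        exact (mul_eq_zero.mp h').resolve_right (br_ne l j fun e => h (Fin.ext e))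

end Pool.Agent.WarQ

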