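import Pool.Agent.WarQ.Stmts

/-!
# Simultaneous Waring decompositions (MP_db021c_ag): points on the hyperplane   (helper50)

Cubics in the variables `Fin δ ⊕ Fin K` which vanish on `{y = 0}`.
-/

set_option autoImplicit false

open Module MvPolynomial
open Pool.Agent.War

namespace Pool.Agent.WarQ

namespace LHaux

theorem resL_surjective (n d : ℕ) : Function.Surjective (resL n d) := by
  intro f
  refine ⟨⟨rename Fin.succ (f : MvPolynomial (Fin n) ℂ),
    mem_Pol.2 ((totalDegree_rename_le _ _).trans (mem_Pol.1 f.2))⟩, ?_⟩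
  apply Subtype.ext
  rw [resL_coe]
  have h : ∀ g : MvPolynomial (Fin n) ℂ, res n (rename Fin.succ g) = g := by
    intro g
    rw [res, aeval_rename]
    have e : ((Fin.cons 0 X : Fin (n + 1) → MvPolynomial (Fin n) ℂ) ∘ Fin.succ) = X := by
      funext i
      simp
    rw [e, aeval_X_left, AlgHom.id_apply]
  exact h _

theorem finrank_Pol_ge (n : ℕ) : ∀ d, NN n d ≤ finrank ℂ (Pol n d) := by
  have hpos : ∀ m d : ℕ, 1 ≤ finrank ℂ (Pol m d) := by
    intro m d
    have : Nontrivial (Pol m d) := by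
      refine ⟨⟨⟨C 1, mem_Pol.2 (by simp)⟩, 0, fun h => ?_⟩⟩
      have := congrArg Subtype.val h
      simp at this
    exact Module.finrank_pos
  induction n with
  | zero =>
    intro d
    rw [NN_zero_left]
    exact hpos 0 d
  | succ n ihn =>
    intro d
    induction d with
    | zero =>
      rw [NN_zero_right]
      exact hpos _ _
    | succ d ihd =>
      have h := (resL n (d + 1)).finrank_range_add_finrank_ker
      rw [LinearMap.range_eq_top.2 (resL_surjective n (d + 1)), finrank_top, ker_resL] at h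
      have h1 : finrank ℂ (LinearMap.range (mulX n d)) = finrank ℂ (Pol (n + 1) d) :=
        LinearMap.finrank_range_of_inj (mulX_injective n d)
      have h3 := ihn (d + 1)
      rw [NN_succ]
      omega

variable (δ K : ℕ)

/-- cubics -/
noncomputable abbrev V : Submodule ℂ (MvPolynomial (Fin δ ⊕ Fin K) ℂ) :=
  restrictTotalDegree (Fin δ ⊕ Fin K) ℂ 3

/-- change of the names of the variables -/
noncomputable def nam : V δ K →ₗ[ℂ] Pol (δ + K) 3 :=
  (rename (finSumFinEquiv : Fin δ ⊕ Fin K ≃ Fin (δ + K)) :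
    MvPolynomial (Fin δ ⊕ Fin K) ℂ →ₐ[ℂ] MvPolynomial (Fin (δ + K)) ℂ).toLinearMap.restrict
    fun _ hf => mem_Pol.2 ((totalDegree_rename_le _ _).trans
      ((mem_restrictTotalDegree _ _ _).1 hf))

theorem nam_injective : Function.Injective (nam δ K) := by
  intro f g h
  have h1 : rename (finSumFinEquiv : Fin δ ⊕ Fin K ≃ Fin (δ + K))
      (f : MvPolynomial (Fin δ ⊕ Fin K) ℂ) =
    rename (finSumFinEquiv : Fin δ ⊕ Fin K ≃ Fin (δ + K))
      (g : MvPolynomial (Fin δ ⊕ Fin K) ℂ) := congrArg Subtype.val h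
  exact Subtype.ext (rename_injective _ finSumFinEquiv.injective h1)

instance : FiniteDimensional ℂ (V δ K) := FiniteDimensional.of_injective _ (nam_injective δ K)

theorem finrank_V : finrank ℂ (V δ K) ≤ NN (δ + K) 3 :=
  (LinearMap.finrank_le_finrank_of_injective (nam_injective δ K)).trans (finrank_Pol_le _ _)

/-- restriction to `{y = 0}` -/
noncomputable def rho : V δ K →ₗ[ℂ] MvPolynomial (Fin δ) ℂ :=
  (aeval (Sum.elim X 0 : Fin δ ⊕ Fin K → MvPolynomial (Fin δ) ℂ)).toLinearMap.comp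
    (V δ K).subtype

theorem eval_rho (f : V δ K) (x : Fin δ → ℂ) :
    eval x (rho δ K f) = eval (Sum.elim x 0) (f : MvPolynomial (Fin δ ⊕ Fin K) ℂ) := by
  change eval x (aeval (Sum.elim X 0 : Fin δ ⊕ Fin K → MvPolynomial (Fin δ) ℂ)
    (f : MvPolynomial (Fin δ ⊕ Fin K) ℂ)) = _
  generalize (f : MvPolynomial (Fin δ ⊕ Fin K) ℂ) = g
  induction g using MvPolynomial.induction_on with
  | C a => simp
  | add p q hp hq => rw [map_add, map_add, map_add, hp, hq]
  | mul_X p k hp =>
    rw [map_mul, map_mul, map_mul, hp]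
    rcases k with k | k
    · simp
    · simp

theorem finrank_range : NN δ 3 ≤ finrank ℂ (LinearMap.range (rho δ K)) := by
  refine (finrank_Pol_ge δ 3).trans (Submodule.finrank_mono ?_)
  intro f hf
  refine ⟨⟨rename Sum.inl f, (mem_restrictTotalDegree _ _ _).2
    ((totalDegree_rename_le _ _).trans (mem_Pol.1 hf))⟩, ?_⟩
  change aeval (Sum.elim X 0 : Fin δ ⊕ Fin K → MvPolynomial (Fin δ) ℂ) (rename Sum.inl f) = f
  rw [aeval_rename]
  have e : ((Sum.elim X 0 : Fin δ ⊕ Fin K → MvPolynomial (Fin δ) ℂ) ∘ Sum.inl) = X := by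
    funext i
    simp
  rw [e, aeval_X_left, AlgHom.id_apply]

theorem finrank_ker : finrank ℂ (LinearMap.ker (rho δ K)) ≤ NN (δ + K) 3 - NN δ 3 := by
  have h1 := (rho δ K).finrank_range_add_finrank_ker
  have h2 := finrank_V δ K
  have h3 := finrank_range δ K
  omega

/-- evaluation at a point -/
noncomputable def evq (p : Fin δ ⊕ Fin K → ℂ) : V δ K →ₗ[ℂ] ℂ :=
  (MvPolynomial.aeval p : MvPolynomial (Fin δ ⊕ Fin K) ℂ →ₐ[ℂ] ℂ).toLinearMap.comp
    (V δ K).subtype

theorem evq_apply (p : Fin δ ⊕ Fin K → ℂ) (f : V δ K) :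
    evq δ K p f = eval p (f : MvPolynomial (Fin δ ⊕ Fin K) ℂ) := by
  simp [evq, MvPolynomial.aeval_eq_eval]

end LHaux

open LHaux

theorem x_LH : S_LH := by
  intro δ K
  obtain ⟨y, hy⟩ := red (fun p => evq δ K p) (LinearMap.ker (rho δ K)) ⊥ (by
    intro w _ hw
    by_contra hcon
    push Not at hcon
    apply hw
    rw [Submodule.mem_bot]
    apply Subtype.ext
    refine MvPolynomial.funext fun p => ?_
    rw [← evq_apply, hcon p]
    simp) (NN (δ + K) 3 - NN δ 3)
  refine ⟨y, fun h hh h1 h2 => ?_⟩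
  have h3 : finrank ℂ ↥(LinearMap.ker (rho δ K) ⊓ ⨅ i, LinearMap.ker (evq δ K (y i))) = 0 := by
    have h4 := finrank_ker δ K
    have h5 : finrank ℂ (⊥ : Submodule ℂ (V δ K)) = 0 := finrank_bot _ _
    rw [h5] at hy
    omega
  have h6 := Submodule.finrank_eq_zero.1 h3
  have h7 : (⟨h, (mem_restrictTotalDegree _ _ _).2 hh⟩ : V δ K) ∈
      LinearMap.ker (rho δ K) ⊓ ⨅ i, LinearMap.ker (evq δ K (y i)) := by
    refine ⟨?_, (Submodule.mem_iInf _).2 fun i => ?_⟩
    · rw [SetLike.mem_coe, LinearMap.mem_ker]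
      refine MvPolynomial.funext fun x => ?_
      rw [eval_rho, map_zero]
      exact h1 x
    · rw [LinearMap.mem_ker, evq_apply]
      exact h2 i
  rw [h6, Submodule.mem_bot] at h7
  exact congrArg Subtype.val h7

end Pool.Agent.WarQ
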