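import Pool.Agent.WarQ.Stmts

/-!
# Module LQ: the quadrics through the linear space and the base points
-/

set_option autoImplicit false

open Module MvPolynomial
open Pool.Agent.War Pool.Agent.WarS

namespace Pool.Agent.WarQ

namespace LQaux

/-- Normal form of a quadric. -/
def QF {σ : Type} [Fintype σ] (g : MvPolynomial σ ℂ) : Prop :=
  ∃ (c : ℂ) (b : σ → ℂ) (M : σ → σ → ℂ), ∀ z : σ → ℂ,
    eval z g = c + ∑ i, b i * z i + ∑ i, ∑ j, M i j * (z i * z j)

variable {σ : Type} [Fintype σ]

lemma QF.add {f g : MvPolynomial σ ℂ} (hf : QF f) (hg : QF g) : QF (f + g) := by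
  obtain ⟨c, b, M, h⟩ := hf
  obtain ⟨c', b', M', h'⟩ := hg
  refine ⟨c + c', fun i => b i + b' i, fun i j => M i j + M' i j, fun z => ?_⟩
  rw [map_add, h, h']
  simp only [add_mul, Finset.sum_add_distrib]
  ring

lemma QF.zero : QF (0 : MvPolynomial σ ℂ) := ⟨0, 0, 0, fun z => by simp⟩

lemma QF.monomial (m : σ →₀ ℕ) (a : ℂ) (hm : m.degree ≤ 2) : QF (monomial m a) := by
  classical
  by_cases h0 : m = 0
  · subst h0
    exact ⟨a, 0, 0, fun z => by simp⟩
  obtain ⟨i, hi⟩ : ∃ i, m i ≠ 0 := by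
    by_contra hc
    push Not at hc
    exact h0 (Finsupp.ext hc)
  obtain ⟨m', rfl⟩ : ∃ m', m = Finsupp.single i 1 + m' := by
    refine ⟨m - Finsupp.single i 1, ?_⟩
    rw [add_tsub_cancel_of_le]
    exact Finsupp.single_le_iff.2 (Nat.one_le_iff_ne_zero.2 hi)
  have hd : m'.degree ≤ 1 := by
    rw [map_add, Finsupp.degree_single] at hm
    omega
  by_cases h1 : m' = 0
  · subst h1
    refine ⟨0, Pi.single i a, 0, fun z => ?_⟩
    rw [add_zero, eval_monomial]
    simp [Pi.single_apply]
  obtain ⟨j, hj⟩ : ∃ j, m' j ≠ 0 := by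
    by_contra hc
    push Not at hc
    exact h1 (Finsupp.ext hc)
  obtain ⟨m'', rfl⟩ : ∃ m'', m' = Finsupp.single j 1 + m'' := by
    refine ⟨m' - Finsupp.single j 1, ?_⟩
    rw [add_tsub_cancel_of_le]
    exact Finsupp.single_le_iff.2 (Nat.one_le_iff_ne_zero.2 hj)
  have hd2 : m''.degree = 0 := by
    rw [map_add, Finsupp.degree_single] at hd
    omega
  rw [Finsupp.degree_eq_zero_iff] at hd2
  subst hd2
  refine ⟨0, 0, fun s t => if s = i ∧ t = j then a else 0, fun z => ?_⟩
  have e : ∑ s, ∑ t, (if s = i ∧ t = j then a else 0) * (z s * z t) = a * (z i * z j) := by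
    rw [Finset.sum_eq_single i, Finset.sum_eq_single j]
    · simp
    · intro t _ ht
      simp [ht]
    · simp
    · intro s _ hs
      simp [hs]
    · simp
  rw [e, add_zero, eval_monomial, Finsupp.prod_add_index' (by simp) (by simp [pow_add])]
  simp

lemma QF.of_degree (g : MvPolynomial σ ℂ) (hg : g.totalDegree ≤ 2) : QF g := by
  classical
  rw [g.as_sum]
  have : ∀ s : Finset (σ →₀ ℕ), s ⊆ g.support → QF (∑ v ∈ s, MvPolynomial.monomial v (coeff v g)) := by
    intro s
    induction s using Finset.induction_on with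
    | empty => intro _; simpa using QF.zero
    | insert a s ha ih =>
      intro hs
      rw [Finset.sum_insert ha]
      refine (QF.monomial _ _ ?_).add (ih fun x hx => hs (Finset.mem_insert_of_mem hx))
      have h1 := le_totalDegree (hs (Finset.mem_insert_self a s))
      rw [Finsupp.sum_fintype _ _ (by simp)] at h1
      rw [Finsupp.degree_eq_sum]
      exact h1.trans hg
  exact this _ subset_rfl

end LQaux

open LQaux in
theorem x_LQ : S_LQ := by
  classical
  intro D k g hg hL hpa hpb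
  obtain ⟨c, b, M, hz⟩ := QF.of_degree g hg
  have hG : ∀ (x : Fin D → ℂ) (y : Fin (k + 2) → ℂ), eval (Sum.elim x y) g =
      ∑ i, b (Sum.inr i) * y i +
      ∑ i, ∑ j, (M (Sum.inr i) (Sum.inl j) + M (Sum.inl j) (Sum.inr i)) * (x j * y i) +
      ∑ i, ∑ l, M (Sum.inr i) (Sum.inr l) * (y i * y l) := by
    intro x y
    have h0 := hL x
    rw [hz] at h0 ⊢
    simp only [Fintype.sum_sum_type, Sum.elim_inl, Sum.elim_inr, Pi.zero_apply, mul_zero,
      zero_mul, Finset.sum_const_zero, add_zero, Finset.sum_add_distrib] at h0 ⊢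
    have e1 : ∑ j : Fin D, ∑ i : Fin (k + 2), M (Sum.inl j) (Sum.inr i) * (x j * y i) =
        ∑ i, ∑ j, M (Sum.inl j) (Sum.inr i) * (x j * y i) := Finset.sum_comm
    have e2 : ∑ i : Fin (k + 2), ∑ j : Fin D, M (Sum.inr i) (Sum.inl j) * (y i * x j) =
        ∑ i, ∑ j, M (Sum.inr i) (Sum.inl j) * (x j * y i) := by
      refine Finset.sum_congr rfl fun i _ => Finset.sum_congr rfl fun j _ => ?_
      ring
    rw [e1, e2]
    simp only [add_mul, Finset.sum_add_distrib]
    linear_combination h0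
  set α : Fin (k + 2) → ℂ := fun i => b (Sum.inr i) with hα
  set β : Fin (k + 2) → Fin D → ℂ :=
    fun i j => M (Sum.inr i) (Sum.inl j) + M (Sum.inl j) (Sum.inr i) with hβ
  set δ : Fin (k + 2) → Fin (k + 2) → ℂ := fun i l => M (Sum.inr i) (Sum.inr l) with hδ
  have hG' : ∀ (x : Fin D → ℂ) (y : Fin (k + 2) → ℂ), eval (Sum.elim x y) g =
      ∑ i, α i * y i + ∑ i, ∑ j, β i j * (x j * y i) + ∑ i, ∑ l, δ i l * (y i * y l) := hG
  have hii : ∀ i, δ i i = - α i := by
    intro i
    have h := hpa i i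
    unfold pa at h
    rw [hG'] at h
    simp only [or_self, Pi.zero_apply, zero_mul, mul_zero, Finset.sum_const_zero, add_zero,
      mul_ite, mul_one, Finset.sum_ite_eq', Finset.mem_univ, if_true, ite_mul, one_mul,
      ite_self] at h
    linear_combination h
  have hil : ∀ i l, i ≠ l → δ i l + δ l i = 0 := by
    intro i l hne
    have h := hpa i l
    unfold pa at h
    rw [hG'] at h
    have e0 : ∀ t : Fin (k + 2), (if t = i ∨ t = l then (1 : ℂ) else 0) =
        (if t = i then 1 else 0) + (if t = l then 1 else 0) := by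
      intro t
      by_cases h1 : t = i
      · subst h1; simp [hne]
      · simp [h1]
    simp only [e0] at h
    simp only [Pi.zero_apply, zero_mul, mul_zero, Finset.sum_const_zero, add_zero, mul_add, add_mul,
      mul_ite, mul_one, ite_mul, one_mul, Finset.sum_add_distrib, Finset.sum_ite_eq',
      Finset.mem_univ, if_true, ite_self] at h
    have h1 := hii i
    have h2 := hii l
    linear_combination h - h1 - h2
  have hquad : ∀ y : Fin (k + 2) → ℂ, ∑ i, ∑ l, δ i l * (y i * y l) = - ∑ i, α i * y i ^ 2 := by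
    intro y
    have e1 : ∑ i, ∑ l, δ i l * (y i * y l) = ∑ i, ∑ l, δ l i * (y i * y l) := by
      rw [Finset.sum_comm]
      refine Finset.sum_congr rfl fun i _ => Finset.sum_congr rfl fun l _ => ?_
      ring
    have e2 : ∑ i, ∑ l, (δ i l + δ l i) * (y i * y l) = ∑ i, (-2 * α i) * y i ^ 2 := by
      refine Finset.sum_congr rfl fun i _ => ?_
      rw [Finset.sum_eq_single i]
      · rw [hii i]; ring
      · intro l _ hl
        rw [hil i l (Ne.symm hl), zero_mul]
      · simp
    have e3 : ∑ i, ∑ l, (δ i l + δ l i) * (y i * y l) =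
        ∑ i, ∑ l, δ i l * (y i * y l) + ∑ i, ∑ l, δ l i * (y i * y l) := by
      simp only [add_mul, Finset.sum_add_distrib]
    rw [e3, ← e1] at e2
    have e4 : ∑ i, (-2 * α i) * y i ^ 2 = -2 * ∑ i, α i * y i ^ 2 := by
      rw [Finset.mul_sum]
      exact Finset.sum_congr rfl fun i _ => by ring
    rw [e4] at e2
    linear_combination e2 / 2
  have hG2 : ∀ (x : Fin D → ℂ) (y : Fin (k + 2) → ℂ), eval (Sum.elim x y) g =
      ∑ i, (α i * (y i * (1 - y i)) + ∑ j, β i j * (x j * y i)) := by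
    intro x y
    rw [hG', hquad, Finset.sum_add_distrib]
    have : ∑ i, α i * (y i * (1 - y i)) = ∑ i, α i * y i - ∑ i, α i * y i ^ 2 := by
      rw [← Finset.sum_sub_distrib]
      exact Finset.sum_congr rfl fun i _ => by ring
    rw [this]
    ring
  -- the numbers hh
  have hhr : ∀ (i j : ℕ), (hh i j : ℂ) = (((i : ℝ) + (j : ℝ) + 1)⁻¹ : ℝ) := by
    intro i j
    unfold hh
    push_cast
    rfl
  have key : ∀ (j : Fin D) (i : Fin (k + 2)), (β i j + α i * hh i j) * hh 0 j =
      (β 0 j + α 0 * hh 0 j) * hh i j := by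
    intro j i
    refine Fin.cases rfl (fun i => ?_) i
    have h := hpb j i
    set r : ℝ := ((0 : ℕ) + (j : ℕ) + 1 : ℝ)⁻¹ with hr
    set s : ℝ := (((i.val + 1 : ℕ) : ℝ) + ((j : ℕ) : ℝ) + 1)⁻¹ with hs
    have hr0 : 0 < r := by positivity
    have hs0 : 0 < s := by positivity
    have hrs : s < r := by
      rw [hr, hs]
      apply inv_strictAnti₀ (by positivity)
      push_cast
      have : (0 : ℝ) ≤ (i.val : ℝ) := Nat.cast_nonneg _
      linarith
    have ha : (hh 0 j : ℂ) = r := hhr 0 j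
    have hb : (hh (i.val + 1) j : ℂ) = s := hhr (i.val + 1) j
    have hval : (((i.succ : Fin (k + 2)) : ℕ)) = i.val + 1 := Fin.val_succ i
    set ξ : ℂ := ((r : ℂ) + s) / ((r : ℂ) ^ 2 + (s : ℂ) ^ 2) with hξ
    have hn : (r : ℂ) ^ 2 + (s : ℂ) ^ 2 ≠ 0 := by
      have : r ^ 2 + s ^ 2 ≠ 0 := by positivity
      exact_mod_cast this
    have hn1 : (r : ℂ) + s ≠ 0 := by
      have : r + s ≠ 0 := by positivity
      exact_mod_cast this
    have hn2 : (s : ℂ) - r ≠ 0 := by
      have : s - r ≠ 0 := by linarith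
      exact_mod_cast this
    have hξ0 : ξ ≠ 0 := div_ne_zero hn1 hn
    unfold pb at h
    rw [ha, hb, ← hξ, hG2] at h
    have hne : (0 : Fin (k + 2)) ≠ i.succ := (Fin.succ_ne_zero i).symm
    rw [Finset.sum_eq_add (0 : Fin (k + 2)) i.succ hne] at h
    · have e1 : ∀ t : Fin (k + 2), ∀ u : ℂ, ∑ l : Fin D, β t l * ((if l = j then ξ else 0) * u) =
          β t j * (ξ * u) := by
        intro t u
        rw [Finset.sum_eq_single j]
        · simp
        · intro l _ hl
          simp [hl]
        · simp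
      rw [e1, e1] at h
      simp only [hval, if_true, if_neg hne.symm] at h
      have h2 : ξ * ((β 0 j + α 0 * r) * (1 - ξ * r) +
          (β i.succ j + α i.succ * s) * (1 - ξ * s)) = 0 := by
        linear_combination h
      have h3 := (mul_eq_zero.1 h2).resolve_left hξ0
      have e3 : 1 - ξ * r = s * (s - r) / ((r : ℂ) ^ 2 + (s : ℂ) ^ 2) := by
        rw [hξ]
        field_simp
        ring
      have e4 : 1 - ξ * s = - (r * (s - r)) / ((r : ℂ) ^ 2 + (s : ℂ) ^ 2) := by
        rw [hξ]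
        field_simp
        ring
      rw [e3, e4] at h3
      have h4 : ((s : ℂ) - r) * ((β 0 j + α 0 * r) * s - (β i.succ j + α i.succ * s) * r) = 0 := by
        field_simp at h3
        linear_combination h3
      have h5 := (mul_eq_zero.1 h4).resolve_left hn2
      rw [hval, ha, hb]
      linear_combination -h5
    · intro t _ ht
      have ht0 : t ≠ 0 := ht.1
      have ht1 : ¬ (t.val = i.val + 1) := by
        intro h'
        exact ht.2 (Fin.ext (h'.trans hval.symm))
      simp [ht0, ht1]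
    · simp
    · simp
  refine ⟨α, fun j => (β 0 j + α 0 * hh 0 j) / hh 0 j, ?_⟩
  apply MvPolynomial.funext
  intro z
  obtain ⟨x, y, rfl⟩ : ∃ (x : Fin D → ℂ) (y : Fin (k + 2) → ℂ), z = Sum.elim x y :=
    ⟨z ∘ Sum.inl, z ∘ Sum.inr, (Sum.elim_comp_inl_inr z).symm⟩
  have hne : ∀ j : Fin D, (hh 0 j : ℂ) ≠ 0 := by
    intro j
    rw [hhr]
    have : (((0 : ℕ) : ℝ) + ((j : ℕ) : ℝ) + 1)⁻¹ ≠ 0 := by positivity
    exact_mod_cast this
  have key' : ∀ (j : Fin D) (i : Fin (k + 2)), (β 0 j + α 0 * hh 0 j) / hh 0 j * hh i j =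
      β i j + α i * hh i j := by
    intro j i
    have h := key j i
    have h1 := hne j
    rw [div_mul_eq_mul_div, div_eq_iff h1]
    exact h.symm
  rw [hG2]
  unfold qq
  simp only [map_add, map_sum, map_mul, eval_C, eval_X, map_sub, map_one, Sum.elim_inl,
    Sum.elim_inr]
  have e1 : ∑ j : Fin D, (β 0 j + α 0 * hh 0 j) / hh 0 j * (x j * ∑ i : Fin (k + 2), hh i j * y i) =
      ∑ i : Fin (k + 2), ∑ j : Fin D, (β i j + α i * hh i j) * (x j * y i) := by
    rw [Finset.sum_comm]
    refine Finset.sum_congr rfl fun j _ => ?_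
    rw [Finset.mul_sum, Finset.mul_sum]
    refine Finset.sum_congr rfl fun i _ => ?_
    rw [← key' j i]
    ring
  rw [e1, ← Finset.sum_add_distrib]
  refine Finset.sum_congr rfl fun i _ => ?_
  have e2 : ∑ j : Fin D, (β i j + α i * hh i j) * (x j * y i) =
      ∑ j : Fin D, β i j * (x j * y i) + α i * y i * ∑ j : Fin D, hh i j * x j := by
    rw [Finset.mul_sum, ← Finset.sum_add_distrib]
    exact Finset.sum_congr rfl fun j _ => by ring
  rw [e2]
  ring

end Pool.Agent.WarQ
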