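import Pool.Agent.WarQ.Stmts

/-!
# Module LR: the residual lemma for the linear space
-/

set_option autoImplicit false

open Module MvPolynomial
open Pool.Agent.War Pool.Agent.WarS

namespace Pool.Agent.WarQ

namespace LRaux

/-- A vector orthogonal to `b` of the vectors `(τ^0, ..., τ^(b-1))` is `0`. -/
lemma vdm {b : ℕ} {I : Type} (τ : I → ℂ) (hτ : Function.Injective τ) (γ : Fin b → ℂ)
    (S : Finset I) (hS : b ≤ S.card) (h : ∀ s ∈ S, ∑ j : Fin b, τ s ^ (j : ℕ) * γ j = 0) :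
    γ = 0 := by
  obtain ⟨t, ht, hc⟩ := Finset.exists_subset_card_eq hS
  let e := t.equivFinOfCardEq hc
  refine Matrix.eq_zero_of_forall_index_sum_pow_mul_eq_zero
    (f := fun i => τ ((e.symm i : t) : I)) ?_ ?_
  · intro i j hij
    exact e.symm.injective (Subtype.ext (hτ hij))
  · intro i
    exact h _ (ht (e.symm i).2)

/-- `qq` is linear. -/
lemma qq_sum {D k b : ℕ} (a : Fin b → ℂ) (γ₁ : Fin b → Fin k → ℂ) (γ₂ : Fin b → Fin D → ℂ) :
    ∑ j, C (a j) * qq (γ₁ j) (γ₂ j) =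
      qq (fun t => ∑ j, a j * γ₁ j t) (fun l => ∑ j, a j * γ₂ j l) := by
  unfold qq
  simp only [mul_add, Finset.sum_add_distrib, Finset.mul_sum, map_sum, Finset.sum_mul, C_mul]
  congr 1
  · rw [Finset.sum_comm]
    refine Finset.sum_congr rfl fun t _ => Finset.sum_congr rfl fun j _ => ?_
    ring
  · rw [Finset.sum_comm]
    refine Finset.sum_congr rfl fun l _ => ?_
    rw [Finset.sum_comm]
    refine Finset.sum_congr rfl fun t _ => Finset.sum_congr rfl fun j _ => ?_
    ring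

lemma pderiv_sum {σ : Type} {b : ℕ} (a : Fin b → ℂ) (f : Fin b → MvPolynomial σ ℂ) (v : σ)
    (z : σ → ℂ) : eval z (pderiv v (∑ j, C (a j) * f j)) =
      ∑ j, a j * eval z (pderiv v (f j)) := by
  rw [map_sum, map_sum]
  refine Finset.sum_congr rfl fun j _ => ?_
  rw [Derivation.leibniz, pderiv_C, smul_zero, add_zero, smul_eq_mul, map_mul, eval_C]

/-- the base points with their names -/
noncomputable def bp {D k : ℕ} : (Fin D × Fin (k + 1)) ⊕ Sym2 (Fin (k + 2)) →
    (Fin D ⊕ Fin (k + 2) → ℂ) :=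
  Sum.elim (fun q => pb q.1 q.2) fun s => pa (Quot.out s).1 (Quot.out s).2

lemma pa_comm {D k : ℕ} (i l : Fin k) : (pa i l : Fin D ⊕ Fin k → ℂ) = pa l i := by
  unfold pa
  congr 1
  funext t
  simp only [or_comm]

lemma bp_pa {D k : ℕ} (i l : Fin (k + 2)) :
    (bp (Sum.inr s(i, l)) : Fin D ⊕ Fin (k + 2) → ℂ) = pa i l := by
  unfold bp
  rw [Sum.elim_inr]
  have h : s((Quot.out s(i, l)).1, (Quot.out s(i, l)).2) = s(i, l) := Quot.out_eq s(i, l)
  rcases Sym2.eq_iff.1 h with ⟨h1, h2⟩ | ⟨h1, h2⟩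
  · rw [h1, h2]
  · rw [h1, h2, pa_comm]

end LRaux

open LRaux in
theorem x_LR (hN : S_NOD) (hQ : S_LQ) (hG : S_LG) (hC : S_CYC) : S_LR := by
  classical
  intro D k b c _ hcD _ hbD
  obtain ⟨S, hS1, hS2⟩ := hC (D + (k + 2)) b c D (Nat.le_add_right _ _) hbD
  let e : Fin D ⊕ Fin (k + 2) ≃ Fin (D + (k + 2)) := finSumFinEquiv
  let S₁ : Fin b → Finset (Fin (k + 2)) := fun i => Finset.univ.filter fun t => e (Sum.inr t) ∈ S i
  let S₂ : Fin b → Finset (Fin D) := fun i => Finset.univ.filter fun t => e (Sum.inl t) ∈ S i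
  have hcard : ∀ i, (S₁ i).card + (S₂ i).card = D := by
    intro i
    have h0 : ((S i).map e.symm.toEmbedding).card = D := by rw [Finset.card_map, hS1 i]
    have h1 : (S i).map e.symm.toEmbedding = (S₂ i).disjSum (S₁ i) := by
      ext q
      rw [Finset.mem_map_equiv, Equiv.symm_symm]
      rcases q with q | q
      · rw [Finset.inl_mem_disjSum, Finset.mem_filter]
        exact ⟨fun h => ⟨Finset.mem_univ _, h⟩, fun h => h.2⟩
      · rw [Finset.inr_mem_disjSum, Finset.mem_filter]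
        exact ⟨fun h => ⟨Finset.mem_univ _, h⟩, fun h => h.2⟩
    rw [h1, Finset.card_disjSum] at h0
    omega
  choose x hx0 hx1 hx2 using fun i => hN D (k + 2) (S₁ i) (S₂ i) (hcard i)
  let τ : Fin b ⊕ Fin c → ℂ := fun s => (((finSumFinEquiv s : Fin (b + c)) : ℕ) : ℂ)
  have hτ : Function.Injective τ := by
    intro s t hst
    exact finSumFinEquiv.injective (Fin.ext (Nat.cast_injective hst))
  let W : Fin c → (Fin D × Fin (k + 1)) ⊕ Sym2 (Fin (k + 2)) :=
    fun l => Sum.inl (Fin.castLE hcD l, 0)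
  have hW : Function.Injective W := by
    intro l l' h
    have h1 := congrArg Prod.fst (Sum.inl_injective h)
    exact Fin.castLE_injective hcD h1
  let R : Finset ((Fin D × Fin (k + 1)) ⊕ Sym2 (Fin (k + 2))) := (Finset.univ.image W)ᶜ
  have hR : R.card = eo D k - c := by
    rw [Finset.card_compl, Finset.card_image_of_injective _ hW, Finset.card_univ,
      Fintype.card_fin, Fintype.card_sum, Fintype.card_prod, Fintype.card_fin, Fintype.card_fin,
      Sym2.card, Fintype.card_fin]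
    rfl
  let E := R.equivFinOfCardEq hR
  refine ⟨x, fun s j => τ s ^ (j : ℕ), fun l => bp (W l), fun t => bp ((E.symm t : R) :
    (Fin D × Fin (k + 1)) ⊕ Sym2 (Fin (k + 2))), fun g hg hRC => ?_⟩
  obtain ⟨r1, r2, r3, r4, r5⟩ := hRC
  have hall : ∀ q j, eval (bp q) (g j) = 0 := by
    intro q j
    by_cases hq : q ∈ R
    · have h1 : eval (bp ((E.symm (E ⟨q, hq⟩) : R) :
          (Fin D × Fin (k + 1)) ⊕ Sym2 (Fin (k + 2)))) (g j) = 0 := r5 (E ⟨q, hq⟩) j
      rwa [Equiv.symm_apply_apply] at h1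
    · rw [Finset.mem_compl, not_not, Finset.mem_image] at hq
      obtain ⟨l, -, rfl⟩ := hq
      exact r3 l j
  have hqq : ∀ j, ∃ γ₁ γ₂, g j = qq γ₁ γ₂ := by
    intro j
    refine hQ D k (g j) (hg j) (r1 j) (fun i l => ?_) fun j' i => ?_
    · rw [← bp_pa]
      exact hall _ j
    · exact hall (Sum.inl (j', i)) j
  choose γ₁ γ₂ hγ using hqq
  have hsum : ∀ (a : Fin b → ℂ) (v : Fin D ⊕ Fin (k + 2)) (z : Fin D ⊕ Fin (k + 2) → ℂ),
      ∑ j, a j * eval z (pderiv v (g j)) =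
        eval z (pderiv v (qq (fun t => ∑ j, a j * γ₁ j t) (fun l => ∑ j, a j * γ₂ j l))) := by
    intro a v z
    rw [← qq_sum, pderiv_sum]
    exact Finset.sum_congr rfl fun j _ => by rw [hγ j]
  -- full points
  have hF : ∀ l : Fin c, (∀ t, ∑ j : Fin b, τ (Sum.inr l) ^ (j : ℕ) * γ₁ j t = 0) ∧
      ∀ m, ∑ j : Fin b, τ (Sum.inr l) ^ (j : ℕ) * γ₂ j m = 0 := by
    intro l
    have h := (hG D k (fun t => ∑ j : Fin b, τ (Sum.inr l) ^ (j : ℕ) * γ₁ j t)
      (fun m => ∑ j : Fin b, τ (Sum.inr l) ^ (j : ℕ) * γ₂ j m)).2.2 (Fin.castLE hcD l)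
      (fun v => by
        rw [← hsum]
        exact r4 l v)
    exact ⟨fun t => congrFun h.1 t, fun m => congrFun h.2 m⟩
  -- points of the linear space
  have hL : ∀ i : Fin b,
      (∀ t, t ∉ S₁ i → ∑ j : Fin b, τ (Sum.inl i) ^ (j : ℕ) * γ₁ j t = 0) ∧
      ∀ m, m ∉ S₂ i → ∑ j : Fin b, τ (Sum.inl i) ^ (j : ℕ) * γ₂ j m = 0 := by
    intro i
    set Γ₁ : Fin (k + 2) → ℂ := fun t => ∑ j : Fin b, τ (Sum.inl i) ^ (j : ℕ) * γ₁ j t with hΓ₁
    set Γ₂ : Fin D → ℂ := fun m => ∑ j : Fin b, τ (Sum.inl i) ^ (j : ℕ) * γ₂ j m with hΓ₂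
    have h1 : ∀ t : Fin (k + 2), Γ₁ t * (1 - ∑ j : Fin D, hh t j * x i j) +
        ∑ j : Fin D, hh t j * (Γ₂ j * x i j) = 0 := by
      intro t
      rw [← (hG D k Γ₁ Γ₂).2.1 (x i) t, hΓ₁, hΓ₂, ← hsum]
      exact r2 i t
    have h2 := hx2 i (fun t => Γ₁ t * (1 - ∑ j : Fin D, hh t j * x i j))
      (fun j => Γ₂ j * x i j) (fun t ht => by
        show Γ₁ t * (1 - ∑ j : Fin D, hh t j * x i j) = 0
        rw [(hx1 i t).2 ht, sub_self, mul_zero])
      (fun j hj => by
        show Γ₂ j * x i j = 0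
        rw [(hx0 i j).2 hj, mul_zero]) h1
    refine ⟨fun t ht => ?_, fun m hm => ?_⟩
    · have h3 : Γ₁ t * (1 - ∑ j : Fin D, hh t j * x i j) = 0 := congrFun h2.1 t
      refine (mul_eq_zero.1 h3).resolve_right fun h4 => ht ((hx1 i t).1 ?_)
      exact (sub_eq_zero.1 h4).symm
    · have h3 : Γ₂ m * x i m = 0 := congrFun h2.2 m
      exact (mul_eq_zero.1 h3).resolve_right fun h4 => hm ((hx0 i m).1 h4)
  -- every vector is orthogonal to many vectors
  have hcount : ∀ r : Fin (D + (k + 2)),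
      b ≤ (Finset.univ.filter fun s : Fin b ⊕ Fin c => ∀ i, s = Sum.inl i → r ∉ S i).card := by
    intro r
    have h1 : (Finset.univ.filter fun s : Fin b ⊕ Fin c => ∀ i, s = Sum.inl i → r ∉ S i) =
        (Finset.univ.filter fun i : Fin b => ¬ r ∈ S i).disjSum (Finset.univ : Finset (Fin c)) := by
      ext s
      rw [Finset.mem_filter]
      rcases s with s | s
      · rw [Finset.inl_mem_disjSum, Finset.mem_filter]
        constructor
        · rintro ⟨-, h⟩
          exact ⟨Finset.mem_univ _, h s rfl⟩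
        · rintro ⟨-, h⟩
          refine ⟨Finset.mem_univ _, fun i hi => ?_⟩
          rw [← Sum.inl_injective hi]
          exact h
      · rw [Finset.inr_mem_disjSum]
        exact ⟨fun _ => Finset.mem_univ _, fun _ => ⟨Finset.mem_univ _, fun i hi =>
          absurd hi (by simp)⟩⟩
    rw [h1, Finset.card_disjSum, Finset.card_univ, Fintype.card_fin]
    have h2 := hS2 r
    have h3 := Finset.card_filter_add_card_filter_not (s := (Finset.univ : Finset (Fin b)))
      (fun i => r ∈ S i)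
    rw [Finset.card_univ, Fintype.card_fin] at h3
    omega
  have hz1 : ∀ t, (fun j => γ₁ j t) = 0 := by
    intro t
    refine vdm τ hτ _ _ (hcount (e (Sum.inr t))) fun s hs => ?_
    have hs' := (Finset.mem_filter.1 hs).2
    rcases s with i | l
    · refine (hL i).1 t fun ht => hs' i rfl (Finset.mem_filter.1 ht).2
    · exact (hF l).1 t
  have hz2 : ∀ m, (fun j => γ₂ j m) = 0 := by
    intro m
    refine vdm τ hτ _ _ (hcount (e (Sum.inl m))) fun s hs => ?_
    have hs' := (Finset.mem_filter.1 hs).2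
    rcases s with i | l
    · refine (hL i).2 m fun ht => hs' i rfl (Finset.mem_filter.1 ht).2
    · exact (hF l).2 m
  intro j
  rw [hγ j]
  unfold qq
  have h1 : ∀ t, γ₁ j t = 0 := fun t => congrFun (hz1 t) j
  have h2 : ∀ m, γ₂ j m = 0 := fun m => congrFun (hz2 m) j
  simp only [h1, h2, map_zero, zero_mul, Finset.sum_const_zero, add_zero]

end Pool.Agent.WarQ
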