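import Pool.Agent.WarQ.Stmts

/-!
# Simultaneous Waring decompositions (MP_db021c_ag): `S_LR` is a generic property   (helper48)
-/

set_option autoImplicit false

open Module MvPolynomial
open Pool.Agent.War Pool.Agent.WarS

namespace Pool.Agent.WarQ

namespace LSaux

variable {D k b c e : ℕ}

/-- polynomials of degree `≤ 2` vanishing on `Λ` -/
noncomputable def WW (D k : ℕ) : Submodule ℂ (MvPolynomial (Fin D ⊕ Fin k) ℂ) :=
  restrictTotalDegree (Fin D ⊕ Fin k) ℂ 2 ⊓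
    ⨅ x : Fin D → ℂ, LinearMap.ker
      (MvPolynomial.aeval (Sum.elim x 0) : MvPolynomial (Fin D ⊕ Fin k) ℂ →ₐ[ℂ] ℂ).toLinearMap

theorem mem_WW {f : MvPolynomial (Fin D ⊕ Fin k) ℂ} :
    f ∈ WW D k ↔ f.totalDegree ≤ 2 ∧ ∀ x : Fin D → ℂ, eval (Sum.elim x 0) f = 0 := by
  unfold WW
  rw [Submodule.mem_inf, mem_restrictTotalDegree, Submodule.mem_iInf]
  refine and_congr_right fun _ => forall_congr' fun x => ?_
  rw [LinearMap.mem_ker, AlgHom.toLinearMap_apply, MvPolynomial.aeval_eq_eval]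

instance finRes : FiniteDimensional ℂ (restrictTotalDegree (Fin D ⊕ Fin k) ℂ 2) := by
  have hfin : Set.Finite {m : (Fin D ⊕ Fin k) →₀ ℕ | (m.sum fun _ e => e) ≤ 2} := by
    refine Set.Finite.subset (Finset.finite_toSet (Finset.Iic (Finsupp.equivFunOnFinite.symm
      (fun _ => 2) : (Fin D ⊕ Fin k) →₀ ℕ))) fun m hm => ?_
    rw [Finset.mem_coe, Finset.mem_Iic]
    intro i
    have : m i ≤ m.sum fun _ e => e := by
      by_cases hi : i ∈ m.support
      · exact Finset.single_le_sum (f := fun i => m i) (fun _ _ => Nat.zero_le _) hi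
      · simp [Finsupp.notMem_support_iff.1 hi]
    exact this.trans hm
  have : Finite {m : (Fin D ⊕ Fin k) →₀ ℕ | (m.sum fun _ e => e) ≤ 2} := hfin
  exact Module.Finite.of_basis
    (basisRestrictSupport ℂ {m : (Fin D ⊕ Fin k) →₀ ℕ | (m.sum fun _ e => e) ≤ 2})

instance finWW : FiniteDimensional ℂ (WW D k) :=
  Submodule.finiteDimensional_of_le (inf_le_left :
    WW D k ≤ restrictTotalDegree (Fin D ⊕ Fin k) ℂ 2)

/-- evaluation -/
noncomputable def evL (z : Fin D ⊕ Fin k → ℂ) : WW D k →ₗ[ℂ] ℂ :=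
  (MvPolynomial.aeval z : MvPolynomial (Fin D ⊕ Fin k) ℂ →ₐ[ℂ] ℂ).toLinearMap.comp
    (WW D k).subtype

/-- evaluation of a derivative -/
noncomputable def dvL (v : Fin D ⊕ Fin k) (z : Fin D ⊕ Fin k → ℂ) : WW D k →ₗ[ℂ] ℂ :=
  (MvPolynomial.aeval z : MvPolynomial (Fin D ⊕ Fin k) ℂ →ₐ[ℂ] ℂ).toLinearMap.comp
    ((pderiv v).toLinearMap.comp (WW D k).subtype)

theorem evL_apply (z : Fin D ⊕ Fin k → ℂ) (f : WW D k) :
    evL z f = eval z (f : MvPolynomial (Fin D ⊕ Fin k) ℂ) := by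
  simp [evL, MvPolynomial.aeval_eq_eval]

theorem dvL_apply (v : Fin D ⊕ Fin k) (z : Fin D ⊕ Fin k → ℂ) (f : WW D k) :
    dvL v z f = eval z (pderiv v (f : MvPolynomial (Fin D ⊕ Fin k) ℂ)) := by
  simp [dvL, MvPolynomial.aeval_eq_eval]

/-- the parameters -/
abbrev QQ (D k b c e : ℕ) : Type := (Fin b → Fin D → ℂ) × (Fin b ⊕ Fin c → Fin b → ℂ) ×
  (Fin c → Fin D ⊕ Fin k → ℂ) × (Fin e → Fin D ⊕ Fin k → ℂ)

theorem lp_x (i : Fin b) (s : Fin D) : LP (K := ℂ) (X := QQ D k b c e) fun q => q.1 i s :=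
  LP.linear (X := QQ D k b c e)
    { toFun := fun q => q.1 i s, map_add' := fun _ _ => rfl, map_smul' := fun _ _ => rfl }

theorem lp_a (i : Fin b ⊕ Fin c) (j : Fin b) :
    LP (K := ℂ) (X := QQ D k b c e) fun q => q.2.1 i j :=
  LP.linear (X := QQ D k b c e)
    { toFun := fun q => q.2.1 i j, map_add' := fun _ _ => rfl, map_smul' := fun _ _ => rfl }

theorem lp_w (l : Fin c) (v : Fin D ⊕ Fin k) :
    LP (K := ℂ) (X := QQ D k b c e) fun q => q.2.2.1 l v :=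
  LP.linear (X := QQ D k b c e)
    { toFun := fun q => q.2.2.1 l v, map_add' := fun _ _ => rfl, map_smul' := fun _ _ => rfl }

theorem lp_p (t : Fin e) (v : Fin D ⊕ Fin k) :
    LP (K := ℂ) (X := QQ D k b c e) fun q => q.2.2.2 t v :=
  LP.linear (X := QQ D k b c e)
    { toFun := fun q => q.2.2.2 t v, map_add' := fun _ _ => rfl, map_smul' := fun _ _ => rfl }

theorem lp_evx (i : Fin b) (f : MvPolynomial (Fin D ⊕ Fin k) ℂ) :
    LP (K := ℂ) (X := QQ D k b c e) fun q => eval (Sum.elim (q.1 i) 0) f := by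
  have h := LP.eval (K := ℂ) (X := QQ D k b c e) f
    (Z := fun v q => (Sum.elim (q.1 i) 0 : Fin D ⊕ Fin k → ℂ) v) (by
      rintro (s | s)
      · exact lp_x i s
      · exact LP.const 0)
  exact h

theorem lp_evw (l : Fin c) (f : MvPolynomial (Fin D ⊕ Fin k) ℂ) :
    LP (K := ℂ) (X := QQ D k b c e) fun q => eval (q.2.2.1 l) f := by
  have h := LP.eval (K := ℂ) (X := QQ D k b c e) f (Z := fun v q => q.2.2.1 l v) (lp_w l)
  exact h

theorem lp_evp (t : Fin e) (f : MvPolynomial (Fin D ⊕ Fin k) ℂ) :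
    LP (K := ℂ) (X := QQ D k b c e) fun q => eval (q.2.2.2 t) f := by
  have h := LP.eval (K := ℂ) (X := QQ D k b c e) f (Z := fun v q => q.2.2.2 t v) (lp_p t)
  exact h

/-- a weighted sum of derivatives -/
noncomputable def sd (v : Fin D ⊕ Fin k) (α : Fin b → ℂ) (z : Fin D ⊕ Fin k → ℂ) :
    (Fin b → WW D k) →ₗ[ℂ] ℂ :=
  ∑ j, α j • (dvL v z).comp (LinearMap.proj j)

theorem sd_apply (v : Fin D ⊕ Fin k) (α : Fin b → ℂ) (z : Fin D ⊕ Fin k → ℂ)
    (g : Fin b → WW D k) :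
    sd v α z g = ∑ j, α j * eval z (pderiv v (g j : MvPolynomial (Fin D ⊕ Fin k) ℂ)) := by
  simp only [sd, LinearMap.sum_apply, LinearMap.smul_apply, LinearMap.comp_apply,
    LinearMap.proj_apply, dvL_apply, smul_eq_mul]

/-- the tuples with the conditions -/
noncomputable def ZZ (q : QQ D k b c e) : Submodule ℂ (Fin b → WW D k) :=
  ((⨅ r : Fin b × Fin k, LinearMap.ker
      (sd (Sum.inr r.2) (q.2.1 (Sum.inl r.1)) (Sum.elim (q.1 r.1) 0))) ⊓
    ⨅ r : Fin c × Fin b, LinearMap.ker ((evL (q.2.2.1 r.1)).comp (LinearMap.proj r.2))) ⊓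
  ((⨅ r : Fin c × (Fin D ⊕ Fin k), LinearMap.ker
      (sd r.2 (q.2.1 (Sum.inr r.1)) (q.2.2.1 r.1))) ⊓
    ⨅ r : Fin e × Fin b, LinearMap.ker ((evL (q.2.2.2 r.1)).comp (LinearMap.proj r.2)))

theorem mem_ZZ (q : QQ D k b c e) (g : Fin b → WW D k) : g ∈ ZZ q ↔
    RC q.1 q.2.1 q.2.2.1 q.2.2.2 fun j => (g j : MvPolynomial (Fin D ⊕ Fin k) ℂ) := by
  unfold ZZ RC
  simp only [Submodule.mem_inf, Submodule.mem_iInf, LinearMap.mem_ker, sd_apply,
    LinearMap.comp_apply, LinearMap.proj_apply, evL_apply, Prod.forall]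
  constructor
  · rintro ⟨⟨h1, h2⟩, h3, h4⟩
    exact ⟨fun j => (mem_WW.1 (g j).2).2, h1, h2, h3, h4⟩
  · rintro ⟨-, h1, h2, h3, h4⟩
    exact ⟨⟨h1, h2⟩, h3, h4⟩

theorem pk : PK (K := ℂ) fun q : QQ D k b c e => ZZ q := by
  refine PK.inf (PK.inf (PK.iInf fun r => PK.one
      (φ := fun q : QQ D k b c e => sd (Sum.inr r.2) (q.2.1 (Sum.inl r.1))
        (Sum.elim (q.1 r.1) 0)) fun g => ?_)
    (PK.iInf fun r => PK.one (φ := fun q : QQ D k b c e =>
      ((evL (q.2.2.1 r.1)).comp (LinearMap.proj r.2) : (Fin b → WW D k) →ₗ[ℂ] ℂ)) fun g => ?_))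
    (PK.inf (PK.iInf fun r => PK.one
      (φ := fun q : QQ D k b c e => sd r.2 (q.2.1 (Sum.inr r.1)) (q.2.2.1 r.1)) fun g => ?_)
    (PK.iInf fun r => PK.one (φ := fun q : QQ D k b c e =>
      ((evL (q.2.2.2 r.1)).comp (LinearMap.proj r.2) : (Fin b → WW D k) →ₗ[ℂ] ℂ)) fun g => ?_))
  · simp only [sd_apply]
    exact LP.sum _ fun j _ => (lp_a _ _).mul (lp_evx _ _)
  · simp only [LinearMap.comp_apply, LinearMap.proj_apply, evL_apply]
    exact lp_evw _ _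
  · simp only [sd_apply]
    exact LP.sum _ fun j _ => (lp_a _ _).mul (lp_evw _ _)
  · simp only [LinearMap.comp_apply, LinearMap.proj_apply, evL_apply]
    exact lp_evp _ _

end LSaux

open LSaux

theorem x_LS (hR : S_LR) : S_LS := by
  intro D k b c h1 h2 h3 h4
  obtain ⟨x, a, w, p, h⟩ := hR D k b c h1 h2 h3 h4
  refine ((pk (D := D) (k := k + 2) (b := b) (c := c) (e := eo D k - c)).gen_bot
    (x₀ := (x, a, w, p)) ?_).mono fun q hq g hg hRC => ?_
  · rw [eq_bot_iff]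
    intro g hg
    have hg' := (mem_ZZ _ _).1 hg
    rw [Submodule.mem_bot]
    funext j
    exact Subtype.ext (h _ (fun j => (mem_WW.1 (g j).2).1) hg' j)
  · have hz : (fun j => (⟨g j, mem_WW.2 ⟨hg j, hRC.1 j⟩⟩ : WW D (k + 2))) ∈ ZZ q :=
      (mem_ZZ _ _).2 hRC
    have hz' : ZZ q = ⊥ := hq
    rw [hz', Submodule.mem_bot] at hz
    intro j
    exact congrArg Subtype.val (congrFun hz j)

end Pool.Agent.WarQ
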