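import Pool.Agent.WarQ.Stmts
import Pool.Agent.War.C1

/-!
# Simultaneous Waring decompositions (MP_db021c_ag): trace on the linear space   (helper69)
-/

set_option autoImplicit false

open Module MvPolynomial
open Pool.Agent.War Pool.Agent.WarS

namespace Pool.Agent.WarQ

namespace LTaux

/-- value and gradient at `0` -/
noncomputable def jet (n d : ℕ) : Pol n d →ₗ[ℂ] ℂ × (Fin n → ℂ) :=
  LinearMap.prod (ev n d 0) (LinearMap.pi fun k => dv n d k 0)

theorem jet_surj (n d : ℕ) (hd : 1 ≤ d) : Function.Surjective (jet n d) := by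
  classical
  rintro ⟨c, v⟩
  have hdeg : (C c + ∑ k : Fin n, C (v k) * X k : MvPolynomial (Fin n) ℂ).totalDegree ≤ d := by
    refine (totalDegree_add _ _).trans (max_le (by rw [totalDegree_C]; omega) ?_)
    refine (totalDegree_finsetSum_le fun k _ => ?_)
    refine (totalDegree_mul _ _).trans ?_
    rw [totalDegree_C, totalDegree_X]
    omega
  refine ⟨⟨_, mem_Pol.2 hdeg⟩, ?_⟩
  unfold jet
  ext k
  · simp [ev_apply]
  · change dv n d k 0 _ = v k
    rw [dv_apply]
    have h1 : ∀ i : Fin n, pderiv k (C (v i) * X i : MvPolynomial (Fin n) ℂ) =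
        C (v i) * (if i = k then 1 else 0) := by
      intro i
      rw [pderiv_C_mul, pderiv_X]
      simp [Pi.single_apply, eq_comm]
    have h2 : ∀ i : Fin n, eval (0 : Fin n → ℂ) (C (v i) * (if i = k then 1 else 0) :
        MvPolynomial (Fin n) ℂ) = if i = k then v i else 0 := by
      intro i
      split_ifs <;> simp
    simp only [map_add, map_sum, h1, h2, pderiv_C, zero_add]
    rw [Finset.sum_ite_eq' Finset.univ k v, if_pos (Finset.mem_univ k)]

theorem GG_one_point (n d : ℕ) (hd : 1 ≤ d) : GG n d 1 := by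
  refine ⟨fun _ => 0, ?_⟩
  have h1 := LinearMap.finrank_range_add_finrank_ker (jet n d)
  have h2 : finrank ℂ (LinearMap.range (jet n d)) = n + 1 := by
    rw [LinearMap.range_eq_top.2 (jet_surj n d hd), finrank_top, Module.finrank_prod,
      Module.finrank_self, Module.finrank_fintype_fun_eq_card, Fintype.card_fin, add_comm]
  have h3 : Dbl n d Finset.univ (fun _ : Fin 1 => (0 : Fin n → ℂ)) =
      LinearMap.ker (jet n d) := by
    ext f
    rw [mem_Dbl, LinearMap.mem_ker]
    constructor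
    · rintro ⟨k1, k2⟩
      refine Prod.ext ?_ ?_
      · exact (ev_apply _ _).trans (k1 0)
      · funext k
        exact (dv_apply _ _ _).trans (k2 0 (Finset.mem_univ _) k)
    · intro h
      refine ⟨fun _ => ?_, fun _ _ k => ?_⟩
      · exact (ev_apply _ _).symm.trans (congrArg Prod.fst h)
      · exact (dv_apply _ _ _).symm.trans (congrFun (congrArg Prod.snd h) k)
  rw [h3]
  have h4 := finrank_Pol_le n d
  omega

/-- the parameters in the form used by `TrC1` -/
def LL (D b e : ℕ) : ((Fin b → Fin D → ℂ) × (Fin b → Fin b → ℂ) × (Fin e → Fin D → ℂ)) →ₗ[ℂ]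
    ((Fin b ⊕ Fin e → Fin D → ℂ) × (Fin b → Fin b → ℂ)) where
  toFun q := (Sum.elim q.1 q.2.2, q.2.1)
  map_add' p q := by
    refine Prod.ext ?_ rfl
    funext i
    cases i <;> rfl
  map_smul' c q := by
    refine Prod.ext ?_ rfl
    funext i
    cases i <;> rfl

theorem LL_surj (D b e : ℕ) : Function.Surjective (LL D b e) := by
  rintro ⟨z, a⟩
  refine ⟨(fun i => z (Sum.inl i), a, fun i => z (Sum.inr i)), ?_⟩
  refine Prod.ext ?_ rfl
  funext i
  cases i <;> rfl

theorem trace (hSG : S_SG) (D b e : ℕ) (hD : 1 ≤ D) (he : NN D 3 ≤ D + (b + e)) :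
    Gen ℂ fun x : (Fin b ⊕ Fin e → Fin D → ℂ) × (Fin b → Fin b → ℂ) => TrC1 D 3 x = ⊥ := by
  classical
  obtain ⟨z0, hz0⟩ := (Gen.forall fun j : Fin b =>
    hSG D 3 (Fin b ⊕ Fin e) {Sum.inl j} hD (by
      rw [Finset.card_singleton]
      exact GG_one_point D 3 (by norm_num))).exists
  have hbot : ∀ j, Dbl D 3 {Sum.inl j} z0 = ⊥ := fun j =>
    Dbl_eq_botC1 (hz0 j) (by
      rw [Finset.card_singleton, Fintype.card_sum, Fintype.card_fin, Fintype.card_fin]
      omega)
  refine (PK_TrC1 D 3).gen_bot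
    (x₀ := (z0, fun q => (Pi.single q 1 : Fin b → ℂ))) ?_
  rw [eq_bot_iff]
  intro f hf
  obtain ⟨k1, k2⟩ := mem_TrC1.1 hf
  rw [Submodule.mem_bot]
  funext j
  have : f j ∈ Dbl D 3 {Sum.inl j} z0 := by
    refine mem_Dbl.2 ⟨fun i => k1 i j, fun i hi k => ?_⟩
    rw [Finset.mem_singleton] at hi
    subst hi
    have := k2 j k
    change eval (z0 (Sum.inl j)) (pderiv k (f j : MvPolynomial (Fin D) ℂ)) = 0
    simpa [Pi.single_apply] using this
  rw [hbot, Submodule.mem_bot] at this
  rw [this]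
  rfl

end LTaux

open LTaux in
theorem x_LT (hSG : S_SG) : S_LT := by
  intro D b hD hbD
  refine ((trace hSG D b (NN D 3 - D - b) hD (by omega)).comp (LL D b (NN D 3 - D - b))
    (LL_surj _ _ _)).mono ?_
  intro q hq f hf h1 h2 h3 j
  have hmem : (fun j => (⟨f j, mem_Pol.2 (hf j)⟩ : Pol D 3)) ∈
      TrC1 D 3 (LL D b (NN D 3 - D - b) q) := by
    refine mem_TrC1.2 ⟨?_, fun i k => h2 i k⟩
    rintro (i | i) j
    · exact h1 i j
    · exact h3 i j
  rw [hq, Submodule.mem_bot] at hmem
  exact congrArg Subtype.val (congrFun hmem j)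

end Pool.Agent.WarQ
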