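import Pool.Agent.WarQ.Stmts

/-!
# The hyperplane `x_0 = 0` in the variables `Fin (δ + 1) ⊕ Fin K`
-/

set_option autoImplicit false

open Module MvPolynomial
open Pool.Agent.War Pool.Agent.WarS

namespace Pool.Agent.WarQ

namespace LXaux

/-- the change of variables -/
def fw (δ K : ℕ) : Fin (δ + 1) ⊕ Fin K → Fin (δ + K + 1)
  | Sum.inl i => Fin.cases 0 (fun i => Fin.succ (finSumFinEquiv (Sum.inl i))) i
  | Sum.inr k => Fin.succ (finSumFinEquiv (Sum.inr k))

/-- its inverse -/
def bw (δ K : ℕ) (j : Fin (δ + K + 1)) : Fin (δ + 1) ⊕ Fin K :=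
  Fin.cases (Sum.inl 0) (fun j => Sum.map Fin.succ id (finSumFinEquiv.symm j)) j

theorem bw_fw (δ K : ℕ) (v : Fin (δ + 1) ⊕ Fin K) : bw δ K (fw δ K v) = v := by
  rcases v with i | k
  · refine Fin.cases ?_ (fun i => ?_) i
    · rfl
    · change bw δ K (Fin.succ (finSumFinEquiv (Sum.inl i))) = _
      unfold bw
      rw [Fin.cases_succ, Equiv.symm_apply_apply]
      rfl
  · change bw δ K (Fin.succ (finSumFinEquiv (Sum.inr k))) = _
    unfold bw
    rw [Fin.cases_succ, Equiv.symm_apply_apply]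
    rfl

theorem fw_bw (δ K : ℕ) (j : Fin (δ + K + 1)) : fw δ K (bw δ K j) = j := by
  refine Fin.cases ?_ (fun j => ?_) j
  · rfl
  · unfold bw
    rw [Fin.cases_succ]
    obtain ⟨v, rfl⟩ := (finSumFinEquiv (m := δ) (n := K)).surjective j
    rw [Equiv.symm_apply_apply]
    rcases v with i | k <;> rfl

/-- the equivalence -/
def ee (δ K : ℕ) : Fin (δ + 1) ⊕ Fin K ≃ Fin (δ + K + 1) :=
  ⟨fw δ K, bw δ K, bw_fw δ K, fw_bw δ K⟩

theorem hp_ee (δ K : ℕ) (x : Fin δ → ℂ) (y : Fin K → ℂ) :
    (hp (Sum.elim x y ∘ (finSumFinEquiv (m := δ) (n := K)).symm)) ∘ (ee δ K) =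
      Sum.elim (Fin.cons 0 x) y := by
  funext v
  rcases v with i | k
  · refine Fin.cases ?_ (fun i => ?_) i
    · rfl
    · change hp (Sum.elim x y ∘ (finSumFinEquiv (m := δ) (n := K)).symm)
        (Fin.succ (finSumFinEquiv (Sum.inl i))) = _
      rw [hp_succ, Function.comp_apply, Equiv.symm_apply_apply]
      rfl
  · change hp (Sum.elim x y ∘ (finSumFinEquiv (m := δ) (n := K)).symm)
      (Fin.succ (finSumFinEquiv (Sum.inr k))) = _
    rw [hp_succ, Function.comp_apply, Equiv.symm_apply_apply]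
    rfl

end LXaux

open LXaux

theorem x_LX : S_LX := by
  intro δ K
  refine ⟨fun f => ?_, fun d f hf hv => ?_, fun g p hp0 h0 => ?_⟩
  · refine ⟨rename (finSumFinEquiv (m := δ) (n := K)).symm (res (δ + K) (rename (ee δ K) f)),
      ?_, fun x y => ?_⟩
    · exact (totalDegree_rename_le _ _).trans ((res_totalDegree_le _).trans
        (totalDegree_rename_le _ _))
    · rw [eval_rename, ← eval_hp, eval_rename, hp_ee]
  · have h1 : res (δ + K) (rename (ee δ K) f) = 0 := by
      apply MvPolynomial.funext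
      intro z
      rw [← eval_hp, eval_rename, map_zero]
      exact hv _ rfl
    obtain ⟨g', hg', hfg⟩ := exists_of_res ((totalDegree_rename_le _ _).trans hf) h1
    refine ⟨rename (ee δ K).symm g', (totalDegree_rename_le _ _).trans hg', ?_⟩
    have h2 : f = rename (ee δ K).symm (rename (ee δ K) f) := by
      rw [rename_rename]
      simp
    have h3 : (ee δ K).symm 0 = Sum.inl 0 := rfl
    rw [h2, hfg, map_mul, rename_X, h3]
  · have h1 : eval p g = 0 := by
      rw [map_mul, eval_X] at h0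
      exact (mul_eq_zero.1 h0).resolve_left hp0
    refine ⟨h1, fun v => ?_⟩
    rw [Derivation.leibniz, map_add, smul_eq_mul, smul_eq_mul, map_mul, map_mul, h1, eval_X]
    ring

end Pool.Agent.WarQ
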