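import Pool.Agent.WarQ.Stmts

/-!
# The nodes (MP_db021c_ag, module NOD)
-/

set_option autoImplicit false

open Finset Polynomial

namespace Pool.Agent.WarQ

namespace NODaux

/-- the points `s_j = j + 1` -/
noncomputable def sj {D : ℕ} (j : Fin D) : ℂ := (j : ℂ) + 1

/-- the points `t_i = -i` -/
noncomputable def ti {k : ℕ} (i : Fin k) : ℂ := -(i : ℂ)

theorem sj_inj {D : ℕ} : Function.Injective (sj (D := D)) := by
  intro i j h
  unfold sj at h
  have h1 : ((i : ℕ) : ℂ) = ((j : ℕ) : ℂ) := add_right_cancel h
  exact Fin.ext (by exact_mod_cast h1)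

theorem ti_inj {k : ℕ} : Function.Injective (ti (k := k)) := by
  intro i j h
  unfold ti at h
  have h1 : ((i : ℕ) : ℂ) = ((j : ℕ) : ℂ) := neg_injective h
  exact Fin.ext (by exact_mod_cast h1)

theorem st_ne {D k : ℕ} (i : Fin k) (j : Fin D) : sj j - ti i ≠ 0 := by
  unfold sj ti
  have h : ((j : ℂ) + 1 - -(i : ℂ)) = (((j : ℕ) + 1 + (i : ℕ) : ℕ) : ℂ) := by
    push_cast
    ring
  rw [h]
  exact_mod_cast (by omega : (j : ℕ) + 1 + (i : ℕ) ≠ 0)

theorem ts_ne {D k : ℕ} (i : Fin k) (j : Fin D) : ti i ≠ sj j := fun h =>
  st_ne i j (sub_eq_zero.2 h.symm)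

theorem hh_eq {D k : ℕ} (i : Fin k) (j : Fin D) : hh i j = -(ti i - sj j)⁻¹ := by
  unfold hh sj ti
  rw [← inv_neg]
  congr 1
  ring

end NODaux

open NODaux in
/-- NOD -/
theorem x_NOD : S_NOD := by
  classical
  intro D k S₁ S₂ hc
  have hcard : S₁.card = (S₂ᶜ).card := by
    rw [Finset.card_compl, Fintype.card_fin]
    omega
  set A := S₂ᶜ with hA
  have hinjA : Set.InjOn (sj (D := D)) A := sj_inj.injOn
  have hmA : ∀ j, j ∈ A ↔ j ∉ S₂ := fun j => by rw [hA, Finset.mem_compl]
  set N : ℂ[X] := Lagrange.nodal S₁ ti with hN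
  set M : ℂ[X] := Lagrange.nodal A sj with hM
  have hdeg : (N - M).degree < A.card := by
    have h1 : N.degree = M.degree := by
      rw [hN, hM, Lagrange.degree_nodal, Lagrange.degree_nodal, hcard]
    have h2 := Polynomial.degree_sub_lt_left h1 (Lagrange.nodal_monic).ne_zero
      ((Lagrange.nodal_monic (s := S₁) (v := ti)).leadingCoeff.trans
        (Lagrange.nodal_monic (s := A) (v := sj)).leadingCoeff.symm)
    rw [hN, Lagrange.degree_nodal] at h2
    rw [← hcard]
    exact h2
  have hN0 : ∀ j : Fin D, N.eval (sj j) ≠ 0 := by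
    intro j
    rw [hN]
    exact Lagrange.eval_nodal_not_at_node fun i _ => (ts_ne i j).symm
  have hM0 : ∀ i : Fin k, M.eval (ti i) ≠ 0 := by
    intro i
    rw [hM]
    exact Lagrange.eval_nodal_not_at_node fun j _ => ts_ne i j
  have hPs : ∀ j ∈ A, (N - M).eval (sj j) = N.eval (sj j) := by
    intro j hj
    rw [eval_sub, hM, Lagrange.eval_nodal_at_node hj, sub_zero]
  refine ⟨fun j => if j ∈ A then Lagrange.nodalWeight A sj j * N.eval (sj j) else 0, ?_, ?_, ?_⟩
  · intro j
    by_cases hj : j ∈ A
    · simp only [if_pos hj]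
      constructor
      · intro h
        exact absurd h (mul_ne_zero (Lagrange.nodalWeight_ne_zero hinjA hj) (hN0 j))
      · intro h
        exact absurd h ((hmA j).1 hj)
    · simp only [if_neg hj, true_iff]
      by_contra h
      exact hj ((hmA j).2 h)
  · intro i
    have h1 : (N - M).eval (ti i) = M.eval (ti i) *
        ∑ j ∈ A, Lagrange.nodalWeight A sj j * (ti i - sj j)⁻¹ * (N - M).eval (sj j) := by
      have e := Lagrange.eq_interpolate hinjA hdeg
      have e2 := Lagrange.eval_interpolate_not_at_node (s := A) (v := sj (D := D))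
        (fun j => (N - M).eval (sj j)) (x := ti i) (fun j _ => ts_ne i j)
      rw [← e] at e2
      exact e2
    have h2 : ∑ j ∈ A, Lagrange.nodalWeight A sj j * (ti i - sj j)⁻¹ * (N - M).eval (sj j) =
        -∑ j : Fin D, hh i j * (if j ∈ A then Lagrange.nodalWeight A sj j * N.eval (sj j) else 0) := by
      rw [← Finset.sum_subset (Finset.subset_univ A)
        (f := fun j : Fin D => hh i j * (if j ∈ A then Lagrange.nodalWeight A sj j * N.eval (sj j) else 0))
        (fun j _ hj => by simp only [if_neg hj, mul_zero])]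
      rw [← Finset.sum_neg_distrib]
      apply Finset.sum_congr rfl
      intro j hj
      rw [if_pos hj, hPs j hj, hh_eq]
      ring
    rw [h2, eval_sub] at h1
    have h3 : N.eval (ti i) = M.eval (ti i) * (1 - ∑ j : Fin D, hh i j *
        (if j ∈ A then Lagrange.nodalWeight A sj j * N.eval (sj j) else 0)) := by
      linear_combination h1
    have h4 : N.eval (ti i) = 0 ↔ i ∈ S₁ := by
      constructor
      · intro h
        by_contra hi
        refine Lagrange.eval_nodal_not_at_node (s := S₁) (v := ti) (x := ti i) ?_ h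
        intro i' hi' he
        exact hi (ti_inj he ▸ hi')
      · intro h
        exact Lagrange.eval_nodal_at_node h
    rw [← h4, h3]
    constructor
    · intro h
      rw [h, sub_self, mul_zero]
    · intro h
      rcases mul_eq_zero.1 h with h | h
      · exact absurd h (hM0 i)
      · exact (sub_eq_zero.1 h).symm
  · intro γ₁ γ₂ h1 h2 h3
    have hz : Lagrange.interpolate A sj (fun j => γ₂ j / Lagrange.nodalWeight A sj j) = 0 := by
      apply Polynomial.eq_zero_of_degree_lt_of_eval_index_eq_zero (s := S₁) (v := ti)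
      · exact ti_inj.injOn
      · rw [hcard]
        exact Lagrange.degree_interpolate_lt _ hinjA
      · intro i hi
        rw [Lagrange.eval_interpolate_not_at_node _ (fun j _ => ts_ne i j)]
        apply mul_eq_zero_of_right
        have h4 := h3 i
        rw [h1 i hi, zero_add] at h4
        rw [← Finset.sum_subset (Finset.subset_univ A) (f := fun j : Fin D => hh i j * γ₂ j)
          (fun j _ hj => by
            have hj2 : j ∈ S₂ := by
              by_contra h
              exact hj ((hmA j).2 h)
            simp only [h2 j hj2, mul_zero])] at h4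
        have h5 : ∑ j ∈ A, Lagrange.nodalWeight A sj j * (ti i - sj j)⁻¹ *
            (γ₂ j / Lagrange.nodalWeight A sj j) = -∑ j ∈ A, hh i j * γ₂ j := by
          rw [← Finset.sum_neg_distrib]
          apply Finset.sum_congr rfl
          intro j hj
          have hw := Lagrange.nodalWeight_ne_zero hinjA hj
          rw [hh_eq]
          field_simp
        rw [h5, h4, neg_zero]
    have hg : γ₂ = 0 := by
      funext j
      by_cases hj : j ∈ A
      · have h4 := Lagrange.eval_interpolate_at_node
          (fun j => γ₂ j / Lagrange.nodalWeight A sj j) hinjA hj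
        rw [hz, eval_zero] at h4
        have hw := Lagrange.nodalWeight_ne_zero hinjA hj
        have h5 := h4.symm
        rw [div_eq_zero_iff] at h5
        rcases h5 with h5 | h5
        · exact h5
        · exact absurd h5 hw
      · apply h2 j
        by_contra h
        exact hj ((hmA j).2 h)
    refine ⟨?_, hg⟩
    funext i
    have h4 := h3 i
    rw [hg] at h4
    simpa using h4

end Pool.Agent.WarQ
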