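import Pool.Agent.WarQ.Stmts

/-!
# Cubics which vanish on a product of sets
-/

set_option autoImplicit false

open Module MvPolynomial
open Pool.Agent.War Pool.Agent.WarS

namespace Pool.Agent.WarQ

namespace PRODaux

variable {J : Type} {sz : J → ℕ}

/-- the value at a point given by its components -/
noncomputable def F (f : MvPolynomial ((j : J) × Fin (sz j)) ℂ) (p : ∀ j, Fin (sz j) → ℂ) : ℂ :=
  eval (fun v => p v.1 v.2) f

open Classical in
/-- the variables of the group `j0`, constants for the other groups -/
noncomputable def gen (j0 : J) (p : ∀ j, Fin (sz j) → ℂ) :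
    ∀ j, Fin (sz j) → MvPolynomial (Fin (sz j0)) ℂ :=
  Function.update (fun j i => C (p j i)) j0 (fun i => X i)

open Classical in
theorem eval_gen (j0 : J) (p : ∀ j, Fin (sz j) → ℂ) (x : Fin (sz j0) → ℂ) (j : J)
    (i : Fin (sz j)) : eval x (gen j0 p j i) = Function.update p j0 x j i := by
  unfold gen
  by_cases h : j = j0
  · subst h
    rw [Function.update_self, Function.update_self, eval_X]
  · rw [Function.update_of_ne h, Function.update_of_ne h, eval_C]

theorem deg_gen (j0 : J) (p : ∀ j, Fin (sz j) → ℂ) (j : J) (i : Fin (sz j)) :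
    (gen j0 p j i).totalDegree ≤ 1 := by
  classical
  unfold gen
  by_cases h : j = j0
  · subst h
    rw [Function.update_self, totalDegree_X]
  · rw [Function.update_of_ne h, totalDegree_C]
    exact Nat.zero_le 1

theorem deg_gen' (j0 : J) (p : ∀ j, Fin (sz j) → ℂ) {j : J} (hj : j ≠ j0) (i : Fin (sz j)) :
    (gen j0 p j i).totalDegree = 0 := by
  classical
  unfold gen
  rw [Function.update_of_ne hj, totalDegree_C]

/-- substitution -/
noncomputable def phi (j0 : J) (p : ∀ j, Fin (sz j) → ℂ)
    (f : MvPolynomial ((j : J) × Fin (sz j)) ℂ) : MvPolynomial (Fin (sz j0)) ℂ :=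
  eval₂ C (fun v => gen j0 p v.1 v.2) f

open Classical in
theorem eval_phi (j0 : J) (p : ∀ j, Fin (sz j) → ℂ)
    (f : MvPolynomial ((j : J) × Fin (sz j)) ℂ) (x : Fin (sz j0) → ℂ) :
    eval x (phi j0 p f) = F f (Function.update p j0 x) := by
  unfold phi F
  rw [eval₂_comp_left (eval x) C (fun v => gen j0 p v.1 v.2) f]
  have h1 : (eval x).comp (C : ℂ →+* MvPolynomial (Fin (sz j0)) ℂ) = RingHom.id ℂ := by
    ext a
    simp
  rw [h1]
  have h2 : ((eval x) ∘ fun v : (j : J) × Fin (sz j) => gen j0 p v.1 v.2) =
      fun v => Function.update p j0 x v.1 v.2 := by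
    funext v
    exact eval_gen j0 p x v.1 v.2
  rw [h2]
  rfl

/-- the degree of the image of a product -/
theorem deg_prod (j0 : J) (p : ∀ j, Fin (sz j) → ℂ) (m : ((j : J) × Fin (sz j)) →₀ ℕ) :
    (∏ v ∈ m.support, gen j0 p v.1 v.2 ^ m v).totalDegree ≤
      ∑ v ∈ m.support, m v * (gen j0 p v.1 v.2).totalDegree :=
  (totalDegree_finsetProd _ _).trans (Finset.sum_le_sum fun _ _ => totalDegree_pow _ _)

theorem deg_phi (j0 : J) (p : ∀ j, Fin (sz j) → ℂ)
    (f : MvPolynomial ((j : J) × Fin (sz j)) ℂ) (hf : f.totalDegree ≤ 3) :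
    (phi j0 p f).totalDegree ≤ 3 := by
  unfold phi
  rw [eval₂_eq]
  refine totalDegree_finsetSum_le fun m hm => ?_
  refine (totalDegree_mul _ _).trans ?_
  rw [totalDegree_C, zero_add]
  refine (deg_prod j0 p m).trans ?_
  have h1 : (m.sum fun _ e => e) ≤ 3 := (le_totalDegree hm).trans hf
  refine le_trans (Finset.sum_le_sum fun v _ => ?_) h1
  calc m v * (gen j0 p v.1 v.2).totalDegree ≤ m v * 1 :=
        Nat.mul_le_mul_left _ (deg_gen j0 p v.1 v.2)
    _ = m v := mul_one _

open Classical in
/-- differences have degree at most two -/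
theorem quad (f : MvPolynomial ((j : J) × Fin (sz j)) ℂ) (hf : f.totalDegree ≤ 3) (j0 : J)
    (p p' : ∀ j, Fin (sz j) → ℂ) : ∃ h : MvPolynomial (Fin (sz j0)) ℂ, h.totalDegree ≤ 2 ∧
      ∀ x, eval x h = F f (Function.update p j0 x) - F f (Function.update p' j0 x) := by
  refine ⟨phi j0 p f - phi j0 p' f, ?_, fun x => by rw [map_sub, eval_phi, eval_phi]⟩
  unfold phi
  rw [eval₂_eq, eval₂_eq, ← Finset.sum_sub_distrib]
  refine totalDegree_finsetSum_le fun m hm => ?_
  rw [← mul_sub]
  refine (totalDegree_mul _ _).trans ?_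
  rw [totalDegree_C, zero_add]
  have h1 : (m.sum fun _ e => e) ≤ 3 := (le_totalDegree hm).trans hf
  by_cases hv : ∃ v ∈ m.support, v.1 ≠ j0
  · obtain ⟨v0, hv0, hne⟩ := hv
    have key : ∀ p : ∀ j, Fin (sz j) → ℂ,
        (∏ v ∈ m.support, gen j0 p v.1 v.2 ^ m v).totalDegree ≤ 2 := by
      intro p
      refine (deg_prod j0 p m).trans ?_
      have h2 : (m.sum fun _ e => e) = m v0 + ∑ v ∈ m.support.erase v0, m v := by
        rw [Finsupp.sum, ← Finset.add_sum_erase _ _ hv0]
      have h3 : 1 ≤ m v0 := Nat.one_le_iff_ne_zero.2 (Finsupp.mem_support_iff.1 hv0)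
      rw [← Finset.add_sum_erase _ _ hv0, deg_gen' j0 p hne, mul_zero, zero_add]
      have h4 : ∑ v ∈ m.support.erase v0, m v * (gen j0 p v.1 v.2).totalDegree ≤
          ∑ v ∈ m.support.erase v0, m v := Finset.sum_le_sum fun v _ => by
        calc m v * (gen j0 p v.1 v.2).totalDegree ≤ m v * 1 :=
              Nat.mul_le_mul_left _ (deg_gen j0 p v.1 v.2)
          _ = m v := mul_one _
      omega
    exact (totalDegree_sub _ _).trans (max_le (key p) (key p'))
  · push Not at hv
    have h2 : ∏ v ∈ m.support, gen j0 p v.1 v.2 ^ m v =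
        ∏ v ∈ m.support, gen j0 p' v.1 v.2 ^ m v := by
      refine Finset.prod_congr rfl fun v hv' => ?_
      have h3 := hv v hv'
      obtain ⟨j, i⟩ := v
      simp only at h3
      subst h3
      unfold gen
      simp only [Function.update_self]
    rw [h2, sub_self, totalDegree_zero]
    exact Nat.zero_le 2

variable {Z : ∀ j, Set (Fin (sz j) → ℂ)}

open Classical in
/-- the values at points of `Z j0` do not depend on the point -/
theorem indep (hZ : ∀ j, ∀ f : MvPolynomial (Fin (sz j)) ℂ, f.totalDegree ≤ 2 →
      (∀ p ∈ Z j, eval p f = 0) → f = 0)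
    (f : MvPolynomial ((j : J) × Fin (sz j)) ℂ) (hf : f.totalDegree ≤ 3)
    (hv : ∀ p : ∀ j, Fin (sz j) → ℂ, (∀ j, p j ∈ Z j) → F f p = 0) (j0 : J)
    {x x' : Fin (sz j0) → ℂ} (hx : x ∈ Z j0) (hx' : x' ∈ Z j0) (B : Finset J) :
    j0 ∉ B → ∀ p : ∀ j, Fin (sz j) → ℂ, (∀ j, j ∉ B → j ≠ j0 → p j ∈ Z j) →
      F f (Function.update p j0 x) = F f (Function.update p j0 x') := by
  induction B using Finset.induction_on with
  | empty =>
    intro _ p hp
    have h : ∀ x ∈ Z j0, F f (Function.update p j0 x) = 0 := by
      intro x hx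
      apply hv
      intro j
      by_cases hj : j = j0
      · subst hj
        rw [Function.update_self]
        exact hx
      · rw [Function.update_of_ne hj]
        exact hp j (Finset.notMem_empty j) hj
    rw [h x hx, h x' hx']
  | insert k B hk ih =>
    intro hj0 p hp
    have hk0 : k ≠ j0 := fun h => hj0 (h ▸ Finset.mem_insert_self k B)
    have hB : j0 ∉ B := fun h => hj0 (Finset.mem_insert_of_mem h)
    obtain ⟨h, hh, he⟩ := quad f hf k (Function.update p j0 x) (Function.update p j0 x')
    have h0 : h = 0 := by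
      apply hZ k h hh
      intro y hy
      rw [he, Function.update_comm hk0.symm, Function.update_comm hk0.symm, sub_eq_zero]
      apply ih hB
      intro j hj hj'
      by_cases hjk : j = k
      · subst hjk
        rw [Function.update_self]
        exact hy
      · rw [Function.update_of_ne hjk]
        apply hp j _ hj'
        intro hm
        rcases Finset.mem_insert.1 hm with h1 | h1
        · exact hjk h1
        · exact hj h1
    have h1 := he (p k)
    rw [h0, map_zero, Function.update_comm hk0.symm, Function.update_comm hk0.symm,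
      Function.update_eq_self] at h1
    exact (sub_eq_zero.1 h1.symm)

open Classical in
/-- the basic decomposition -/
theorem split (hZ : ∀ j, ∀ f : MvPolynomial (Fin (sz j)) ℂ, f.totalDegree ≤ 2 →
      (∀ p ∈ Z j, eval p f = 0) → f = 0)
    (f : MvPolynomial ((j : J) × Fin (sz j)) ℂ) (hf : f.totalDegree ≤ 3)
    (hv : ∀ p : ∀ j, Fin (sz j) → ℂ, (∀ j, p j ∈ Z j) → F f p = 0) [Fintype J]
    (z : ∀ j, Fin (sz j) → ℂ) (hz : ∀ j, z j ∈ Z j) (j0 : J) (p : ∀ j, Fin (sz j) → ℂ)
    (hp : p j0 = z j0) (x : Fin (sz j0) → ℂ) :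
    F f (Function.update p j0 x) = F f p + F f (Function.update z j0 x) := by
  obtain ⟨h, hh, he⟩ := quad f hf j0 p z
  have hz0 : F f z = 0 := hv z hz
  have h0 : h - C (F f p) = 0 := by
    apply hZ j0
    · refine (totalDegree_sub _ _).trans (max_le hh ?_)
      rw [totalDegree_C]
      exact Nat.zero_le 2
    · intro y hy
      rw [map_sub, eval_C, he, sub_eq_zero]
      have h1 : F f (Function.update p j0 y) = F f (Function.update p j0 (z j0)) :=
        indep hZ f hf hv j0 hy (hz j0) (Finset.univ.erase j0) (Finset.notMem_erase _ _) p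
          (fun j hj hj' => absurd (Finset.mem_erase.2 ⟨hj', Finset.mem_univ j⟩) hj)
      have h2 : F f (Function.update z j0 y) = 0 := by
        apply hv
        intro j
        by_cases hj : j = j0
        · subst hj
          rw [Function.update_self]
          exact hy
        · rw [Function.update_of_ne hj]
          exact hz j
      rw [h1, h2, sub_zero, ← hp, Function.update_eq_self]
  have h1 := he x
  rw [sub_eq_zero.1 h0, eval_C] at h1
  rw [h1]
  ring

end PRODaux

open PRODaux in
theorem x_PROD : S_PROD := by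
  classical
  intro J _ sz Z hZ f hf hv
  have hv' : ∀ p : ∀ j, Fin (sz j) → ℂ, (∀ j, p j ∈ Z j) → F f p = 0 := hv
  have hne : ∀ j, ∃ x, x ∈ Z j := by
    intro j
    by_contra h
    push Not at h
    have := hZ j 1 (by rw [totalDegree_one]; exact Nat.zero_le 2) (fun p hp => absurd hp (h p))
    exact one_ne_zero this
  choose z hz using hne
  refine ⟨fun j => phi j z f, fun j => ⟨deg_phi j z f hf, ?_⟩, ?_⟩
  · intro x hx
    rw [eval_phi]
    apply hv'
    intro k
    by_cases hk : k = j
    · subst hk
      rw [Function.update_self]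
      exact hx
    · rw [Function.update_of_ne hk]
      exact hz k
  · apply MvPolynomial.funext
    intro w
    rw [map_sum]
    have h1 : ∀ j, eval w (rename (fun i => (⟨j, i⟩ : (j : J) × Fin (sz j))) (phi j z f)) =
        F f (Function.update z j (fun i => w ⟨j, i⟩)) := by
      intro j
      rw [eval_rename, ← eval_phi]
      rfl
    rw [Finset.sum_congr rfl fun j _ => h1 j]
    set p : ∀ j, Fin (sz j) → ℂ := fun j i => w ⟨j, i⟩ with hp
    have h2 : ∀ A : Finset J, F f (fun j => if j ∈ A then p j else z j) =
        ∑ j ∈ A, F f (Function.update z j (p j)) := by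
      intro A
      induction A using Finset.induction_on with
      | empty =>
        simp only [Finset.notMem_empty, if_false, Finset.sum_empty]
        exact hv' z hz
      | insert k A hk ih =>
        rw [Finset.sum_insert hk, ← ih]
        have h3 := split hZ f hf hv' z hz k (fun j => if j ∈ A then p j else z j)
          (by simp only [hk, if_false]) (p k)
        rw [add_comm, ← h3]
        congr 1
        funext j
        by_cases hj : j = k
        · subst hj
          rw [Function.update_self, if_pos (Finset.mem_insert_self _ _)]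
        · rw [Function.update_of_ne hj]
          by_cases hjA : j ∈ A
          · rw [if_pos hjA, if_pos (Finset.mem_insert_of_mem hjA)]
          · rw [if_neg hjA, if_neg]
            intro h
            rcases Finset.mem_insert.1 h with h | h
            · exact hj h
            · exact hjA h
    have h4 := h2 Finset.univ
    simp only [Finset.mem_univ, if_true] at h4
    rw [← h4]
    rfl

end Pool.Agent.WarQ
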