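import Pool.Agent.WarQ.Stmts

/-!
# Simultaneous Waring decompositions (MP_db021c_ag): selection of points   (helper59)
-/

set_option autoImplicit false

open Module MvPolynomial
open Pool.Agent.War Pool.Agent.WarS

namespace Pool.Agent.WarQ

namespace SELaux

/-- evaluation at a point as a functional on cubics -/
noncomputable def evc (n : ℕ) (p : Fin n → ℂ) : Pol n 3 →ₗ[ℂ] ℂ :=
  (MvPolynomial.aeval (R := ℂ) p).toLinearMap.comp (Pol n 3).subtype

theorem evc_apply (n : ℕ) (p : Fin n → ℂ) (f : Pol n 3) :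
    evc n p f = eval p (f : MvPolynomial (Fin n) ℂ) := by
  unfold evc
  rw [LinearMap.comp_apply, Submodule.subtype_apply, AlgHom.toLinearMap_apply, aeval_eq_eval]

theorem mem_ker_evc (n : ℕ) (p : Fin n → ℂ) (f : Pol n 3) :
    f ∈ LinearMap.ker (evc n p) ↔ eval p (f : MvPolynomial (Fin n) ℂ) = 0 := by
  rw [LinearMap.mem_ker, evc_apply]

/-- cubics through a family of points -/
noncomputable def thr (n : ℕ) {ι : Type} (z : ι → Fin n → ℂ) : Submodule ℂ (Pol n 3) :=
  ⨅ i, LinearMap.ker (evc n (z i))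

theorem mem_thr (n : ℕ) {ι : Type} (z : ι → Fin n → ℂ) (f : Pol n 3) :
    f ∈ thr n z ↔ ∀ i, eval (z i) (f : MvPolynomial (Fin n) ℂ) = 0 := by
  unfold thr
  rw [Submodule.mem_iInf]
  exact forall_congr' fun i => mem_ker_evc n (z i) f

/-- evaluation at finitely many points -/
noncomputable def EV (n m : ℕ) (z : Fin m → Fin n → ℂ) : Pol n 3 →ₗ[ℂ] (Fin m → ℂ) :=
  LinearMap.pi fun i => evc n (z i)

theorem EV_apply (n m : ℕ) (z : Fin m → Fin n → ℂ) (f : Pol n 3) (i : Fin m) :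
    EV n m z f i = eval (z i) (f : MvPolynomial (Fin n) ℂ) := by
  unfold EV
  rw [LinearMap.pi_apply, evc_apply]

theorem ker_EV (n m : ℕ) (z : Fin m → Fin n → ℂ) : LinearMap.ker (EV n m z) = thr n z := by
  ext f
  rw [LinearMap.mem_ker, mem_thr]
  constructor
  · intro h i
    rw [← EV_apply, h]
    rfl
  · intro h
    funext i
    rw [EV_apply, h i]
    rfl

theorem EV_surj (n m : ℕ) (z : Fin m → Fin n → ℂ)
    (hz : ∀ i, ∃ h : MvPolynomial (Fin n) ℂ, h.totalDegree ≤ 3 ∧ eval (z i) h ≠ 0 ∧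
      ∀ i', i' ≠ i → eval (z i') h = 0) : Function.Surjective (EV n m z) := by
  choose h h1 h2 h3 using hz
  intro c
  refine ⟨∑ i, (c i * (eval (z i) (h i))⁻¹) • (⟨h i, mem_Pol.2 (h1 i)⟩ : Pol n 3), ?_⟩
  funext j
  have e : EV n m z (∑ i, (c i * (eval (z i) (h i))⁻¹) • (⟨h i, mem_Pol.2 (h1 i)⟩ : Pol n 3)) j =
      ∑ i, (c i * (eval (z i) (h i))⁻¹) * eval (z j) (h i) := by
    rw [map_sum, Finset.sum_apply]
    refine Finset.sum_congr rfl fun i _ => ?_
    rw [map_smul, Pi.smul_apply, EV_apply, smul_eq_mul]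
  rw [e, Finset.sum_eq_single j]
  · rw [mul_assoc, inv_mul_cancel₀ (h2 j), mul_one]
  · intro i _ hij
    rw [h3 i j hij.symm, mul_zero]
  · intro hj
    exact absurd (Finset.mem_univ j) hj

theorem finrank_thr (n m : ℕ) (z : Fin m → Fin n → ℂ)
    (hz : ∀ i, ∃ h : MvPolynomial (Fin n) ℂ, h.totalDegree ≤ 3 ∧ eval (z i) h ≠ 0 ∧
      ∀ i', i' ≠ i → eval (z i') h = 0) :
    finrank ℂ (thr n z) + m = finrank ℂ (Pol n 3) := by
  have h := (EV n m z).finrank_range_add_finrank_ker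
  rw [LinearMap.range_eq_top.2 (EV_surj n m z hz), finrank_top, ker_EV] at h
  have h2 : finrank ℂ (Fin m → ℂ) = m := by simp
  omega

end SELaux

open SELaux

theorem x_SEL : S_SEL := by
  intro n m k Y z hY hzY hz hv
  have hNe : Nonempty Y := hY.to_subtype
  have memW' : ∀ f : Pol n 3, f ∈ thr n (fun p : Y => p.1) ↔
      ∀ p ∈ Y, eval p (f : MvPolynomial (Fin n) ℂ) = 0 := by
    intro f
    rw [mem_thr]
    exact ⟨fun h p hp => h ⟨p, hp⟩, fun h p => h p.1 p.2⟩
  have hdim := finrank_thr n m z hz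
  have hPol := finrank_Pol_le n 3
  have hk : k ≤ finrank ℂ (thr n (fun p : Y => p.1)) := by
    obtain ⟨v, hv1, hv2⟩ := hv
    let u : Fin k → thr n (fun p : Y => p.1) := fun j =>
      ⟨⟨v j, mem_Pol.2 (hv2 j).1⟩, (memW' _).2 fun p hp => (hv2 j).2 p hp⟩
    have hu : LinearIndependent ℂ u := by
      have h1 : LinearIndependent ℂ
          (((Pol n 3).subtype.comp (thr n (fun p : Y => p.1)).subtype) ∘ u) := hv1
      exact h1.of_comp _
    simpa using hu.fintype_card_le_finrank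
  obtain ⟨y, hy⟩ := red (fun p : Y => evc n p.1) (thr n z) (thr n (fun p : Y => p.1))
    (fun w _ hw' => by
      by_contra hc
      push Not at hc
      refine hw' ((memW' w).2 fun p hp => ?_)
      rw [← evc_apply]
      exact hc ⟨p, hp⟩) (NN n 3 - k - m)
  refine ⟨fun j => (y j).1, fun j => (y j).2, ?_⟩
  intro f hf hfz hfy p hp
  have hle : thr n (fun p : Y => p.1) ≤ thr n z ⊓ ⨅ i, LinearMap.ker (evc n (y i).1) := by
    refine le_inf ?_ (le_iInf fun i => iInf_le _ (y i))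
    intro g hg
    exact (mem_thr n z g).2 fun i => (memW' g).1 hg _ (hzY i)
  have hfin : finrank ℂ ↥(thr n z ⊓ ⨅ i, LinearMap.ker (evc n (y i).1)) ≤
      finrank ℂ (thr n (fun p : Y => p.1)) := by
    refine hy.trans (max_le ?_ le_rfl)
    omega
  have heq := Submodule.eq_of_le_of_finrank_le hle hfin
  have hfm : (⟨f, mem_Pol.2 hf⟩ : Pol n 3) ∈ thr n z ⊓ ⨅ i, LinearMap.ker (evc n (y i).1) := by
    refine Submodule.mem_inf.2 ⟨(mem_thr n z _).2 hfz, ?_⟩
    rw [Submodule.mem_iInf]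
    intro i
    rw [mem_ker_evc]
    exact hfy i
  rw [← heq] at hfm
  exact (memW' _).1 hfm p hp

end Pool.Agent.WarQ
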