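import Pool.Agent.WarQ.Stmts

/-!
# Module T: assembly of the first model
-/

set_option autoImplicit false

namespace Pool.Agent.WarQ

theorem x_T (hA : S_TA) (hB : S_TB) (hCA : S_CA) (hCB : S_CB) : S_T := by
  intro n b c D hc hcb hbn h1 h2 h3
  have hcD : c ≤ D := by
    have h4 : b * c < b * (D + 1) :=
      lt_of_le_of_lt (Nat.mul_le_mul_right c hbn) h2
    have := Nat.lt_of_mul_lt_mul_left h4
    omega
  have hcc : c * c ≤ b := by
    have h4 : c * c ≤ D * D := Nat.mul_le_mul hcD hcD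
    have h5 : 2 * D * D = D * D + D * D := by ring
    omega
  by_cases h : D * ((b + c - 1) / c) ≤ n
  · obtain ⟨sz, κ, k1, k2, k3, k4⟩ :=
      hCA n b c D hc hcb (by omega) (fun hD => by omega) hcc h
    exact hA n b c D sz κ (by omega) (by omega) k1 k2 k3 k4
  · obtain ⟨sz, κ, E, k1, k2, k3, k4, k5, k6⟩ :=
      hCB n b c D hc hcb hbn h1 h2 h3 (by omega)
    exact hB n b c D sz κ E (by omega) k1 k2 k3 k4 k5 k6

end Pool.Agent.WarQ
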