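import Pool.Agent.WarQ.Stmts

/-!
# The group model, case A
-/

set_option autoImplicit false

open Module MvPolynomial
open Pool.Agent.War Pool.Agent.WarS

namespace Pool.Agent.WarQ

namespace TAaux

/-- A vector orthogonal to `b` vectors `(1, i, ..., i ^ (b - 1))` is zero. -/
theorem vand {b c : ℕ} (S : Finset (Fin (b + c))) (hS : b ≤ S.card) (γ : Fin b → ℂ)
    (h : ∀ i ∈ S, ∑ j : Fin b, ((i : ℕ) : ℂ) ^ (j : ℕ) * γ j = 0) : γ = 0 := by
  classical
  let p : Polynomial ℂ := ∑ j : Fin b, Polynomial.C (γ j) * Polynomial.X ^ (j : ℕ)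
  have hinj : Function.Injective fun i : Fin (b + c) => ((i : ℕ) : ℂ) := by
    intro i i' hi
    exact Fin.ext (Nat.cast_injective (R := ℂ) hi)
  have hdeg : p.degree < (S.image fun i : Fin (b + c) => ((i : ℕ) : ℂ)).card := by
    rw [Finset.card_image_of_injective _ hinj]
    refine lt_of_lt_of_le (Polynomial.degree_sum_fin_lt γ) ?_
    exact_mod_cast hS
  have hev : ∀ x ∈ S.image (fun i : Fin (b + c) => ((i : ℕ) : ℂ)), p.eval x = 0 := by
    intro x hx
    obtain ⟨i, hi, rfl⟩ := Finset.mem_image.mp hx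
    rw [← h i hi]
    simp only [p, Polynomial.eval_finsetSum, Polynomial.eval_mul, Polynomial.eval_C,
      Polynomial.eval_pow, Polynomial.eval_X]
    exact Finset.sum_congr rfl fun j _ => mul_comm _ _
  have hp : p = 0 := Polynomial.eq_zero_of_degree_lt_of_eval_finset_eq_zero _ hdeg hev
  funext j
  have h1 : p.coeff j = γ j := by
    simp only [p, Polynomial.finsetSum_coeff, Polynomial.coeff_C_mul, Polynomial.coeff_X_pow]
    rw [Finset.sum_eq_single j]
    · simp
    · intro j' _ hj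
      rw [if_neg (fun h => hj (Fin.ext h.symm)), mul_zero]
    · intro h
      exact absurd (Finset.mem_univ j) h
  rw [← h1, hp, Polynomial.coeff_zero]
  rfl

end TAaux

open TAaux in
theorem x_TA (hR : S_GR) (hI : S_GI) (hS : S_SEL) : S_TA := by
  classical
  intro n b c D sz κ hb hD hsum hsz hcnt ⟨g₁, g₂, hdet⟩
  have hcard : Fintype.card ((g : Fin D) × Fin (sz g)) = n := by
    rw [Fintype.card_sigma]
    simpa using hsum
  let e : ((g : Fin D) × Fin (sz g)) ≃ Fin n := Fintype.equivFinOfCardEq hcard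
  obtain ⟨h1, h2, h3, h4, -⟩ := hI n D (b + c) sz e κ hsz
  have hcard' : Fintype.card ((g : Fin D) × Fin (sz g + 1)) = n + D := by
    rw [Fintype.card_sigma]
    simp only [Fintype.card_fin, Finset.sum_add_distrib, Finset.sum_const, Finset.card_univ,
      smul_eq_mul, mul_one, hsum]
  let e' : ((g : Fin D) × Fin (sz g + 1)) ≃ Fin (n + D) := Fintype.equivFinOfCardEq hcard'
  have hk : ∃ v : Fin (n + D) → MvPolynomial (Fin n) ℂ, LinearIndependent ℂ v ∧
      ∀ j, (v j).totalDegree ≤ 3 ∧ ∀ y ∈ PT e, eval y (v j) = 0 := by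
    refine ⟨fun j => ug e (e'.symm j).1 (e'.symm j).2, ?_, fun j => h2 _ _⟩
    exact h3.comp e'.symm e'.symm.injective
  obtain ⟨y, -, hy⟩ := hS n (b + c) (n + D) (PT e) (zz e κ)
    ⟨zz e κ ⟨0, by omega⟩, h1 _⟩ h1 (h4 g₁ g₂ hdet) hk
  refine ⟨zz e κ, fun i j => ((i : ℕ) : ℂ) ^ (j : ℕ), y, ?_⟩
  intro f hf hz ha hyf
  have hPT : ∀ j, ∀ p ∈ PT e, eval p (f j) = 0 := fun j =>
    hy (f j) (hf j) (fun i => hz i j) (fun i => hyf i j)
  obtain ⟨γ, hγ, hort⟩ := hR n D (b + c) b sz e κ _ f hsz hf hPT ha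
  have hγ0 : ∀ g w, γ g w = 0 := by
    intro g w
    refine vand (Finset.univ.filter fun i => κ g i ≠ w) ?_ (γ g w) fun i hi =>
      hort g w i (Finset.mem_filter.mp hi).2
    have h5 := Finset.card_filter_add_card_filter_not (s := Finset.univ)
      (fun i : Fin (b + c) => κ g i = w)
    rw [Finset.card_univ, Fintype.card_fin] at h5
    have h6 := hcnt g w
    unfold cnt at h6
    have h7 : (Finset.univ.filter fun i => κ g i ≠ w).card =
        (Finset.univ.filter fun i => ¬ κ g i = w).card := rfl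
    omega
  intro j
  rw [hγ j]
  refine Finset.sum_eq_zero fun g _ => Finset.sum_eq_zero fun w _ => ?_
  rw [hγ0 g w]
  simp

end Pool.Agent.WarQ
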