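import Pool.Agent.WarQ.Stmts

/-!
# Simultaneous Waring decompositions (MP_db021c_ag): case B of the first model   (helper61)

`D + 1` groups of variables and one more simple point.
-/

set_option autoImplicit false

open Module MvPolynomial
open Pool.Agent.War Pool.Agent.WarS

namespace Pool.Agent.WarQ

namespace TBaux

/-- a vector orthogonal to `b` of the vectors `(i^0, ..., i^(b-1))` is zero -/
theorem vander {b m : ℕ} (v : Fin b → ℂ) (S : Finset (Fin m)) (hS : b ≤ S.card)
    (h : ∀ i ∈ S, ∑ j : Fin b, ((i.val : ℂ)) ^ j.val * v j = 0) : v = 0 := by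
  classical
  set P : Polynomial ℂ := ∑ j : Fin b, Polynomial.C (v j) * Polynomial.X ^ j.val with hP
  have hdeg : P.degree < (b : ℕ) := by
    rw [hP, ← Polynomial.mem_degreeLT]
    refine Submodule.sum_mem _ fun j _ => ?_
    rw [Polynomial.mem_degreeLT]
    refine lt_of_le_of_lt (Polynomial.degree_C_mul_X_pow_le _ _) ?_
    exact_mod_cast j.2
  have hinj : Set.InjOn (fun i : Fin m => (i.val : ℂ)) S := by
    intro i _ i' _ hii
    have h1 : (i.val : ℂ) = (i'.val : ℂ) := hii
    exact Fin.ext (by exact_mod_cast h1)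
  have hP0 : P = 0 := by
    refine Polynomial.eq_zero_of_degree_lt_of_eval_finset_eq_zero
      (S.image fun i : Fin m => (i.val : ℂ)) ?_ ?_
    · rw [Finset.card_image_of_injOn hinj]
      exact lt_of_lt_of_le hdeg (by exact_mod_cast hS)
    · intro x hx
      obtain ⟨i, hi, rfl⟩ := Finset.mem_image.1 hx
      rw [hP, Polynomial.eval_finsetSum, ← h i hi]
      refine Finset.sum_congr rfl fun j _ => ?_
      rw [Polynomial.eval_mul, Polynomial.eval_C, Polynomial.eval_pow, Polynomial.eval_X, mul_comm]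
  funext j
  have h1 : P.coeff j.val = v j := by
    rw [hP, Polynomial.finsetSum_coeff, Finset.sum_eq_single j]
    · rw [Polynomial.coeff_C_mul, Polynomial.coeff_X_pow, if_pos rfl, mul_one]
    · intro k _ hk
      rw [Polynomial.coeff_C_mul, Polynomial.coeff_X_pow, if_neg fun h => hk (Fin.ext h.symm),
        mul_zero]
    · intro h
      exact absurd (Finset.mem_univ j) h
  rw [← h1, hP0, Polynomial.coeff_zero]
  rfl

/-- complement of a small class -/
theorem compl_card {b c : ℕ} (p : Fin (b + c) → Prop) [DecidablePred p]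
    (h : (Finset.univ.filter fun i => p i).card ≤ c) :
    b ≤ (Finset.univ.filter fun i => ¬ p i).card := by
  have h1 := Finset.card_filter_add_card_filter_not (s := (Finset.univ : Finset (Fin (b + c))))
    (fun i => p i)
  rw [Finset.card_univ, Fintype.card_fin] at h1
  omega

/-- independent elements in the kernel of a functional which does not vanish at one of them -/
theorem indep {Q V : Type} [Fintype Q] [DecidableEq Q] [AddCommGroup V] [Module ℂ V] (u : Q → V)
    (hu : LinearIndependent ℂ u) (q₀ : Q) (c : Q → ℂ) :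
    LinearIndependent ℂ fun q : {q // q ≠ q₀} => u q.1 - c q.1 • u q₀ := by
  rw [Fintype.linearIndependent_iff] at hu ⊢
  intro g hg
  have h1 := hu (fun q => if h : q ≠ q₀ then g ⟨q, h⟩ else -∑ q : {q // q ≠ q₀}, g q * c q.1) ?_
  · intro q
    have h2 := h1 q.1
    rw [dif_pos q.2] at h2
    exact h2
  · have h3 : ∀ F : Q → V, ∑ q, F q = F q₀ + ∑ q : {q // q ≠ q₀}, F q.1 := by
      intro F
      rw [← Finset.add_sum_erase Finset.univ F (Finset.mem_univ q₀)]
      congr 1
      refine Finset.sum_subtype _ (fun q => ?_) F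
      simp
    rw [h3]
    have h4 : ∀ q : {q // q ≠ q₀}, (if h : q.1 ≠ q₀ then g ⟨q.1, h⟩ else
        -∑ q : {q // q ≠ q₀}, g q * c q.1) • u q.1 = g q • u q.1 := by
      intro q
      rw [dif_pos q.2]
    simp only [h4]
    rw [dif_neg (fun h : q₀ ≠ q₀ => h rfl)]
    simp only [smul_sub, smul_smul, Finset.sum_sub_distrib] at hg
    rw [neg_smul, Finset.sum_smul, ← hg]
    abel

end TBaux

open TBaux in
theorem x_TB (hR : S_GR) (hI : S_GI) (hS : S_SEL) : S_TB := by
  classical
  intro n b c D sz κ E _ hsum hsz hcnt hE hEc hdet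
  have hcard : Fintype.card ((g : Fin (D + 1)) × Fin (sz g)) = n := by
    rw [Fintype.card_sigma]
    simp only [Fintype.card_fin]
    exact hsum
  let e : ((g : Fin (D + 1)) × Fin (sz g)) ≃ Fin n := Fintype.equivFinOfCardEq hcard
  obtain ⟨i1, i2, i3, i4, y₀, hy₀⟩ := hI n (D + 1) (b + c) sz e κ hsz
  obtain ⟨g₁, g₂, hg⟩ := hdet
  set a : Fin (b + c) → Fin b → ℂ := fun i j => ((i.val : ℂ)) ^ j.val with ha
  let q₀ : (g : Fin (D + 1)) × Fin (sz g + 1) := ⟨0, 0⟩
  have hcard2 : Fintype.card {q : (g : Fin (D + 1)) × Fin (sz g + 1) // q ≠ q₀} = n + D := by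
    rw [Fintype.card_subtype_compl, Fintype.card_sigma, Fintype.card_subtype_eq]
    simp only [Fintype.card_fin, Finset.sum_add_distrib, hsum, Finset.sum_const,
      Finset.card_univ, smul_eq_mul, mul_one]
    omega
  let ε : Fin (n + D) ≃ {q : (g : Fin (D + 1)) × Fin (sz g + 1) // q ≠ q₀} :=
    (Fintype.equivFinOfCardEq hcard2).symm
  let u : ((g : Fin (D + 1)) × Fin (sz g + 1)) → MvPolynomial (Fin n) ℂ := fun q => ug e q.1 q.2
  let cc : ((g : Fin (D + 1)) × Fin (sz g + 1)) → ℂ := fun q => eval y₀ (u q) / eval y₀ (u q₀)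
  have hu0 : eval y₀ (u q₀) ≠ 0 := hy₀ 0
  obtain ⟨y, hyY, hy⟩ := hS n (b + c) (n + D) (PT e ∪ {y₀}) (zz e κ) ⟨y₀, Or.inr rfl⟩
    (fun i => Or.inl (i1 i)) (i4 g₁ g₂ hg)
    ⟨fun k => u (ε k).1 - cc (ε k).1 • u q₀, by
      exact (indep u i3 q₀ cc).comp ε ε.injective, by
      intro k
      refine ⟨?_, ?_⟩
      · refine (totalDegree_sub _ _).trans (max_le (i2 _ _).1 ?_)
        refine (totalDegree_smul_le _ _).trans (i2 _ _).1
      · rintro p (hp | hp)
        · rw [map_sub, smul_eval, (i2 _ _).2 p hp, (i2 _ _).2 p hp, mul_zero, sub_zero]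
        · rw [Set.mem_singleton_iff] at hp
          subst hp
          rw [map_sub, smul_eval]
          change eval p (u (ε k).1) - eval p (u (ε k).1) / eval p (u q₀) * eval p (u q₀) = 0
          rw [div_mul_cancel₀ _ hu0, sub_self]⟩
  refine ⟨zz e κ, a, y, ?_⟩
  intro f hf h1 h2 h3
  have hfY : ∀ j, ∀ p ∈ PT e ∪ {y₀}, eval p (f j) = 0 := fun j =>
    hy (f j) (hf j) (fun i => h1 i j) fun i => h3 i j
  obtain ⟨γ, hγ, hγ'⟩ := hR n (D + 1) (b + c) b sz e κ a f hsz hf
    (fun j p hp => hfY j p (Or.inl hp)) h2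
  -- the coefficients of the cubics with `w ≠ 0`
  have hw : ∀ g w, w ≠ 0 → γ g w = 0 := by
    intro g w hw
    refine vander (γ g w) (Finset.univ.filter fun i => ¬ κ g i = w)
      (compl_card _ (hcnt g w hw)) fun i hi => ?_
    exact hγ' g w i (Finset.mem_filter.1 hi).2
  -- evaluation at `y₀`
  have hev : ∀ j, ∑ g, γ g 0 j * eval y₀ (ug e g 0) = 0 := by
    intro j
    have h4 := hfY j y₀ (Or.inr rfl)
    rw [hγ j, map_sum] at h4
    rw [← h4]
    refine Finset.sum_congr rfl fun g _ => ?_
    rw [map_sum, Finset.sum_eq_single 0]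
    · rw [map_mul, eval_C]
    · intro w _ hw0
      rw [hw g w hw0, Pi.zero_apply, C_0, zero_mul, map_zero]
    · intro h
      exact absurd (Finset.mem_univ _) h
  have hs : ∀ j' : Fin D, γ (Fin.succ j') 0 = 0 := by
    intro j'
    refine vander (γ (Fin.succ j') 0)
      (Finset.univ.filter fun i => ¬ (κ (Fin.succ j') i = 0 ∧ i ∉ E j'))
      (compl_card _ (hEc j')) fun i hi => ?_
    have hi' := (Finset.mem_filter.1 hi).2
    by_cases hk : κ (Fin.succ j') i = 0
    · have hiE : i ∈ E j' := by
        by_contra hn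
        exact hi' ⟨hk, hn⟩
      obtain ⟨e1, e2⟩ := hE j' i hiE
      have h5 : ∑ g, eval y₀ (ug e g 0) * ∑ j, a i j * γ g 0 j = 0 := by
        have h6 : ∑ j, a i j * ∑ g, γ g 0 j * eval y₀ (ug e g 0) = 0 :=
          Finset.sum_eq_zero fun j _ => by rw [hev j, mul_zero]
        rw [← h6]
        simp only [Finset.mul_sum]
        rw [Finset.sum_comm]
        refine Finset.sum_congr rfl fun j _ => Finset.sum_congr rfl fun g _ => ?_
        ring
      rw [Finset.sum_eq_single (Fin.succ j')] at h5
      · rcases mul_eq_zero.1 h5 with h7 | h7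
        · exact absurd h7 (hy₀ _)
        · exact h7
      · intro g _ hgne
        rw [mul_eq_zero]
        right
        refine hγ' g 0 i ?_
        revert hgne
        refine Fin.cases ?_ (fun g' => ?_) g
        · intro _
          exact e1
        · intro hgne
          exact e2 g' fun h => hgne (by rw [h])
      · intro h
        exact absurd (Finset.mem_univ _) h
    · exact hγ' _ 0 i hk
  have h0 : γ 0 0 = 0 := by
    funext j
    have h8 := hev j
    rw [Fin.sum_univ_succ] at h8
    simp only [hs, Pi.zero_apply, zero_mul, Finset.sum_const_zero, add_zero] at h8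
    rcases mul_eq_zero.1 h8 with h9 | h9
    · exact h9
    · exact absurd h9 (hy₀ _)
  have hall : ∀ g w, γ g w = 0 := by
    intro g w
    by_cases hw0 : w = 0
    · subst hw0
      refine Fin.cases h0 (fun g' => hs g') g
    · exact hw g w hw0
  intro j
  rw [hγ j]
  refine Finset.sum_eq_zero fun g _ => Finset.sum_eq_zero fun w _ => ?_
  rw [hall g w, Pi.zero_apply, C_0, zero_mul]

end Pool.Agent.WarQ
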