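import Pool.Agent.WarQ.Stmts

/-!
# Simultaneous Waring decompositions (MP_db021c_ag): change of names   (helper30)

The statement `S_TRP` of `Pool/Agent/WarQ/Stmts.lean`.
-/

set_option autoImplicit false

open Module MvPolynomial
open Pool.Agent.War Pool.Agent.WarS

namespace Pool.Agent.WarQ

theorem x_TRP : S_TRP := by
  intro V α β _ _ _ n d b m e hV hα hβ z a y h
  let σ : Fin n ≃ V := (Fintype.equivFinOfCardEq hV).symm
  let εα : Fin m ≃ α := (Fintype.equivFinOfCardEq hα).symm
  let εβ : Fin e ≃ β := (Fintype.equivFinOfCardEq hβ).symm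
  refine ⟨fun i k => z (εα i) (σ k), fun i => a (εα i), fun i k => y (εβ i) (σ k), ?_⟩
  intro f hf h1 h2 h3
  have key : ∀ (p : V → ℂ) (g : MvPolynomial (Fin n) ℂ),
      eval p (rename σ g) = eval (fun k => p (σ k)) g := fun p g => eval_rename σ p g
  have h0 := h (fun j => rename σ (f j)) (fun j => (totalDegree_rename_le σ (f j)).trans (hf j))
    ?_ ?_ ?_
  · intro j
    apply rename_injective σ σ.injective
    rw [map_zero]
    exact h0 j
  · intro i j
    rw [key]
    have := h1 (εα.symm i) j
    simpa using this
  · intro i v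
    have := h2 (εα.symm i) (σ.symm v)
    simp only [Equiv.apply_symm_apply] at this
    rw [← this]
    refine Finset.sum_congr rfl fun j _ => ?_
    congr 1
    have h4 : pderiv v (rename σ (f j)) = rename σ (pderiv (σ.symm v) (f j)) := by
      have := pderiv_rename σ.injective (σ.symm v) (f j)
      rwa [Equiv.apply_symm_apply] at this
    rw [h4, key]
  · intro i j
    rw [key]
    have := h3 (εβ.symm i) j
    simpa using this

end Pool.Agent.WarQ
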