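import Pool.Agent.WarQ.Stmts
import Pool.Agent.War.C1

/-!
# Simultaneous Waring decompositions (MP_db021c_ag): lifting the degree
-/

set_option autoImplicit false

open Module MvPolynomial
open Pool.Agent.War Pool.Agent.WarS

namespace Pool.Agent.WarQ

namespace UPaux

/-- simple points which kill the polynomials of degree `≤ d` -/
theorem simple (n d : ℕ) : ∃ y : Fin (NN n d) → Fin n → ℂ, ∀ f : MvPolynomial (Fin n) ℂ,
    f.totalDegree ≤ d → (∀ i, eval (y i) f = 0) → f = 0 := by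
  have hred : ∀ w ∈ (⊤ : Submodule ℂ (Pol n d)), w ∉ (⊥ : Submodule ℂ (Pol n d)) →
      ∃ y : Fin n → ℂ, ev n d y w ≠ 0 := by
    intro w _ hw
    by_contra hcon
    push Not at hcon
    apply hw
    rw [Submodule.mem_bot]
    apply Subtype.ext
    refine MvPolynomial.funext fun p => ?_
    have h1 := hcon p
    rw [ev_apply] at h1
    rw [h1]
    simp
  obtain ⟨y, hy⟩ := red (ev n d) ⊤ ⊥ hred (NN n d)
  refine ⟨y, fun f hf h => ?_⟩
  have h0 : finrank ℂ
      ↥((⊤ : Submodule ℂ (Pol n d)) ⊓ ⨅ i, LinearMap.ker (ev n d (y i))) = 0 := by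
    have e1 : finrank ℂ (⊥ : Submodule ℂ (Pol n d)) = 0 := finrank_bot _ _
    have e2 : finrank ℂ (⊤ : Submodule ℂ (Pol n d)) ≤ NN n d := by
      rw [finrank_top]
      exact finrank_Pol_le n d
    rw [e1] at hy
    omega
  have h1 := Submodule.finrank_eq_zero.1 h0
  have h2 : (⟨f, mem_Pol.2 hf⟩ : Pol n d) ∈
      (⊤ : Submodule ℂ (Pol n d)) ⊓ ⨅ i, LinearMap.ker (ev n d (y i)) := by
    refine ⟨trivial, (Submodule.mem_iInf _).2 fun i => ?_⟩
    rw [LinearMap.mem_ker, ev_apply]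
    exact h i
  rw [h1, Submodule.mem_bot] at h2
  exact congrArg Subtype.val h2

/-- `Kill` as a condition on `TrC1` -/
theorem kill_iff (n d : ℕ) {α β γ : Type} [Fintype γ]
    (x : (α ⊕ β → Fin n → ℂ) × (α → γ → ℂ)) :
    Kill n d (fun i => x.1 (Sum.inl i)) x.2 (fun i => x.1 (Sum.inr i)) ↔ TrC1 n d x = ⊥ := by
  constructor
  · intro h
    rw [eq_bot_iff]
    intro f hf
    obtain ⟨h1, h2⟩ := mem_TrC1.1 hf
    rw [Submodule.mem_bot]
    funext j
    exact Subtype.ext (h (fun j => (f j : MvPolynomial (Fin n) ℂ)) (fun j => mem_Pol.1 (f j).2)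
      (fun i j => h1 (Sum.inl i) j) h2 (fun i j => h1 (Sum.inr i) j) j)
  · intro h f hf h1 h2 h3
    have h4 : (fun j => (⟨f j, mem_Pol.2 (hf j)⟩ : Pol n d)) ∈ TrC1 n d x := by
      refine mem_TrC1.2 ⟨fun i j => ?_, h2⟩
      rcases i with i | i
      · exact h1 i j
      · exact h3 i j
    rw [h, Submodule.mem_bot] at h4
    intro j
    exact congrArg Subtype.val (congrFun h4 j)

/-- the first coordinate of a point is polynomial on lines -/
theorem LP_zero {ν : ℕ} {α β γ : Type} (i : α ⊕ β) :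
    LP (K := ℂ) (X := (α ⊕ β → Fin (ν + 1) → ℂ) × (α → γ → ℂ)) fun x => x.1 i 0 :=
  (LP_coord (0 : Fin (ν + 1))).comp_linear
    ((pt i).comp (LinearMap.fst ℂ (α ⊕ β → Fin (ν + 1) → ℂ) (α → γ → ℂ)))

/-- the step -/
theorem step (ν d : ℕ) {α β γ δ : Type} [Fintype γ]
    (x : (α ⊕ β → Fin (ν + 1) → ℂ) × (α → γ → ℂ))
    (hx1 : TrC1 (ν + 1) d x = ⊥) (hx2 : ∀ i, x.1 i 0 ≠ 0) (w : δ → Fin ν → ℂ)
    (hw : ∀ f : MvPolynomial (Fin ν) ℂ, f.totalDegree ≤ d + 1 → (∀ i, eval (w i) f = 0) → f = 0) :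
    Kill (ν + 1) (d + 1) (fun i => x.1 (Sum.inl i)) x.2
      (Sum.elim (fun i => hp (w i)) (fun i => x.1 (Sum.inr i)) : δ ⊕ β → Fin (ν + 1) → ℂ) := by
  intro f hf h1 h2 h3
  have hg : ∀ j, ∃ g : MvPolynomial (Fin (ν + 1)) ℂ, g.totalDegree ≤ d ∧ f j = X 0 * g :=
    fun j => exists_of_res (hf j) (hw _ ((res_totalDegree_le _).trans (hf j)) fun i => by
      rw [← eval_hp]
      exact h3 (Sum.inl i) j)
  choose g hg1 hg2 using hg
  have hev : ∀ i j, eval (x.1 i) (g j) = 0 := by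
    intro i j
    have h4 : eval (x.1 i) (f j) = 0 := by
      rcases i with i | i
      · exact h1 i j
      · exact h3 (Sum.inr i) j
    rw [hg2, eval_X_mulC1] at h4
    exact (mul_eq_zero.1 h4).resolve_left (hx2 i)
  have hz := ((kill_iff (ν + 1) d x).2 hx1) g hg1 (fun i j => hev (Sum.inl i) j)
    (fun i k => ?_) (fun i j => hev (Sum.inr i) j)
  · intro j
    rw [hg2, hz j, mul_zero]
  · have h5 := h2 i k
    have h6 : ∀ j, x.2 i j * eval (x.1 (Sum.inl i)) (pderiv k (f j)) =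
        x.1 (Sum.inl i) 0 * (x.2 i j * eval (x.1 (Sum.inl i)) (pderiv k (g j))) := by
      intro j
      rw [hg2, eval_pderiv_X_mulC1, hev (Sum.inl i) j, mul_zero, add_zero]
      ring
    simp only [h6] at h5
    rw [← Finset.mul_sum] at h5
    exact (mul_eq_zero.1 h5).resolve_left (hx2 _)

end UPaux

open UPaux in
theorem x_UP : S_UP := by
  intro n d b c D hn hle hQ
  obtain ⟨z, a, y, hK⟩ := hQ
  obtain ⟨ν, rfl⟩ : ∃ ν, n = ν + 1 := ⟨n - 1, by omega⟩
  have hx0 : TrC1 (ν + 1) d ((Sum.elim z y, a) :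
      (Fin (b + c) ⊕ Fin (NN (ν + 1) d - (ν + 1 + D) - (b + c)) → Fin (ν + 1) → ℂ) ×
        (Fin (b + c) → Fin b → ℂ)) = ⊥ := (kill_iff _ _ _).1 hK
  obtain ⟨x, hx1, hx2⟩ := (((PK_TrC1 (ν + 1) d).gen_bot hx0).and
    (Gen.forall fun i : Fin (b + c) ⊕ Fin (NN (ν + 1) d - (ν + 1 + D) - (b + c)) =>
      Gen.ne (LP_zero (ν := ν) (γ := Fin b) i)
        ((fun _ _ => 1), 0) one_ne_zero)).exists
  obtain ⟨w, hw⟩ := simple ν (d + 1)
  have key := step ν d x hx1 hx2 w hw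
  have hnum : NN (ν + 1) (d + 1) - (ν + 1 + D) - (b + c) =
      NN ν (d + 1) + (NN (ν + 1) d - (ν + 1 + D) - (b + c)) := by
    rw [NN_succ]
    omega
  have key2 := key.reindexC1 (Equiv.refl _) ((finCongr hnum).trans finSumFinEquiv.symm)
  exact ⟨_, _, _, key2⟩

end Pool.Agent.WarQ
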