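import Pool.Agent.WarQ.Main
import Pool.Agent.WarQ.CA
import Pool.Agent.WarQ.CB
import Pool.Agent.WarQ.CYC
import Pool.Agent.WarQ.D0
import Pool.Agent.WarQ.D1
import Pool.Agent.WarQ.GI
import Pool.Agent.WarQ.GR
import Pool.Agent.WarQ.L
import Pool.Agent.WarQ.LG
import Pool.Agent.WarQ.LH
import Pool.Agent.WarQ.LQ
import Pool.Agent.WarQ.LR
import Pool.Agent.WarQ.LS
import Pool.Agent.WarQ.LT
import Pool.Agent.WarQ.LX
import Pool.Agent.WarQ.NOD
import Pool.Agent.WarQ.PROD
import Pool.Agent.WarQ.SB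
import Pool.Agent.WarQ.SEL
import Pool.Agent.WarQ.T
import Pool.Agent.WarQ.TA
import Pool.Agent.WarQ.TB
import Pool.Agent.WarQ.TRP
import Pool.Agent.WarQ.UP
import Pool.Agent.WarS.SG
import Pool.Agent.WarM.Stmts

/-!
# The block lemma for small q (MP_db021c_ag)   (helper34)

Modules by helper7, 15, 18, 22, 30, 35, 48, 50, 52, 59, 61, 63, 69, 71, 75, 84, 95, 96.
-/

set_option autoImplicit false

open Pool.Agent.War Pool.Agent.WarS

namespace Pool.Agent.WarQ

theorem f_GR : S_GR := x_GR x_D0 x_D1 x_PROD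

theorem f_GI : S_GI := x_GI x_D0

theorem f_T : S_T := x_T (x_TA f_GR f_GI x_SEL) (x_TB f_GR f_GI x_SEL) x_CA x_CB

theorem f_L : S_L := x_L (x_LT SG) x_LH (x_LS (x_LR x_NOD x_LQ x_LG x_CYC)) x_LX x_TRP

theorem f_SMALL : S_SMALL := x_SMALL (x_Q3 f_T f_L) x_UP (x_SB SG)

/-- the small case of the block lemma, from the range of Alexander-Hirschowitz type -/
theorem small (hAH : WarM.S_AH) : WarM.S_SB := by
  intro n d b c q D hn hd hbn hc hcb hq hD hqD
  have hb : 0 < b := by omega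
  subst hD
  have h1 : b * (n * c / b) ≤ n * c := Nat.mul_div_le _ _
  have h2 : n * c < b * (n * c / b + 1) := by
    have h3 := Nat.div_add_mod (n * c) b
    have h4 := Nat.mod_lt (n * c) hb
    rw [Nat.mul_add, Nat.mul_one]
    omega
  exact f_SMALL hAH n d b c (n * c / b) q hd hc hcb hbn h1 h2 hq hqD

end Pool.Agent.WarQ
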