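import Pool.Agent.WarQ.Stmts
import Pool.Agent.War.C1

/-!
# The block lemma for small q (MP_db021c_ag): assembly   (helper34)
-/

set_option autoImplicit false

open Module MvPolynomial
open Pool.Agent.War Pool.Agent.WarS

namespace Pool.Agent.WarQ

theorem x_Q3 (hT : S_T) (hL : S_L) : S_Q3 := by
  intro n b c D hc1 hcb hbn h1 h2 h3
  have hcD : c ≤ D := by
    have h5 : n * c < n * (D + 1) := lt_of_lt_of_le h2 (Nat.mul_le_mul_right _ hbn)
    have := lt_of_mul_lt_mul_left h5 (Nat.zero_le n)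
    omega
  by_cases h : 2 * D * D ≤ b
  · exact hT n b c D hc1 hcb hbn h1 h2 h
  · exact hL n b c D hc1 hcD hcb h1 (by omega) h3

namespace SMALLaux

/-- `6 N(n,3) = (n+1)(n+2)(n+3)` -/
theorem NN_three (n : ℕ) : 6 * NN n 3 = (n + 1) * (n + 2) * (n + 3) := by
  induction n with
  | zero => simp [NN]
  | succ n ih =>
    have h1 : NN (n + 1) 3 = NN n 3 + NN (n + 1) 2 := NN_succ n 2
    have h2 : ∀ m : ℕ, 2 * NN m 2 = (m + 1) * (m + 2) := by
      intro m
      induction m with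
      | zero => simp [NN]
      | succ m ihm =>
        have h3 : NN (m + 1) 2 = NN m 2 + NN (m + 1) 1 := NN_succ m 1
        rw [NN_right_one] at h3
        rw [h3, Nat.mul_add, ihm]
        ring
    have h4 := h2 (n + 1)
    rw [h1]
    have h5 : 6 * (NN n 3 + NN (n + 1) 2) = 6 * NN n 3 + 3 * (2 * NN (n + 1) 2) := by ring
    rw [h5, ih, h4]
    ring

theorem NN_three_ge (n : ℕ) (hn : 3 ≤ n) : 4 * n ≤ NN n 3 := by
  have h := NN_three n
  have h1 : 6 * (4 * n) ≤ (n + 1) * (n + 2) * (n + 3) := by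
    obtain ⟨m, rfl⟩ : ∃ m, n = m + 3 := ⟨n - 3, by omega⟩
    have : (m + 3 + 1) * (m + 3 + 2) * (m + 3 + 3) = m ^ 3 + 15 * m ^ 2 + 74 * m + 120 := by ring
    rw [this]
    nlinarith
  omega

/-- `QB` in all degrees -/
theorem QB_all (hQ : S_Q3) (hU : S_UP) {n b c D : ℕ} (hc : 1 ≤ c) (hcb : c < b) (hbn : b ≤ n)
    (h1 : b * D ≤ n * c) (h2 : n * c < b * (D + 1)) (h3 : D + 2 ≤ n) (d : ℕ) :
    QB n (d + 3) b c D := by
  induction d with
  | zero => exact hQ n b c D hc hcb hbn h1 h2 h3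
  | succ d ih =>
    have hD : 1 ≤ D := by
      by_contra h
      have h0 : D = 0 := by omega
      subst h0
      have h3 : n * 1 ≤ n * c := Nat.mul_le_mul_left _ hc
      omega
    refine hU n (d + 3) b c D (by omega) ?_ ih
    have h4 := NN_three_ge n (by omega)
    have h5 : NN n 3 ≤ NN n (d + 3) := NN_mono_right (by omega)
    omega

theorem ceil_eq {n b c q D : ℕ} (hn : 0 < n) (hc : 1 ≤ c) (hbn : b ≤ n) (h1 : b * D ≤ n * c)
    (h2 : n * c < b * (D + 1)) : (b * (n * q + D) + n - 1) / n = b * q + c := by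
  have e : b * (n * q + D) = n * (b * q) + b * D := by ring
  have e2 : b * (D + 1) = b * D + b := by ring
  rw [e]
  apply le_antisymm
  · rw [← Nat.lt_succ_iff, Nat.div_lt_iff_lt_mul hn, Nat.succ_eq_add_one]
    have : (b * q + c + 1) * n = n * (b * q) + n * c + n := by ring
    omega
  · rw [Nat.le_div_iff_mul_le hn]
    have : (b * q + c) * n = n * (b * q) + n * c := by ring
    omega

end SMALLaux

open SMALLaux

theorem x_SMALL (hQ : S_Q3) (hU : S_UP) (hB : S_SB) : S_SMALL := by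
  intro hAH n d b c D q hd hc hcb hbn h1 h2 hq hqD
  have hm := ceil_eq (q := q) (by omega : 0 < n) hc hbn h1 h2
  have hD : 1 ≤ D := by
    by_contra h
    have h0 : D = 0 := by omega
    subst h0
    have h3 : n * 1 ≤ n * c := Nat.mul_le_mul_left _ hc
    omega
  obtain ⟨δ, rfl⟩ : ∃ δ, d = δ + 4 := ⟨d - 4, by omega⟩
  obtain ⟨q', rfl⟩ : ∃ q', q = q' + 1 := ⟨q - 1, by omega⟩
  obtain ⟨ν, rfl⟩ : ∃ ν, n = ν + 1 := ⟨n - 1, by omega⟩
  by_cases hq0 : q' = 0
  · subst hq0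
    obtain ⟨z, a, y, hK⟩ := QB_all hQ hU hc hcb hbn h1 h2 (by omega) (δ + 1)
    refine ⟨_, _, _, hK.reindexC1 (finCongr ?_) (finCongr ?_)⟩
    · rw [hm]; omega
    · rw [hm]
      have e : (ν + 1) * (0 + 1) + D = ν + 1 + D := by ring
      have e' : b * (0 + 1) + c = b + c := by ring
      rw [e, e']
  · have hQB := QB_all hQ hU hc hcb hbn h1 h2 (by omega) δ
    have hν3 : 3 ≤ ν := by omega
    have h4 := NN_three_ge ν hν3
    have h6 := NN_three_ge (ν + 1) (by omega)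
    have h7 : NN ν 3 ≤ NN ν (δ + 3) := NN_mono_right (by omega)
    have h8 : NN (ν + 1) 3 ≤ NN (ν + 1) (δ + 3) := NN_mono_right (by omega)
    have h9 : NN ν 4 ≤ NN ν (δ + 3 + 1) := NN_mono_right (by omega)
    have h10 : NN ν 3 ≤ NN ν 4 := NN_mono_right (by omega)
    -- `(2 ν + 1) q' ≤ N(ν,4)`
    have hq' : q' + 2 ≤ ν := by omega
    have h11 : (2 * ν + 1) * q' ≤ NN ν 4 := by
      obtain ⟨κ, rfl⟩ : ∃ κ, ν = κ + 1 := ⟨ν - 1, by omega⟩
      have h12 : NN (κ + 1) 4 = NN κ 4 + NN (κ + 1) 3 := NN_succ κ 3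
      have h13 := NN_three (κ + 1)
      have h14 : ∀ m : ℕ, 24 * NN m 4 = (m + 1) * (m + 2) * (m + 3) * (m + 4) := by
        intro m
        induction m with
        | zero => simp [NN]
        | succ m ihm =>
          have k1 : NN (m + 1) 4 = NN m 4 + NN (m + 1) 3 := NN_succ m 3
          have k2 := NN_three (m + 1)
          have k3 : 24 * (NN m 4 + NN (m + 1) 3) = 24 * NN m 4 + 4 * (6 * NN (m + 1) 3) := by ring
          rw [k1, k3, ihm, k2]
          ring
      have h15 := h14 (κ + 1)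
      have h16 : (2 * (κ + 1) + 1) * q' ≤ (2 * (κ + 1) + 1) * (κ - 1) :=
        Nat.mul_le_mul_left _ (by omega)
      obtain ⟨μ, rfl⟩ : ∃ μ, κ = μ + 2 := ⟨κ - 2, by omega⟩
      have h17 : 24 * ((2 * (μ + 2 + 1) + 1) * (μ + 2 - 1)) ≤
          (μ + 2 + 1 + 1) * (μ + 2 + 1 + 2) * (μ + 2 + 1 + 3) * (μ + 2 + 1 + 4) := by
        have e1 : μ + 2 - 1 = μ + 1 := by omega
        rw [e1]
        have e2 : (μ + 2 + 1 + 1) * (μ + 2 + 1 + 2) * (μ + 2 + 1 + 3) * (μ + 2 + 1 + 4) =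
            μ ^ 4 + 22 * μ ^ 3 + 179 * μ ^ 2 + 638 * μ + 840 := by ring
        have e3 : 24 * ((2 * (μ + 2 + 1) + 1) * (μ + 1)) = 48 * μ ^ 2 + 216 * μ + 168 := by ring
        rw [e2, e3]
        nlinarith [Nat.zero_le (μ ^ 4), Nat.zero_le (μ ^ 3), Nat.zero_le (μ ^ 2)]
      omega
    have hGG : GG ν (δ + 3 + 1) q' := hAH ν (δ + 3 + 1) q' (by omega) (by omega)
      (h11.trans h9)
    obtain ⟨z, a, y, hK⟩ := hB ν (δ + 3) b c D q' (by omega) (by omega) (by omega) hGG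
      ((Nat.mul_le_mul_right q' (by omega : ν + b ≤ 2 * ν + 1)).trans (h11.trans h9))
      (by omega) (by omega) hQB
    refine ⟨_, _, _, hK.reindexC1 (finCongr ?_) (finCongr ?_)⟩
    · rw [hm]
    · rw [hm]

end Pool.Agent.WarQ
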