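import Pool.Agent.WarS.Stmts

/-!
# Simultaneous Waring decompositions (MP_db021c_ag): the block lemma for small q   (helper34)

The block lemma of `Pool/Agent/War` for `μ = n q + D`, `q + D < n`, in all degrees `≥ 4`.
`QB n d b c D`: `b + c` full points and the right number of simple points kill `b` forms of degree
`≤ d` (this is the case `q = 1`). It is proved in degree 3 by two explicit models, lifted to all
degrees (`S_UP`), and gives the case of small `q` in degree `d + 1` (`S_SB`).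
A statement `S_X` is proved by a theorem `x_X : S_X`, or `x_X (h : S_Y) ... : S_X` if it uses others.
-/

set_option autoImplicit false

open Module MvPolynomial
open Pool.Agent.War Pool.Agent.WarS

namespace Pool.Agent.WarQ

/-- the case `q = 1` of the block lemma: `μ = n + D`, `m = b + c` -/
def QB (n d b c D : ℕ) : Prop :=
  ∃ (z : Fin (b + c) → Fin n → ℂ) (a : Fin (b + c) → Fin b → ℂ)
    (y : Fin (NN n d - (n + D) - (b + c)) → Fin n → ℂ), Kill n d z a y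

/-! ## 1. A linear system of cubics with `n + 1` special points

`bar n 0, ..., bar n n` are the barycentric coordinates of `ℂⁿ` (their sum is `1`), `ww n m` is the
vertex where `bar n m = 1`. `uu n l = bar l * ∑_j (l - j) (bar j)²`. `BL n` is the set of common
zeros of the `uu n l`. -/

/-- barycentric coordinates -/
noncomputable def bar (n : ℕ) : Fin (n + 1) → MvPolynomial (Fin n) ℂ :=
  Fin.cons (1 - ∑ i, X i) X

/-- the cubics -/
noncomputable def uu (n : ℕ) (l : Fin (n + 1)) : MvPolynomial (Fin n) ℂ :=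
  bar n l * ∑ j : Fin (n + 1), C ((l.val : ℂ) - (j.val : ℂ)) * bar n j ^ 2

/-- the vertices -/
def ww (n : ℕ) (m : Fin (n + 1)) : Fin n → ℂ := fun i => if i.succ = m then 1 else 0

/-- the base points -/
def BL (n : ℕ) : Set (Fin n → ℂ) := {x | ∀ l, eval x (uu n l) = 0}

/-- Easy facts. (1) degree. (2) vertices are base points: `bar l (w_m) = δ_lm`, and for `l = m` the sum
`∑_j (m - j) (bar j)²` is `0` at `w_m`. (3) gradients at `w_m`: for `l ≠ m` the gradient of `uu l` is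
`(l - m) d(bar l)` and for `l = m` it is `0`; the `d(bar l)`, `l ≠ m`, are linearly independent
(`∑_l d(bar l) = 0` is the only relation). (4) a point with `uu 0 ≠ 0`: `bar 0 = bar 1 = 1/2`, i.e.
`x 0 = 1/2`, other coordinates `0` (value `-1/8`). -/
def S_D0 : Prop := ∀ n : ℕ,
  (∀ l, (uu n l).totalDegree ≤ 3) ∧ (∀ l, (bar n l).totalDegree ≤ 1) ∧
  (∀ l m, eval (ww n m) (bar n l) = if l = m then 1 else 0) ∧
  (∀ m, ww n m ∈ BL n) ∧
  (∀ (m : Fin (n + 1)) (γ : Fin (n + 1) → ℂ),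
    (∀ k : Fin n, ∑ l, γ l * eval (ww n m) (pderiv k (uu n l)) = 0) → ∀ l, l ≠ m → γ l = 0) ∧
  (1 ≤ n → ∃ y : Fin n → ℂ, eval y (uu n 0) ≠ 0)

/-- The cubics through `BL n` are the combinations of the `uu n l`, and no quadric contains `BL n`.
Proof. For distinct `i, j, k` take complex `p, q, r` with `p² = j - k`, `q² = k - i`, `r² = i - j` (numbers
`i, j, k` as real numbers). The four sums `σ = ± p ± q ± r` are nonzero: `∏ (±) = -2 (p⁴ + q⁴ + r⁴)` up to sign,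
as `p² + q² + r² = 0` (and `p⁴ = (j-k)²` etc. are positive). The points with barycentric coordinates
`(± p, ± q, ± r)/σ` at `i, j, k` (others `0`) are in `BL n`: with `A = ∑ bar², B = ∑ j bar_j²` one has
`uu l = bar l (l A - B)` and `p² + q² + r² = 0`, `i p² + j q² + k r² = 0`. The vertices are in `BL n`.
Every `f` of degree `≤ 3` can be written `f = ∑_{a,b,c} B_abc bar_a bar_b bar_c`, `B` symmetric (all
monomials of degree `≤ 3` are products of three elements of `{1, X_i}`, which lie in the span of the `bar`'s);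
let `F(X) = ∑ B_abc X_a X_b X_c` for `X ∈ ℂ^(n+1)`; `F(X) = 0` if `X/∑X ∈ BL n`, `f` vanishes on `BL n`.
Vertices: `B_aaa = 0`. Sign points: `F(p, q, r) = 6 B_ijk p q r + 3 p (B_jji q² + B_kki r²) + 3 q (B_iij p² + B_kkj r²)
+ 3 r (B_iik p² + B_jjk q²)`, vanishing for all signs of `q` and `r`: so all four terms vanish (characters of the
group of signs; `p, q, r ≠ 0`): `B_ijk = 0` and `B_jji (k - i) + B_kki (i - j) = 0`, i.e. `B_jji / (i - j) = B_kki / (i - k)`: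
the number `γ_i = 3 B_jji / (i - j)` does not depend on `j ≠ i` (`n ≥ 2`). So
`F = ∑_{i ≠ j} 3 B_jji X_j² X_i = ∑_i γ_i X_i ∑_j (i - j) X_j²`. Quadrics: the same with
`F = ∑ B_ab X_a X_b`: `B_aa = 0`, and `B_ij p q + B_ik p r + B_jk q r = 0` for all signs, so `B_ij = 0`. -/
def S_D1 : Prop := ∀ n : ℕ, 2 ≤ n →
  (∀ f : MvPolynomial (Fin n) ℂ, f.totalDegree ≤ 2 → (∀ x ∈ BL n, eval x f = 0) → f = 0) ∧
  ∀ f : MvPolynomial (Fin n) ℂ, f.totalDegree ≤ 3 → (∀ x ∈ BL n, eval x f = 0) →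
    ∃ γ : Fin (n + 1) → ℂ, f = ∑ l, C (γ l) * uu n l

/-! ## 2. Products -/

/-- Products. Cubics which vanish on a product of sets, none of which lies on a quadric, are sums
of cubics in the groups of variables. Proof. Two groups `x`, `y`, sets `Z`, `W` (neither contained in a
quadric; in particular nonempty). Let `f(x,y)` have degree `≤ 3` and vanish on `Z × W`. For fixed `y, y'` the
polynomial `x ↦ f(x,y) - f(x,y')` has degree `≤ 2` (monomials `x^α y^β`: those with `|α| = 3` cancel).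
(i) If `y, y' ∈ W` it vanishes on `Z`, so it is `0`. (ii) For arbitrary `x`, and fixed `x₀ ∈ Z`, `y₀ ∈ W`, the
polynomial `y ↦ f(x,y) - f(x₀,y) - f(x,y₀) + f(x₀,y₀)` has degree `≤ 2` and vanishes on `W` by (i), so it is `0`:
`f(x,y) = f(x,y₀) + f(x₀,y)`. And: no quadric contains `Z × W` (if `f` has degree `≤ 2`: for `y ∈ W`, `f(·,y) = 0`
identically; then for every `x`, `f(x,·)` vanishes on `W`, so it is `0`). Then induction on the set of groups which are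
varied, the other groups being fixed at a point of the product: for `A ⊆ J` and points `x`, `y ∈ ∏ Z`,
`f(x on A, y off A) = ∑_{j ∈ A} f(x on j, y off j)`. -/
def S_PROD : Prop := ∀ (J : Type) [Fintype J] (sz : J → ℕ) (Z : ∀ j, Set (Fin (sz j) → ℂ)),
  (∀ j, ∀ f : MvPolynomial (Fin (sz j)) ℂ, f.totalDegree ≤ 2 → (∀ p ∈ Z j, eval p f = 0) →
    f = 0) →
  ∀ f : MvPolynomial ((j : J) × Fin (sz j)) ℂ, f.totalDegree ≤ 3 →
    (∀ p : ∀ j, Fin (sz j) → ℂ, (∀ j, p j ∈ Z j) → eval (fun v => p v.1 v.2) f = 0) →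
    ∃ g : ∀ j, MvPolynomial (Fin (sz j)) ℂ,
      (∀ j, (g j).totalDegree ≤ 3 ∧ ∀ p ∈ Z j, eval p (g j) = 0) ∧
      f = ∑ j, rename (fun i => (⟨j, i⟩ : (j : J) × Fin (sz j))) (g j)

/-! ## 3. Choice of the simple points -/

/-- Selection. If the `z i ∈ Y` are independent for cubics and at least `k` independent cubics vanish on
`Y`, then `N - k - m` points of `Y` can be chosen such that every cubic vanishing there and at the `z i`
vanishes on `Y`. Proof: `War.red` with `Y` as parameter set, `W` = cubics through the `z i` (dimension `≤ N - m`: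
the evaluation `Pol n 3 → ℂᵐ` is onto; `finrank_Pol_le`), `W'` = cubics through `Y` (dimension `≥ k`). -/
def S_SEL : Prop := ∀ (n m k : ℕ) (Y : Set (Fin n → ℂ)) (z : Fin m → Fin n → ℂ), Y.Nonempty →
  (∀ i, z i ∈ Y) →
  (∀ i, ∃ h : MvPolynomial (Fin n) ℂ, h.totalDegree ≤ 3 ∧ eval (z i) h ≠ 0 ∧
    ∀ i', i' ≠ i → eval (z i') h = 0) →
  (∃ v : Fin k → MvPolynomial (Fin n) ℂ, LinearIndependent ℂ v ∧
    ∀ j, (v j).totalDegree ≤ 3 ∧ ∀ y ∈ Y, eval y (v j) = 0) →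
  ∃ y : Fin (NN n 3 - k - m) → Fin n → ℂ, (∀ j, y j ∈ Y) ∧
    ∀ f : MvPolynomial (Fin n) ℂ, f.totalDegree ≤ 3 → (∀ i, eval (z i) f = 0) →
      (∀ j, eval (y j) f = 0) → ∀ p ∈ Y, eval p f = 0

/-! ## 4. The model with groups of variables -/

/-- the points all of whose group components are base points; `e` numbers the variables -/
def PT {n K : ℕ} {sz : Fin K → ℕ} (e : ((g : Fin K) × Fin (sz g)) ≃ Fin n) :
    Set (Fin n → ℂ) :=
  {p | ∀ g, (fun i => p (e ⟨g, i⟩)) ∈ BL (sz g)}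

/-- the point with group components the vertices `κ g i` -/
def zz {n K m : ℕ} {sz : Fin K → ℕ} (e : ((g : Fin K) × Fin (sz g)) ≃ Fin n)
    (κ : ∀ g, Fin m → Fin (sz g + 1)) (i : Fin m) : Fin n → ℂ :=
  fun v => ww (sz (e.symm v).1) (κ (e.symm v).1 i) (e.symm v).2

/-- the cubic `uu w` in the variables of group `g` -/
noncomputable def ug {n K : ℕ} {sz : Fin K → ℕ} (e : ((g : Fin K) × Fin (sz g)) ≃ Fin n)
    (g : Fin K) (w : Fin (sz g + 1)) : MvPolynomial (Fin n) ℂ :=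
  rename (fun i => e ⟨g, i⟩) (uu (sz g) w)

/-- Kernel of the full conditions in the group model. By `S_PROD` (transported by `e`) and `S_D1` every
`f j` is `∑ γ g w j * ug g w`. The `g`-components of the full condition at `zz i` read
`∑_w (a_i · γ g w) ∇uu w (ww (κ g i)) = 0`, and `S_D0` (3) gives `a_i · γ g w = 0` for `w ≠ κ g i`. -/
def S_GR : Prop := ∀ (n K m b : ℕ) (sz : Fin K → ℕ) (e : ((g : Fin K) × Fin (sz g)) ≃ Fin n)
  (κ : ∀ g, Fin m → Fin (sz g + 1)) (a : Fin m → Fin b → ℂ)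
  (f : Fin b → MvPolynomial (Fin n) ℂ), (∀ g, 2 ≤ sz g) → (∀ j, (f j).totalDegree ≤ 3) →
  (∀ j, ∀ p ∈ PT e, eval p (f j) = 0) →
  (∀ i k, ∑ j, a i j * eval (zz e κ i) (pderiv k (f j)) = 0) →
  ∃ γ : ∀ g, Fin (sz g + 1) → Fin b → ℂ,
    (∀ j, f j = ∑ g, ∑ w, C (γ g w j) * ug e g w) ∧
    ∀ g w i, κ g i ≠ w → ∑ j, a i j * γ g w j = 0

/-- Points and independence in the group model: (1) `zz i ∈ PT`; (2) the `ug g w` vanish on `PT`, have degree
`≤ 3`, and are linearly independent (a relation `∑ γ g w ug g w = 0` gives, by the derivatives in the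
variables of group `g` at the points all of whose components are vertices `0`, resp. vertices `1`, that
`γ g w = 0` for `w ≠ 0`, resp. `w ≠ 1`; `S_D0` (3)); (3) if `(κ g₁ i, κ g₂ i)` determines `i` then the
`zz i` are independent for cubics: `h = bar (κ g₁ i) (group g₁) * bar (κ g₂ i) (group g₂)`, degree `≤ 2`;
(4) there is a point `y₀` (component `y` of `S_D0` (4) in every group) where all `ug g 0`
are nonzero. -/
def S_GI : Prop := ∀ (n K m : ℕ) (sz : Fin K → ℕ) (e : ((g : Fin K) × Fin (sz g)) ≃ Fin n)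
  (κ : ∀ g, Fin m → Fin (sz g + 1)), (∀ g, 2 ≤ sz g) →
  (∀ i, zz e κ i ∈ PT e) ∧
  (∀ g w, (ug e g w).totalDegree ≤ 3 ∧ ∀ p ∈ PT e, eval p (ug e g w) = 0) ∧
  (LinearIndependent ℂ fun q : (g : Fin K) × Fin (sz g + 1) => ug e q.1 q.2) ∧
  (∀ g₁ g₂, (∀ i i', κ g₁ i = κ g₁ i' → κ g₂ i = κ g₂ i' → i = i') →
    ∀ i, ∃ h : MvPolynomial (Fin n) ℂ, h.totalDegree ≤ 3 ∧ eval (zz e κ i) h ≠ 0 ∧
      ∀ i', i' ≠ i → eval (zz e κ i') h = 0) ∧
  ∃ y₀ : Fin n → ℂ, ∀ g, eval y₀ (ug e g 0) ≠ 0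

/-- number of the indices of type `v` -/
def cnt {m k : ℕ} (κ : Fin m → Fin k) (v : Fin k) : ℕ := (Finset.univ.filter fun i => κ i = v).card

/-- Case A: `D` groups, all classes of size `≤ c`. Take `a i j = i ^ j` (a nonzero polynomial of degree `< b`
does not have `b` zeros: a vector orthogonal to `b` of the `a i` is `0`). `S_GR` with `m = b + c`: `γ g w` is
orthogonal to the `a i` with `κ g i ≠ w`, at least `b` of them, so `γ = 0`. The space of cubics through `PT`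
has dimension `≥ ∑ (sz g + 1) = n + D` (`S_GI`); `S_SEL` with `Y = PT e`, `k = n + D`, `m = b + c`. -/
def S_TA : Prop := ∀ (n b c D : ℕ) (sz : Fin D → ℕ) (κ : ∀ g, Fin (b + c) → Fin (sz g + 1)),
  1 ≤ b → 1 ≤ D → ∑ g, sz g = n → (∀ g, 2 ≤ sz g) → (∀ g v, cnt (κ g) v ≤ c) →
  (∃ g₁ g₂, ∀ i i', κ g₁ i = κ g₁ i' → κ g₂ i = κ g₂ i' → i = i') → QB n 3 b c D

/-- Case B: `D + 1` groups and one more simple point. `Y = PT e ∪ {y₀}`, `y₀` from `S_GI` (4), `a i j = i ^ j`.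
Cubics through `Y`: dimension `≥ ∑ (sz g + 1) - 1 = n + D` (the kernel of evaluation at `y₀` on the span of the
`ug`). By `S_GR` `γ g w ⊥ a i` if `κ g i ≠ w`; so `γ g w = 0` for `w ≠ 0` (class of size `≤ c`). Evaluation at `y₀`:
`∑_g ν_g γ g 0 = 0` with `ν_g = ug g 0 (y₀) ≠ 0`. For `i ∈ E j`: `a i ⊥ γ g 0` for all groups `g ≠ j + 1`, so also
`a i ⊥ γ (j + 1) 0`. So `γ (j + 1) 0 ⊥ a i` for all `i` except at most `c`: `γ (j + 1) 0 = 0` for all `j`, and then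
`γ 0 0 = 0`. -/
def S_TB : Prop := ∀ (n b c D : ℕ) (sz : Fin (D + 1) → ℕ)
  (κ : ∀ g, Fin (b + c) → Fin (sz g + 1)) (E : Fin D → Finset (Fin (b + c))),
  1 ≤ b → ∑ g, sz g = n → (∀ g, 2 ≤ sz g) → (∀ g v, v ≠ 0 → cnt (κ g) v ≤ c) →
  (∀ j, ∀ i ∈ E j, κ 0 i ≠ 0 ∧ ∀ j', j' ≠ j → κ (Fin.succ j') i ≠ 0) →
  (∀ j, (Finset.univ.filter fun i => κ (Fin.succ j) i = 0 ∧ i ∉ E j).card ≤ c) →
  (∃ g₁ g₂, ∀ i i', κ g₁ i = κ g₁ i' → κ g₂ i = κ g₂ i' → i = i') → QB n 3 b c D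

/-- Combinatorics of case A: `s = ⌈b/c⌉`, sizes `s, ..., s, n - (D-1) s`; `κ 0 i = ⌊i/c⌋`,
`κ g i = i mod (s + 1)` for `g ≥ 1`. Class sizes: at most `c` (`b + c ≤ c (s + 1)`). `(κ 0, κ 1)` determines `i`, as
`c ≤ s + 1`; if `D = 1` then `c = 1` and `κ 0` is injective. -/
def S_CA : Prop := ∀ n b c D : ℕ, 1 ≤ c → c < b → 1 ≤ D → (D = 1 → c = 1) → c * c ≤ b →
  D * ((b + c - 1) / c) ≤ n →
  ∃ (sz : Fin D → ℕ) (κ : ∀ g, Fin (b + c) → Fin (sz g + 1)),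
    ∑ g, sz g = n ∧ (∀ g, 2 ≤ sz g) ∧ (∀ g v, cnt (κ g) v ≤ c) ∧
    ∃ g₁ g₂, ∀ i i', κ g₁ i = κ g₁ i' → κ g₂ i = κ g₂ i' → i = i'

/-- Combinatorics of case B. Write `b = β c + ρ`, `1 ≤ ρ < c`, `β ≥ 2 D ≥ 2 c`, `n = D β + ρ'`, `1 ≤ ρ' < D`,
`D ρ ≤ ρ' c`. Number the `b + c` indices as pairs `(m,o)`, `0 ≤ m ≤ β`, `0 ≤ o < c`, and `ρ` extra ones `*_e`.
Groups `1, ..., D` (they are `Fin.succ j`, `j = g - 1`) and group `0`.
If `ρ' ≥ 2` (case B1): sizes `β` for the groups `1..D`, `ρ'` for group `0`. If `ρ' = 1` (case B2) then `D = c`, `ρ = 1`: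
sizes `β`, but `β - 1` for group 2 and `2` for group 0.
`κ 1`: `(m,o) ↦ m`, `*_e ↦ 0`; `E 1 = {*_e}`.
`κ 2`: `(m,o) ↦ (m + o) mod (β + 1)`, except `(e+1, c-1) ↦ 0` for `e < ρ`; `*_e ↦ c + e`;
`E 2 = {(e+1, c-1)}`. In case B2 moreover the class `{(m,o) : m + o = c + 1}` is also sent to `0` (and added to `E 2`),
and the labels `> c + 1` are lowered by `1`.
`κ g`, `g ≥ 3`, with `k = g - 2`: `(m,o) ↦ m`, except `(k,o) ↦ 0` for `o < ρ`; `*_e ↦ k`; `E g = {(k,o) : o < ρ}`.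
All nonzero classes have size `≤ c`; the zero class minus `E g` is `{(0,o)}` (`g ≠ 2`), `{m + o ≡ 0}` (`g = 2`), of size `c`;
`E g` is disjoint from the zero classes of the other groups `1..D`; `(κ 1, κ 2)` determines the index.
(All this was checked by computer for `n < 90`; for `β + 1 - o` note `β + 2 - c ≥ c + 2`.)
`κ 0`: `∪ E g` has `D ρ ≤ ρ' c` elements (B1), resp. `(c - 1) + (c + 1) = 2 c` (B2); give them nonzero labels, every label at
most `c` times, all other indices the label `0`. -/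
def S_CB : Prop := ∀ n b c D : ℕ, 1 ≤ c → c < b → b ≤ n → b * D ≤ n * c → n * c < b * (D + 1) →
  2 * D * D ≤ b → n < D * ((b + c - 1) / c) →
  ∃ (sz : Fin (D + 1) → ℕ) (κ : ∀ g, Fin (b + c) → Fin (sz g + 1))
    (E : Fin D → Finset (Fin (b + c))),
    ∑ g, sz g = n ∧ (∀ g, 2 ≤ sz g) ∧ (∀ g v, v ≠ 0 → cnt (κ g) v ≤ c) ∧
    (∀ j, ∀ i ∈ E j, κ 0 i ≠ 0 ∧ ∀ j', j' ≠ j → κ (Fin.succ j') i ≠ 0) ∧
    (∀ j, (Finset.univ.filter fun i => κ (Fin.succ j) i = 0 ∧ i ∉ E j).card ≤ c) ∧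
    ∃ g₁ g₂, ∀ i i', κ g₁ i = κ g₁ i' → κ g₂ i = κ g₂ i' → i = i'

/-- First model: many forms (`2 D² ≤ b`). From `S_TA`, `S_TB`, `S_CA`, `S_CB`; `c ≤ D` as `b ≤ n` (from
`n c < b (D+1)`), so `c² ≤ b`; if `D = 1` then `c = 1`. -/
def S_T : Prop := ∀ n b c D : ℕ, 1 ≤ c → c < b → b ≤ n → b * D ≤ n * c → n * c < b * (D + 1) →
  2 * D * D ≤ b → QB n 3 b c D

/-! ## 5. The model with a linear space

Variables `x j`, `j < D` (`Sum.inl j`), and `y i`, `i < k` (`Sum.inr i`); `Λ = {y = 0}`;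
`hh i j = 1/(i + j + 1)`. Quadrics `u₁ i = y_i (1 - ∑_j hh i j x_j - y_i)`, `u₂ j = x_j ∑_i hh i j y_i`. -/

/-- Hilbert matrix -/
noncomputable def hh (i j : ℕ) : ℂ := ((i : ℂ) + (j : ℂ) + 1)⁻¹

/-- the quadric `∑ γ₁ i u₁ i + ∑ γ₂ j u₂ j` -/
noncomputable def qq {D k : ℕ} (γ₁ : Fin k → ℂ) (γ₂ : Fin D → ℂ) :
    MvPolynomial (Fin D ⊕ Fin k) ℂ :=
  (∑ i : Fin k, C (γ₁ i) * (X (Sum.inr i) *
    (1 - ∑ j : Fin D, C (hh i j) * X (Sum.inl j) - X (Sum.inr i)))) +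
  ∑ j : Fin D, C (γ₂ j) * (X (Sum.inl j) * ∑ i : Fin k, C (hh i j) * X (Sum.inr i))

/-- base points `(0, e_i)` (for `i = l`) and `(0, e_i + e_l)` -/
def pa {D k : ℕ} (i l : Fin k) : Fin D ⊕ Fin k → ℂ :=
  Sum.elim 0 fun t => if t = i ∨ t = l then 1 else 0

/-- base points `x = ξ e_j`, `y = (1 - ξ a) e_0 + (1 - ξ b) e_(i+1)` with `a = hh 0 j`,
`b = hh (i + 1) j`, `ξ = (a + b)/(a² + b²)` -/
noncomputable def pb {D k : ℕ} (j : Fin D) (i : Fin (k + 1)) : Fin D ⊕ Fin (k + 2) → ℂ :=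
  Sum.elim
    (fun l => if l = j then (hh 0 j + hh (i.val + 1) j) / (hh 0 j ^ 2 + hh (i.val + 1) j ^ 2)
      else 0)
    fun t => if t = 0 then
        1 - (hh 0 j + hh (i.val + 1) j) / (hh 0 j ^ 2 + hh (i.val + 1) j ^ 2) * hh 0 j
      else if t.val = i.val + 1 then
        1 - (hh 0 j + hh (i.val + 1) j) / (hh 0 j ^ 2 + hh (i.val + 1) j ^ 2) * hh (i.val + 1) j
      else 0

/-- Nodes. `hh i j = 1/(s_j - t_i)` with `t_i = -i`, `s_j = j + 1`. Let `S₂'` be the complement of `S₂`, so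
`|S₁| = |S₂'|`. The polynomial `P(T) = ∏_{i ∈ S₁} (T - t_i) - ∏_{j ∈ S₂'} (T - s_j)` has degree `< |S₂'|`, so by
Lagrange interpolation `∏_{i ∈ S₁} (T - t_i) / ∏_{j ∈ S₂'} (T - s_j) = 1 - ∑_{j ∈ S₂'} x_j / (s_j - T)` with
`x_j = P(s_j) / ∏_{j' ≠ j} (s_j - s_j')`, `P(s_j) = ∏_{i ∈ S₁} (s_j - t_i) ≠ 0`; `x_j = 0` for `j ∈ S₂`. At `T = t_i`:
`1 - ∑_j hh i j x_j = ∏_{i' ∈ S₁} (t_i - t_i') / ∏ (t_i - s_j)`, which is `0` iff `i ∈ S₁`.
Last statement: for `i ∈ S₁`: `∑_{j ∈ S₂'} γ₂ j / (s_j - t_i) = 0`; the numerator of `∑ γ₂ j / (s_j - T)` has degree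
`< |S₂'| = |S₁|` and the zeros `t_i`, so it is `0`, and its values at the `s_j` give `γ₂ = 0`; then `γ₁ = 0`. -/
def S_NOD : Prop := ∀ (D k : ℕ) (S₁ : Finset (Fin k)) (S₂ : Finset (Fin D)),
  S₁.card + S₂.card = D → ∃ x : Fin D → ℂ, (∀ j, x j = 0 ↔ j ∈ S₂) ∧
    (∀ i : Fin k, ∑ j : Fin D, hh i j * x j = 1 ↔ i ∈ S₁) ∧
    ∀ (γ₁ : Fin k → ℂ) (γ₂ : Fin D → ℂ), (∀ i ∈ S₁, γ₁ i = 0) → (∀ j ∈ S₂, γ₂ j = 0) →
      (∀ i : Fin k, γ₁ i + ∑ j : Fin D, hh i j * γ₂ j = 0) → γ₁ = 0 ∧ γ₂ = 0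

/-- The quadrics through `Λ` and the base points are the `qq γ₁ γ₂`. Proof. `g` of degree `≤ 2` vanishing on `Λ`
is `∑ y_i (α_i + ∑_j β_ij x_j) + ∑_{i ≤ l} δ_il y_i y_l`. At `(0, e_i)`: `δ_ii = -α_i`; at `(0, e_i + e_l)`: `δ_il = 0`. So
`g - qq α 0 = ∑ β'_ij x_j y_i`. At `pb j i`, with `ξ ≠ 0`: `β'_0j y_0 + β'_(i+1)j y_(i+1) = 0`, where with
`a = hh 0 j, b = hh (i+1) j` (positive reals, `a ≠ b`) `y_0 = 1 - ξ a = b (b - a)/(a² + b²) ≠ 0`, `y_(i+1) = a (a - b)/(a² + b²)`: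
so `β'_(i+1)j a = β'_0j b`, i.e. `β'_ij = γ₂ j hh i j` with `γ₂ j = β'_0j / hh 0 j`. -/
def S_LQ : Prop := ∀ (D k : ℕ) (g : MvPolynomial (Fin D ⊕ Fin (k + 2)) ℂ), g.totalDegree ≤ 2 →
  (∀ x : Fin D → ℂ, eval (Sum.elim x 0) g = 0) → (∀ i l, eval (pa i l) g = 0) →
  (∀ j i, eval (pb j i) g = 0) → ∃ γ₁ γ₂, g = qq γ₁ γ₂

/-- Computations with `qq`. (1) `qq` vanishes at the points `pa`, `pb` and on `Λ`. (2) normal derivatives at a
point of `Λ`. (3) the gradients of the `u`'s at the point `pb j 0` are linearly independent: with `a = hh 0 j`, `b = hh 1 j`, `ξ`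
as in `pb`, `y_0 = 1 - ξ a`, `y_1 = 1 - ξ b`, the derivatives of `qq γ₁ γ₂` at `pb j 0` are
in direction `y_i`, `i ≥ 2`: `γ₁ i (1 - ξ hh i j) + γ₂ j ξ hh i j`; direction `y_0`: `-γ₁ 0 y_0 + γ₂ j ξ a`; `y_1`:
`-γ₁ 1 y_1 + γ₂ j ξ b`; direction `x_l`: `-γ₁ 0 y_0 hh 0 l - γ₁ 1 y_1 hh 1 l + γ₂ l (hh 0 l y_0 + hh 1 l y_1)` (for `l = j` the
last bracket is `0`, for `l ≠ j` it is not, as `hh 0 l hh 1 j ≠ hh 1 l hh 0 j`). If all vanish: `x_j`:
`γ₂ j ξ (a² + b²) = 0`, so `γ₂ j = 0`, `γ₁ 0 = γ₁ 1 = 0`, `γ₂ l = 0`, and `γ₁ i = 0` as `1 - ξ hh i j > 0`: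
`ξ hh i j < 1` because `hh i j < b < a` and `ξ ≤ 1/b`. -/
def S_LG : Prop := ∀ (D k : ℕ) (γ₁ : Fin (k + 2) → ℂ) (γ₂ : Fin D → ℂ),
  ((∀ i l, eval (pa i l) (qq γ₁ γ₂) = 0) ∧ (∀ j i, eval (pb j i) (qq γ₁ γ₂) = 0) ∧
    ∀ x : Fin D → ℂ, eval (Sum.elim x 0) (qq γ₁ γ₂) = 0) ∧
  (∀ (x : Fin D → ℂ) (i : Fin (k + 2)), eval (Sum.elim x 0) (pderiv (Sum.inr i) (qq γ₁ γ₂)) =
    γ₁ i * (1 - ∑ j : Fin D, hh i j * x j) + ∑ j : Fin D, hh i j * (γ₂ j * x j)) ∧
  ∀ j : Fin D, (∀ v, eval (pb j 0) (pderiv v (qq γ₁ γ₂)) = 0) → γ₁ = 0 ∧ γ₂ = 0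

/-- Cyclic intervals: `S i = {i D, i D + 1, ..., i D + D - 1} mod n`, `i < b`. The element `r` is covered by at most
`⌈b D / n⌉ ≤ c` of them (the `b D ≤ n c` integers `0, ..., b D - 1` contain at most `c` integers `≡ r`, and a set
`S i` contains `r` at most once since `D ≤ n`). -/
def S_CYC : Prop := ∀ n b c D : ℕ, D ≤ n → b * D ≤ n * c → ∃ S : Fin b → Finset (Fin n),
  (∀ i, (S i).card = D) ∧ ∀ r, (Finset.univ.filter fun i => r ∈ S i).card ≤ c

/-- number of the base points: `D (k + 1) + (k + 2)(k + 3)/2` for `k + 2` variables `y` -/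
def eo (D k : ℕ) : ℕ := D * (k + 1) + (k + 3).choose 2

/-- conditions on quadrics vanishing on `Λ`: points `(x i, 0)`, `i < b`, with the normal derivatives, full points
`w l`, simple points `p t` -/
def RC {D k b c e : ℕ} (x : Fin b → Fin D → ℂ) (a : Fin b ⊕ Fin c → Fin b → ℂ)
    (w : Fin c → Fin D ⊕ Fin k → ℂ) (p : Fin e → Fin D ⊕ Fin k → ℂ)
    (g : Fin b → MvPolynomial (Fin D ⊕ Fin k) ℂ) : Prop :=
  (∀ j (x : Fin D → ℂ), eval (Sum.elim x 0) (g j) = 0) ∧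
  (∀ i t, ∑ j, a (Sum.inl i) j * eval (Sum.elim (x i) 0) (pderiv (Sum.inr t) (g j)) = 0) ∧
  (∀ l j, eval (w l) (g j) = 0) ∧
  (∀ l v, ∑ j, a (Sum.inr l) j * eval (w l) (pderiv v (g j)) = 0) ∧
  ∀ t j, eval (p t) (g j) = 0

/-- Residual lemma for the linear space. `n = D + k + 2`. Take the cyclic sets `S i` of `S_CYC` in
`Fin D ⊕ Fin (k+2)` (numbered), `x i` from `S_NOD` with `S₁, S₂` the parts of `S i`; `a = (τ^0, ..., τ^(b-1))` for `b + c`
different `τ`; `w l = pb l 0`, `l < c ≤ D`; `p` = all the other base points `pa i l`, `i ≤ l`, and `pb j i`. By `S_LQ` every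
`g j` is `qq (γ₁ j) (γ₂ j)`. For a vector `a`, `∑ a_j g_j = qq (a·γ₁) (a·γ₂)`. Full points: `a (inr l)·γ = 0` (`S_LG` (3)). Points
`x i`: `S_LG` (2) and `S_NOD` with `γ₁ r (1 - ∑ hh r j x_j)`, `γ₂ j x_j` in place of `γ₁, γ₂`: `a (inl i)·γ_r = 0` for `r ∉ S i`.
So every `γ_r ∈ ℂ^b` is orthogonal to at least `(b - c) + c` of the `a`'s and vanishes. -/
def S_LR : Prop := ∀ D k b c : ℕ, 1 ≤ b → c ≤ D → c ≤ b → b * D ≤ (D + (k + 2)) * c →
  ∃ (x : Fin b → Fin D → ℂ) (a : Fin b ⊕ Fin c → Fin b → ℂ) (w : Fin c → Fin D ⊕ Fin (k + 2) → ℂ)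
    (p : Fin (eo D k - c) → Fin D ⊕ Fin (k + 2) → ℂ),
    ∀ g : Fin b → MvPolynomial (Fin D ⊕ Fin (k + 2)) ℂ, (∀ j, (g j).totalDegree ≤ 2) →
      RC x a w p g → ∀ j, g j = 0

/-- Trace on `Λ`: cubics in `D` variables, `b` forms: `b` full points and `N(D,3) - D - b` simple points kill, generically.
Special case `a i = e_i`: the form `j` has one double point `x j` and `N(D,3) - D - 1` simple points; `GG D 3 1`, `WarS.S_SG` with
`P = {j}`; then semicontinuity (`PK.gen_bot`), exactly as in `War.traceC1` with `u = 1`. -/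
def S_LT : Prop := ∀ D b : ℕ, 1 ≤ D → b + D ≤ NN D 3 →
  Gen ℂ fun q : (Fin b → Fin D → ℂ) × (Fin b → Fin b → ℂ) × (Fin (NN D 3 - D - b) → Fin D → ℂ) =>
    ∀ f : Fin b → MvPolynomial (Fin D) ℂ, (∀ j, (f j).totalDegree ≤ 3) →
      (∀ i j, eval (q.1 i) (f j) = 0) →
      (∀ i v, ∑ j, q.2.1 i j * eval (q.1 i) (pderiv v (f j)) = 0) →
      (∀ t j, eval (q.2.2 t) (f j) = 0) → ∀ j, f j = 0

/-- Points on the hyperplane. The space of cubics `h` in the variables `Fin δ ⊕ Fin K` which vanish on `{y = 0}` has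
dimension at most `N(δ+K,3) - N(δ,3)` (kernel of the surjective restriction to `MvPolynomial (Fin δ)`; `finrank_Pol_le` for the whole
space, and for `Fin δ` the dimension is at least `N(δ,3)`: count of monomials, `GG.le`-type bound or induction with `NN_succ`); general points
lower the dimension by one each (`War.red`). -/
def S_LH : Prop := ∀ δ K : ℕ, ∃ y : Fin (NN (δ + K) 3 - NN δ 3) → Fin δ ⊕ Fin K → ℂ,
  ∀ h : MvPolynomial (Fin δ ⊕ Fin K) ℂ, h.totalDegree ≤ 3 →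
    (∀ x : Fin δ → ℂ, eval (Sum.elim x 0) h = 0) → (∀ t, eval (y t) h = 0) → h = 0

/-- `S_LR` is a generic property (semicontinuity: the tuples `g` of degree `≤ 2` with `RC` form a family of subspaces of a finite
dimensional space cut out by functionals depending polynomially on the parameters, intersected with the fixed subspace of the tuples
vanishing on `Λ`; `PK.gen_bot`, `PK.comap`). -/
def S_LS : Prop := ∀ D k b c : ℕ, 1 ≤ b → c ≤ D → c ≤ b → b * D ≤ (D + (k + 2)) * c →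
  Gen ℂ fun q : (Fin b → Fin D → ℂ) × (Fin b ⊕ Fin c → Fin b → ℂ) ×
      (Fin c → Fin D ⊕ Fin (k + 2) → ℂ) × (Fin (eo D k - c) → Fin D ⊕ Fin (k + 2) → ℂ) =>
    ∀ g : Fin b → MvPolynomial (Fin D ⊕ Fin (k + 2)) ℂ, (∀ j, (g j).totalDegree ≤ 2) →
      RC q.1 q.2.1 q.2.2.1 q.2.2.2 g → ∀ j, g j = 0

/-- The hyperplane `x_0 = 0` in the variables `Fin (δ + 1) ⊕ Fin K`: (1) restriction: for `f` there is `h` in the
variables `Fin δ ⊕ Fin K` (substitute `x_0 = 0`), of degree `≤ deg f`, with the values of `f` at the points with `x_0 = 0`; (2) if these values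
are all `0` then `f = x_0 g` with `deg g ≤ d` if `deg f ≤ d + 1`; (3) `x_0 g` at a point `p` with `x_0 ≠ 0`. -/
def S_LX : Prop := ∀ δ K : ℕ,
  (∀ f : MvPolynomial (Fin (δ + 1) ⊕ Fin K) ℂ, ∃ h : MvPolynomial (Fin δ ⊕ Fin K) ℂ,
    h.totalDegree ≤ f.totalDegree ∧ ∀ (x : Fin δ → ℂ) (y : Fin K → ℂ),
      eval (Sum.elim x y) h = eval (Sum.elim (Fin.cons 0 x) y) f) ∧
  (∀ (d : ℕ) (f : MvPolynomial (Fin (δ + 1) ⊕ Fin K) ℂ), f.totalDegree ≤ d + 1 →
    (∀ p : Fin (δ + 1) ⊕ Fin K → ℂ, p (Sum.inl 0) = 0 → eval p f = 0) →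
    ∃ g : MvPolynomial (Fin (δ + 1) ⊕ Fin K) ℂ, g.totalDegree ≤ d ∧ f = X (Sum.inl 0) * g) ∧
  ∀ (g : MvPolynomial (Fin (δ + 1) ⊕ Fin K) ℂ) (p : Fin (δ + 1) ⊕ Fin K → ℂ),
    p (Sum.inl 0) ≠ 0 → eval p (X (Sum.inl 0) * g) = 0 → eval p g = 0 ∧
      ∀ v, eval p (pderiv v (X (Sum.inl 0) * g)) = p (Sum.inl 0) * eval p (pderiv v g)

/-- Change of the names of the variables and of the points (`rename`, `pderiv_rename`). -/
def S_TRP : Prop := ∀ (V α β : Type) [Fintype V] [Fintype α] [Fintype β] (n d b m e : ℕ),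
  Fintype.card V = n → Fintype.card α = m → Fintype.card β = e →
  ∀ (z : α → V → ℂ) (a : α → Fin b → ℂ) (y : β → V → ℂ),
    (∀ f : Fin b → MvPolynomial V ℂ, (∀ j, (f j).totalDegree ≤ d) →
      (∀ i j, eval (z i) (f j) = 0) → (∀ i v, ∑ j, a i j * eval (z i) (pderiv v (f j)) = 0) →
      (∀ i j, eval (y i) (f j) = 0) → ∀ j, f j = 0) →
    ∃ (z' : Fin m → Fin n → ℂ) (a' : Fin m → Fin b → ℂ) (y' : Fin e → Fin n → ℂ),
      Kill n d z' a' y'

/-- Second model: `b < 2 D²`. `n = D + k + 2`. Let `ν = n - 1`; the variables of `ℂⁿ` are numbered such that `x_0` is the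
first variable (`D ≥ 1`); `H = {x_0 = 0}`.
(1) On `Λ`: `b` full points `x i` and `N(D,3) - D - b ≥ 0` simple points, generic, as in `S_LT`.
(2) `N(n-1,3) - N(D-1,3)` simple points on `H` from `S_LH` (`δ = D - 1`, `K = k + 2`).
(3) off points: `c` full points `w`, `eo D k - c` simple points `p`, generic, as in `S_LS`. Choose `(x, a)` generic for (1) and (3) at
the same time (`Gen.comp`, `Gen.and`), all of `x i`, `w`, `p` with `x_0 ≠ 0` (`Gen.ne`).
Kill: `f|Λ = 0` by (1); then `f|H = 0` by (2); `f = x_0 g`, `g` of degree `≤ 2`, vanishes on `Λ`, and satisfies `RC` since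
`x_0 ≠ 0` at the points (`∂(x_0 g) = x_0 ∂g` where `g = 0`). Numbers: `N(D,3) - D - b`, `N(n-1,3) - N(D-1,3)`, `eo D k - c` add
up to `N(n,3) - (n + D) - (b + c)` (then `S_TRP`), as `eo D k = N(n,2) - N(D,2) - n`. And `b ≤ 2 D² - 1 ≤ N(D,3) - D`
(`D³ - 6 D² + 5 D + 12 = (D+1)(D-3)(D-4) ≥ 0`). -/
def S_L : Prop := ∀ n b c D : ℕ, 1 ≤ c → c ≤ D → c < b → b * D ≤ n * c → b < 2 * D * D →
  D + 2 ≤ n → QB n 3 b c D

/-! ## 6. Assembly -/

/-- degree 3: `S_T` and `S_L` -/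
def S_Q3 : Prop := ∀ n b c D : ℕ, 1 ≤ c → c < b → b ≤ n → b * D ≤ n * c → n * c < b * (D + 1) →
  D + 2 ≤ n → QB n 3 b c D

/-- Lifting the degree: `N(n-1,d+1)` simple points on `H = {x_0 = 0}` kill `f|H`; then `f = x_0 g`, and the points of
`QB n d b c D` (generic, so off `H`; `Kill` is a generic property) kill `g`. -/
def S_UP : Prop := ∀ n d b c D : ℕ, 1 ≤ n → (n + D) + (b + c) ≤ NN n d → QB n d b c D →
  QB n (d + 1) b c D

/-- Small `q`, here with `q + 1` in place of `q`. `n = ν + 1`. On `H`: `b q` full points, `e_H = N(ν,d+1) - (ν + b) q`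
simple points; trace: with pure `a` the form `j` has `q` double points and `(b - 1) q + e_H` simple ones, kernel `0`
(`GG ν (d+1) q`, `WarS.S_SG`), so for general `a` too. Off `H`: `b + c` full points, `e' = N(n,d) - (n + D + q) - (b + c)` simple ones.
Residual, degree `d`: `V = {g : conditions at the off points}` has dimension `≤ b q` for a suitable choice (the points of `QB n d b c D`,
`q` simple points removed: the evaluation at the removed points is injective on `V`), so for a general choice (semicontinuity; then the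
points are off `H` and kill scalar polynomials of degree `≤ d - 1`, as `b + c + e' ≥ N(n,d-1)`). A `g ∈ V` vanishing on `H` is
`x_0 g'`, `g'` of degree `≤ d - 1` vanishing at the off points, so `g = 0`. Hence `b q` general partial conditions
`∑ a_j g_j(z) = 0`, `z ∈ H` (`War.red`, `OmC1`) kill `V`, and this is generic in `(z, a)`; combine with the trace. As in `War.C1_core`,
with this `V` in place of the product of scalar spaces. Numbers: `e_H + e' = N(n,d+1) - (n(q+1) + D) - (b (q+1) + c)`. -/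
def S_SB : Prop := ∀ ν d b c D q : ℕ, 1 ≤ ν → 1 ≤ d → 1 ≤ b →
  GG ν (d + 1) q → (ν + b) * q ≤ NN ν (d + 1) → (ν + 1 + D + q) + (b + c) ≤ NN (ν + 1) d →
  ν + 1 + D + q ≤ NN ν d → QB (ν + 1) d b c D →
  ∃ (z : Fin (b * (q + 1) + c) → Fin (ν + 1) → ℂ) (a : Fin (b * (q + 1) + c) → Fin b → ℂ)
    (y : Fin (NN (ν + 1) (d + 1) - ((ν + 1) * (q + 1) + D) - (b * (q + 1) + c)) →
      Fin (ν + 1) → ℂ), Kill (ν + 1) (d + 1) z a y

/-- Result: `Block` for small `q`, `D = ⌊n c / b⌋`. For `q = 1` it is `QB`, otherwise `S_SB` with `q - 1`; `Block n d b (n q + D)`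
has `⌈b (n q + D)/n⌉ = b q + c` full points. `S_Q3`, `S_UP`, `S_SB`; the double points: `GG ν d (q - 1)` from the hypothesis
`S_AH` (`(2 ν + 1) (q - 1) ≤ N(ν,d)`, since `q ≤ n - 2` and `(2n - 1)(n - 3) ≤ N(n-1,4)`). -/
def S_SMALL : Prop := (∀ n d p : ℕ, 1 ≤ n → 3 ≤ d → (2 * n + 1) * p ≤ NN n d → GG n d p) →
  ∀ n d b c D q : ℕ, 4 ≤ d → 1 ≤ c → c < b → b ≤ n → b * D ≤ n * c → n * c < b * (D + 1) →
  1 ≤ q → q + D < n → Block n d b (n * q + D)

end Pool.Agent.WarQ
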